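import Pool.Agent.Lib.MP_d8bd92_nt.Fh.Defs
import Pool.Agent.Lib.MP_d8bd92_nt.CdA

set_option autoImplicit false

/-! Row A: few solutions of the Pell equation in a box. -/

namespace Pool.Agent.Lib.MP_d8bd92_nt.Fh

open Finset Pool.Agent.Lib.Szpiro

namespace A

/-- the number of dyadic sizes is small -/
theorem log_le (τ : ℝ) (hτ : 0 < τ) : ∃ C : ℝ, 1 ≤ C ∧ ∀ Z : ℕ, 1 ≤ Z →
    ((Nat.log 2 Z : ℕ) : ℝ) + 1 ≤ C * (Z : ℝ) ^ τ := by
  have hl2 : 0 < Real.log 2 := Real.log_pos (by norm_num)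
  refine ⟨1 / (τ * Real.log 2) + 1, by
    have : 0 < 1 / (τ * Real.log 2) := by positivity
    linarith, ?_⟩
  intro Z hZ
  have hZ1 : (1 : ℝ) ≤ Z := by exact_mod_cast hZ
  have h1 : ((Nat.log 2 Z : ℕ) : ℝ) ≤ Real.logb 2 Z := Real.natLog_le_logb Z 2
  have h2 : Real.log Z ≤ (Z : ℝ) ^ τ / τ := Real.log_le_rpow_div (by linarith) hτ
  have h3 : (1 : ℝ) ≤ (Z : ℝ) ^ τ := Real.one_le_rpow hZ1 hτ.le
  have h4 : Real.logb 2 Z ≤ 1 / (τ * Real.log 2) * (Z : ℝ) ^ τ := by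
    rw [Real.logb, div_le_iff₀ hl2]
    refine h2.trans (le_of_eq ?_)
    field_simp
  linarith

/-- two nonnegative solutions of the Pell equation: the larger is at least twice the smaller -/
theorem step (d a b a' b' : ℤ) (hd : 0 < d) (ha : 0 ≤ a) (hb : 0 ≤ b) (hb' : 0 ≤ b')
    (h : a ^ 2 - d * b ^ 2 = 1) (h' : a' ^ 2 - d * b' ^ 2 = 1) (haa : a < a') : 2 * a ≤ a' := by
  have ha' : 0 < a' := lt_of_le_of_lt ha haa
  have hD : 0 < a * b' - a' * b := by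
    have h1 : (a' * b) ^ 2 < (a * b') ^ 2 := by
      have h2 : d * ((a * b') ^ 2 - (a' * b) ^ 2) = a' ^ 2 - a ^ 2 := by
        have e1 : d * b ^ 2 = a ^ 2 - 1 := by linarith
        have e2 : d * b' ^ 2 = a' ^ 2 - 1 := by linarith
        calc d * ((a * b') ^ 2 - (a' * b) ^ 2) = a ^ 2 * (d * b' ^ 2) - a' ^ 2 * (d * b ^ 2) := by
              ring
          _ = a' ^ 2 - a ^ 2 := by rw [e1, e2]; ring
      have h3 : 0 < a' ^ 2 - a ^ 2 := by
        have : 0 < (a' - a) * (a' + a) := mul_pos (by linarith) (by linarith)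
        linarith [show (a' - a) * (a' + a) = a' ^ 2 - a ^ 2 by ring]
      rw [← h2] at h3
      have h4 := (mul_pos_iff_of_pos_left hd).1 h3
      linarith
    have h5 := lt_of_pow_lt_pow_left₀ 2 (mul_nonneg ha hb') h1
    linarith
  have hC : 0 < a * a' - d * b * b' := by
    have h1 : (d * b * b') ^ 2 < (a * a') ^ 2 := by
      have e1 : d * b ^ 2 = a ^ 2 - 1 := by linarith
      have e2 : d * b' ^ 2 = a' ^ 2 - 1 := by linarith
      have h2 : (d * b * b') ^ 2 = (a ^ 2 - 1) * (a' ^ 2 - 1) := by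
        rw [← e1, ← e2]; ring
      have h3 : 1 ≤ a' ^ 2 := one_le_pow₀ (by linarith)
      have h4 : 0 ≤ d * b ^ 2 := mul_nonneg hd.le (sq_nonneg b)
      rw [h2]
      linarith [show (a * a') ^ 2 = (a ^ 2 - 1) * (a' ^ 2 - 1) + (a ^ 2 + a' ^ 2 - 1) by ring]
    have h5 := lt_of_pow_lt_pow_left₀ 2 (mul_nonneg ha ha'.le) h1
    linarith
  have hCD : (a * a' - d * b * b') ^ 2 = 1 + d * (a * b' - a' * b) ^ 2 := by
    have e : (a * a' - d * b * b') ^ 2 - d * (a * b' - a' * b) ^ 2 =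
        (a ^ 2 - d * b ^ 2) * (a' ^ 2 - d * b' ^ 2) := by ring
    rw [h, h'] at e
    linarith
  have hC2 : 2 ≤ a * a' - d * b * b' := by
    by_contra hcon
    have e1 : a * a' - d * b * b' = 1 := by omega
    rw [e1] at hCD
    have e2 : 0 < d * (a * b' - a' * b) ^ 2 := mul_pos hd (pow_pos hD 2)
    linarith
  have hfin : a' = a * (a * a' - d * b * b') + d * b * (a * b' - a' * b) := by
    have e : a * (a * a' - d * b * b') + d * b * (a * b' - a' * b) = a' * (a ^ 2 - d * b ^ 2) := by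
      ring
    rw [e, h, mul_one]
  have h6 : 0 ≤ d * b * (a * b' - a' * b) := mul_nonneg (mul_nonneg hd.le hb) hD.le
  have h7 : a * 2 ≤ a * (a * a' - d * b * b') := mul_le_mul_of_nonneg_left hC2 ha
  linarith

theorem log_ne (d a b a' b' : ℤ) (hd : 0 < d)
    (h : a ^ 2 - d * b ^ 2 = 1) (h' : a' ^ 2 - d * b' ^ 2 = 1)
    (hl : Nat.log 2 a.natAbs = Nat.log 2 a'.natAbs) : a.natAbs = a'.natAbs := by
  have key : ∀ a b a' b' : ℤ, a ^ 2 - d * b ^ 2 = 1 → a' ^ 2 - d * b' ^ 2 = 1 →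
      Nat.log 2 a.natAbs = Nat.log 2 a'.natAbs → ¬ a.natAbs < a'.natAbs := by
    intro a b a' b' h h' hl hlt
    have h1 : (2 : ℤ) * |a| ≤ |a'| := by
      refine step d |a| |b| |a'| |b'| hd (abs_nonneg _) (abs_nonneg _) (abs_nonneg _) ?_ ?_ ?_
      · rw [sq_abs, sq_abs]; exact h
      · rw [sq_abs, sq_abs]; exact h'
      · rw [Int.abs_eq_natAbs, Int.abs_eq_natAbs]; exact_mod_cast hlt
    have h2 : 2 * a.natAbs ≤ a'.natAbs := by
      rw [Int.abs_eq_natAbs, Int.abs_eq_natAbs] at h1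
      exact_mod_cast h1
    have h3 : a.natAbs ≠ 0 := by
      intro h0
      have : a = 0 := Int.natAbs_eq_zero.1 h0
      rw [this] at h
      have : 0 ≤ d * b ^ 2 := mul_nonneg hd.le (sq_nonneg b)
      linarith
    have h4 : Nat.log 2 (a.natAbs * 2) = Nat.log 2 a.natAbs + 1 := Nat.log_mul_base (by norm_num) h3
    have h5 : Nat.log 2 (a.natAbs * 2) ≤ Nat.log 2 a'.natAbs := Nat.log_mono_right (by linarith)
    omega
  have h1 := key a b a' b' h h' hl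
  have h2 := key a' b' a b h' h hl.symm
  omega

theorem inj (d : ℤ) (hd : d ≠ 0) (a b a' b' : ℤ)
    (h : a ^ 2 - d * b ^ 2 = 1) (h' : a' ^ 2 - d * b' ^ 2 = 1)
    (hsa : a.sign = a'.sign) (hsb : b.sign = b'.sign)
    (hl : Nat.log 2 a.natAbs = Nat.log 2 a'.natAbs) : a = a' ∧ b = b' := by
  rcases lt_or_gt_of_ne hd with hd0 | hd0
  · have key : ∀ a b : ℤ, a ^ 2 - d * b ^ 2 = 1 → a = a.sign ∧ b = b.sign := by
      intro a b h
      have h1 : a ^ 2 ≤ 1 := by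
        have : 0 ≤ (-d) * b ^ 2 := mul_nonneg (by linarith) (sq_nonneg b)
        linarith
      have h2 : b ^ 2 ≤ 1 := by
        have e1 : 0 ≤ a ^ 2 := sq_nonneg a
        have e2 : 0 ≤ (-d - 1) * b ^ 2 := mul_nonneg (by omega) (sq_nonneg b)
        linarith
      have h3 : |a| ≤ 1 := (sq_le_one_iff_abs_le_one a).1 h1
      have h4 : |b| ≤ 1 := (sq_le_one_iff_abs_le_one b).1 h2
      rw [abs_le] at h3 h4
      constructor
      · have : a = -1 ∨ a = 0 ∨ a = 1 := by omega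
        rcases this with rfl | rfl | rfl <;> rfl
      · have : b = -1 ∨ b = 0 ∨ b = 1 := by omega
        rcases this with rfl | rfl | rfl <;> rfl
    obtain ⟨h1, h2⟩ := key a b h
    obtain ⟨h3, h4⟩ := key a' b' h'
    exact ⟨by rw [h1, h3, hsa], by rw [h2, h4, hsb]⟩
  · have h1 := log_ne d a b a' b' hd0 h h' hl
    have h2 : a = a' := by rw [← Int.sign_mul_natAbs a, ← Int.sign_mul_natAbs a', hsa, h1]
    refine ⟨h2, ?_⟩
    have h3 : d * b ^ 2 = d * b' ^ 2 := by rw [h2] at h; linarith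
    have h4 : b ^ 2 = b' ^ 2 := mul_left_cancel₀ hd h3
    have h5 : b.natAbs = b'.natAbs := Int.natAbs_eq_iff_sq_eq.2 h4
    rw [← Int.sign_mul_natAbs b, ← Int.sign_mul_natAbs b', hsb, h5]

theorem sign_mem (a : ℤ) : a.sign ∈ Icc (-1 : ℤ) 1 := by
  rw [Finset.mem_Icc]
  rcases lt_trichotomy a 0 with h | h | h
  · rw [Int.sign_eq_neg_one_of_neg h]; norm_num
  · rw [h]; norm_num
  · rw [Int.sign_eq_one_of_pos h]; norm_num

end A

theorem pell (σ : ℝ) (hσ : 0 < σ) : ∃ C : ℝ, 1 ≤ C ∧ ∀ (M : ℕ) (d : ℤ) (T : Finset (ℤ × ℤ)),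
    1 ≤ M → d ≠ 0 → (∀ w ∈ T, w.1 ^ 2 - d * w.2 ^ 2 = 1 ∧ |w.1| ≤ M ∧ |w.2| ≤ M) →
    (T.card : ℝ) ≤ C * (M : ℝ) ^ σ := by
  obtain ⟨C, hC1, hC⟩ := A.log_le σ hσ
  refine ⟨9 * C, by linarith, ?_⟩
  intro M d T hM hd hT
  have h1 : T.card ≤ 9 * (Nat.log 2 M + 1) := by
    have h2 : T.card ≤ ((Icc (-1 : ℤ) 1 ×ˢ Icc (-1 : ℤ) 1) ×ˢ range (Nat.log 2 M + 1)).card := by
      refine Finset.card_le_card_of_injOn
        (fun w : ℤ × ℤ => ((w.1.sign, w.2.sign), Nat.log 2 w.1.natAbs)) ?_ ?_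
      · intro w hw
        obtain ⟨-, h3, -⟩ := hT w hw
        simp only [Finset.coe_product, Set.mem_prod, Finset.mem_coe]
        refine ⟨⟨A.sign_mem _, A.sign_mem _⟩, Finset.mem_range.2 (Nat.lt_succ_of_le ?_)⟩
        refine Nat.log_mono_right ?_
        rw [Int.abs_eq_natAbs] at h3
        exact_mod_cast h3
      · intro w hw w' hw' hww
        obtain ⟨h3, -, -⟩ := hT w hw
        obtain ⟨h4, -, -⟩ := hT w' hw'
        simp only [Prod.mk.injEq] at hww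
        obtain ⟨h5, h6⟩ := A.inj d hd w.1 w.2 w'.1 w'.2 h3 h4 hww.1.1 hww.1.2 hww.2
        exact Prod.ext h5 h6
    refine h2.trans (le_of_eq ?_)
    rw [Finset.card_product, Finset.card_product, Finset.card_range]
    rfl
  have h3 : (T.card : ℝ) ≤ 9 * ((Nat.log 2 M : ℕ) + 1 : ℝ) := by exact_mod_cast h1
  have h4 := hC M hM
  linarith

end Pool.Agent.Lib.MP_d8bd92_nt.Fh
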