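import Pool.Agent.Lib.MP_d8bd92_nt.Fh.A
import Pool.Agent.Lib.MP_d8bd92_nt.CdE1

set_option autoImplicit false

/-! Row B: few points on the conic `u x² - s v y² = n` in a box. -/

namespace Pool.Agent.Lib.MP_d8bd92_nt.Fh

open Finset Pool.Agent.Lib.Szpiro

namespace B

/-- the identity of composition -/
theorem comp_id (u v x y x0 y0 n s : ℤ) (hs : s = 1 ∨ s = -1)
    (h : u * x ^ 2 - s * (v * y ^ 2) = n) (h0 : u * x0 ^ 2 - s * (v * y0 ^ 2) = n) :
    (u * x * x0 - s * v * y * y0) ^ 2 - s * u * v * (x * y0 - x0 * y) ^ 2 = n ^ 2 := by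
  have h1 : n ^ 2 = (u * x ^ 2 - s * (v * y ^ 2)) * (u * x0 ^ 2 - s * (v * y0 ^ 2)) := by
    rw [h, h0]; ring
  rw [h1]
  rcases hs with rfl | rfl <;> ring

/-- coprimality of the data with `n` -/
theorem cop (u v x y : ℕ) (n s : ℤ) (hs : s = 1 ∨ s = -1)
    (hc : Nat.Coprime (u * x) (v * y))
    (h : (u : ℤ) * (x : ℤ) ^ 2 - s * ((v : ℤ) * (y : ℤ) ^ 2) = n) :
    Nat.Coprime x n.natAbs ∧ Nat.Coprime y n.natAbs ∧ Nat.Coprime u n.natAbs := by
  have key : ∀ p : ℕ, p.Prime → p ∣ n.natAbs → ¬ p ∣ u * x ∧ ¬ p ∣ v * y := by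
    intro p hp hpn
    have hpn' : (p : ℤ) ∣ n := Int.natCast_dvd.mpr hpn
    have hpp : Prime (p : ℤ) := Nat.prime_iff_prime_int.mp hp
    have hsu : IsUnit s := by
      rcases hs with rfl | rfl
      · exact isUnit_one
      · exact isUnit_one.neg
    constructor
    · intro h1
      have h1' : (p : ℤ) ∣ (u : ℤ) * (x : ℤ) ^ 2 := by
        have : (p : ℤ) ∣ (u : ℤ) * x := by exact_mod_cast h1
        have h2 := dvd_mul_of_dvd_left this (x : ℤ)
        have h3 : (u : ℤ) * x * x = (u : ℤ) * (x : ℤ) ^ 2 := by ring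
        rwa [h3] at h2
      have h2 : (p : ℤ) ∣ s * ((v : ℤ) * (y : ℤ) ^ 2) := by
        have h3 := dvd_sub h1' hpn'
        rw [← h] at h3
        simpa using h3
      have h3 : (p : ℤ) ∣ (v : ℤ) * (y : ℤ) ^ 2 := (hsu.dvd_mul_left).mp h2
      have h4 : (p : ℤ) ∣ (v : ℤ) * y := by
        rcases hpp.dvd_or_dvd h3 with h5 | h5
        · exact dvd_mul_of_dvd_left h5 _
        · exact dvd_mul_of_dvd_right (hpp.dvd_of_dvd_pow h5) _
      have h5 : p ∣ v * y := by exact_mod_cast h4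
      exact Nat.not_coprime_of_dvd_of_dvd hp.one_lt h1 h5 hc
    · intro h1
      have h1' : (p : ℤ) ∣ s * ((v : ℤ) * (y : ℤ) ^ 2) := by
        have : (p : ℤ) ∣ (v : ℤ) * y := by exact_mod_cast h1
        have h2 := dvd_mul_of_dvd_left this (s * (y : ℤ))
        have h3 : (v : ℤ) * y * (s * (y : ℤ)) = s * ((v : ℤ) * (y : ℤ) ^ 2) := by ring
        rwa [h3] at h2
      have h3 : (p : ℤ) ∣ (u : ℤ) * (x : ℤ) ^ 2 := by
        have h3 := dvd_add hpn' h1'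
        rw [← h] at h3
        simpa using h3
      have h4 : (p : ℤ) ∣ (u : ℤ) * x := by
        rcases hpp.dvd_or_dvd h3 with h5 | h5
        · exact dvd_mul_of_dvd_left h5 _
        · exact dvd_mul_of_dvd_right (hpp.dvd_of_dvd_pow h5) _
      have h5 : p ∣ u * x := by exact_mod_cast h4
      exact Nat.not_coprime_of_dvd_of_dvd hp.one_lt h5 h1 hc
  refine ⟨?_, ?_, ?_⟩
  · refine Nat.coprime_of_dvd ?_
    intro p hp h1 h2
    exact (key p hp h2).1 (dvd_mul_of_dvd_right h1 _)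
  · refine Nat.coprime_of_dvd ?_
    intro p hp h1 h2
    exact (key p hp h2).2 (dvd_mul_of_dvd_right h1 _)
  · refine Nat.coprime_of_dvd ?_
    intro p hp h1 h2
    exact (key p hp h2).1 (dvd_mul_of_dvd_left h1 _)

/-- one class: a difference that is divisible by `n` gives a solution of the equation of Pell -/
theorem one_class (C σ : ℝ)
    (hp : ∀ (M : ℕ) (d : ℤ) (T : Finset (ℤ × ℤ)),
      1 ≤ M → d ≠ 0 → (∀ w ∈ T, w.1 ^ 2 - d * w.2 ^ 2 = 1 ∧ |w.1| ≤ M ∧ |w.2| ≤ M) →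
      (T.card : ℝ) ≤ C * (M : ℝ) ^ σ)
    (Z u v : ℕ) (n s : ℤ) (T : Finset (ℕ × ℕ)) (hZ : 1 ≤ Z) (hu : 1 ≤ u) (huZ : u ≤ Z)
    (hv : 1 ≤ v) (hvZ : v ≤ Z) (hn : n ≠ 0) (hs : s = 1 ∨ s = -1)
    (hT : ∀ q ∈ T, 1 ≤ q.1 ∧ q.1 ≤ Z ∧ 1 ≤ q.2 ∧ q.2 ≤ Z ∧ Nat.Coprime (u * q.1) (v * q.2) ∧
      (u : ℤ) * (q.1 : ℤ) ^ 2 - s * ((v : ℤ) * (q.2 : ℤ) ^ 2) = n)
    (hcl : ∀ q ∈ T, ∀ r ∈ T, n ∣ (q.1 : ℤ) * r.2 - r.1 * q.2) :
    (T.card : ℝ) ≤ C * ((2 * Z ^ 3 : ℕ) : ℝ) ^ σ := by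
  classical
  rcases T.eq_empty_or_nonempty with h0 | ⟨r, hr⟩
  · have h1 := hp (2 * Z ^ 3) 1 ∅ (by
      have : 0 < Z ^ 3 := by positivity
      omega) one_ne_zero (by simp)
    rw [h0]
    simpa using h1
  obtain ⟨hx1, hxZ, hy1, hyZ, hrc, hrn⟩ := hT r hr
  have hcr := cop u v r.1 r.2 n s hs hrc hrn
  have hA : ∀ q ∈ T, n ∣ (u : ℤ) * q.1 * r.1 - s * v * q.2 * r.2 := by
    intro q hq
    have h1 := hcl q hq r hr
    have h2 : n ∣ (r.2 : ℤ) * ((u : ℤ) * q.1 * r.1 - s * v * q.2 * r.2) := by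
      have h3 : (r.2 : ℤ) * ((u : ℤ) * q.1 * r.1 - s * v * q.2 * r.2) =
          (u : ℤ) * r.1 * ((q.1 : ℤ) * r.2 - r.1 * q.2) + q.2 * n := by
        rw [← hrn]; ring
      rw [h3]
      exact dvd_add (dvd_mul_of_dvd_right h1 _) (dvd_mul_left _ _)
    have h4 : IsCoprime n (r.2 : ℤ) := by
      have h5 : IsCoprime ((n.natAbs : ℕ) : ℤ) (r.2 : ℤ) :=
        Nat.isCoprime_iff_coprime.mpr hcr.2.1.symm
      rcases Int.natAbs_eq n with h6 | h6
      · rw [h6]; exact h5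
      · rw [h6]; exact h5.neg_left
    exact h4.dvd_of_dvd_mul_left h2
  set f : ℕ × ℕ → ℤ × ℤ := fun q =>
    (((u : ℤ) * q.1 * r.1 - s * v * q.2 * r.2) / n, ((q.1 : ℤ) * r.2 - r.1 * q.2) / n) with hf
  have hf1 : ∀ q ∈ T, n * (f q).1 = (u : ℤ) * q.1 * r.1 - s * v * q.2 * r.2 := by
    intro q hq
    exact Int.mul_ediv_cancel' (hA q hq)
  have hf2 : ∀ q ∈ T, n * (f q).2 = (q.1 : ℤ) * r.2 - r.1 * q.2 := by
    intro q hq
    exact Int.mul_ediv_cancel' (hcl q hq r hr)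
  have hinj : Set.InjOn f T := by
    intro q hq q' hq' he
    have e1 := hf1 q hq
    have e2 := hf2 q hq
    have e1' := hf1 q' hq'
    have e2' := hf2 q' hq'
    rw [he] at e1 e2
    have g1 : (u : ℤ) * r.1 * ((q.1 : ℤ) - q'.1) - s * v * r.2 * ((q.2 : ℤ) - q'.2) = 0 := by
      linear_combination e1' - e1
    have g2 : (r.2 : ℤ) * ((q.1 : ℤ) - q'.1) - r.1 * ((q.2 : ℤ) - q'.2) = 0 := by
      linear_combination e2' - e2
    have g3 : n * ((q.1 : ℤ) - q'.1) = 0 := by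
      rw [← hrn]
      linear_combination (r.1 : ℤ) * g1 - s * v * r.2 * g2
    have g4 : (q.1 : ℤ) - q'.1 = 0 := by
      rcases mul_eq_zero.mp g3 with h | h
      · exact absurd h hn
      · exact h
    rw [g4] at g2
    have g5 : (r.1 : ℤ) * ((q.2 : ℤ) - q'.2) = 0 := by linear_combination -g2
    have g6 : (q.2 : ℤ) - q'.2 = 0 := by
      rcases mul_eq_zero.mp g5 with h | h
      · have : r.1 = 0 := by exact_mod_cast h
        omega
      · exact h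
    refine Prod.ext ?_ ?_ <;> omega
  have hn1 : 1 ≤ |n| := Int.one_le_abs hn
  have h1 := hp (2 * Z ^ 3) (s * u * v) (T.image f) (by
    have : 0 < Z ^ 3 := by positivity
    omega) (by
      have hu0 : (u : ℤ) ≠ 0 := by positivity
      have hv0 : (v : ℤ) ≠ 0 := by positivity
      rcases hs with rfl | rfl
      · simpa using ⟨by omega, by omega⟩
      · simpa using ⟨by omega, by omega⟩) (by
      intro w hw
      rw [Finset.mem_image] at hw
      obtain ⟨q, hq, rfl⟩ := hw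
      obtain ⟨qx1, qxZ, qy1, qyZ, qc, qn⟩ := hT q hq
      have e1 := hf1 q hq
      have e2 := hf2 q hq
      have b1 : |n * (f q).1| ≤ 2 * (Z : ℤ) ^ 3 := by
        rw [e1]
        have c1 : (u : ℤ) * q.1 * r.1 ≤ Z * Z * Z := by
          have : u * q.1 * r.1 ≤ Z * Z * Z := Nat.mul_le_mul (Nat.mul_le_mul huZ qxZ) hxZ
          exact_mod_cast this
        have c2 : (v : ℤ) * q.2 * r.2 ≤ Z * Z * Z := by
          have : v * q.2 * r.2 ≤ Z * Z * Z := Nat.mul_le_mul (Nat.mul_le_mul hvZ qyZ) hyZ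
          exact_mod_cast this
        have c3 : 0 ≤ (u : ℤ) * q.1 * r.1 := by positivity
        have c4 : 0 ≤ (v : ℤ) * q.2 * r.2 := by positivity
        have c5 : (Z : ℤ) * Z * Z = Z ^ 3 := by ring
        rw [c5] at c1 c2
        rw [abs_le]
        rcases hs with rfl | rfl
        · constructor <;> linarith
        · constructor <;> linarith
      have b2 : |n * (f q).2| ≤ 2 * (Z : ℤ) ^ 3 := by
        rw [e2]
        have c1 : (q.1 : ℤ) * r.2 ≤ Z * Z := by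
          have : q.1 * r.2 ≤ Z * Z := Nat.mul_le_mul qxZ hyZ
          exact_mod_cast this
        have c2 : (r.1 : ℤ) * q.2 ≤ Z * Z := by
          have : r.1 * q.2 ≤ Z * Z := Nat.mul_le_mul hxZ qyZ
          exact_mod_cast this
        have c3 : 0 ≤ (q.1 : ℤ) * r.2 := by positivity
        have c4 : 0 ≤ (r.1 : ℤ) * q.2 := by positivity
        have c5 : (Z : ℤ) * Z ≤ Z ^ 3 := by
          have : Z * Z ≤ Z ^ 3 := by
            calc Z * Z = Z ^ 2 := by ring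
              _ ≤ Z ^ 3 := Nat.pow_le_pow_right hZ (by norm_num)
          exact_mod_cast this
        rw [abs_le]
        constructor <;> linarith
      have b3 : ∀ t : ℤ, |n * t| ≤ 2 * (Z : ℤ) ^ 3 → |t| ≤ ((2 * Z ^ 3 : ℕ) : ℤ) := by
        intro t ht
        rw [abs_mul] at ht
        push_cast
        have : |t| ≤ |n| * |t| := le_mul_of_one_le_left (abs_nonneg t) hn1
        exact this.trans ht
      refine ⟨?_, b3 _ b1, b3 _ b2⟩
      have c1 := comp_id u v q.1 q.2 r.1 r.2 n s hs qn hrn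
      rw [← e1, ← e2] at c1
      have c2 : n ^ 2 * ((f q).1 ^ 2 - s * u * v * (f q).2 ^ 2) = n ^ 2 * 1 := by
        linear_combination c1
      exact mul_left_cancel₀ (pow_ne_zero 2 hn) c2)
  rwa [Finset.card_image_of_injOn hinj] at h1

end B

theorem conic (σ : ℝ) (hσ : 0 < σ) : ∃ C : ℝ, 1 ≤ C ∧ ∀ (Z u v : ℕ) (n s : ℤ)
    (T : Finset (ℕ × ℕ)), 1 ≤ Z → 1 ≤ u → u ≤ Z → 1 ≤ v → v ≤ Z → n ≠ 0 → |n| ≤ Z →
    (s = 1 ∨ s = -1) →
    (∀ q ∈ T, 1 ≤ q.1 ∧ q.1 ≤ Z ∧ 1 ≤ q.2 ∧ q.2 ≤ Z ∧ Nat.Coprime (u * q.1) (v * q.2) ∧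
      (u : ℤ) * (q.1 : ℤ) ^ 2 - s * ((v : ℤ) * (q.2 : ℤ) ^ 2) = n) →
    (T.card : ℝ) ≤ C * (Z : ℝ) ^ σ := by
  classical
  obtain ⟨C1, hC1, hp⟩ := pell (σ / 6) (by positivity)
  obtain ⟨C2, hC2, hb⟩ := exists_pow_card_primeFactors_le 4 (σ / 2) (by positivity)
  have h2σ : (1 : ℝ) ≤ 2 ^ (σ / 6) := Real.one_le_rpow (by norm_num) (by positivity)
  refine ⟨C2 * (C1 * 2 ^ (σ / 6)), one_le_mul_of_one_le_of_one_le hC2
    (one_le_mul_of_one_le_of_one_le hC1 h2σ), ?_⟩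
  intro Z u v n s T hZ hu huZ hv hvZ hn hnZ hs hT
  have hZ0 : (0 : ℝ) < Z := by exact_mod_cast hZ
  set D : ℕ := n.natAbs with hD
  have hD1 : 1 ≤ D := Int.natAbs_pos.mpr hn
  have hDZ : D ≤ Z := by
    have : (D : ℤ) = |n| := Int.natCast_natAbs n
    omega
  have : NeZero D := ⟨by omega⟩
  set M : ℝ := C1 * ((2 * Z ^ 3 : ℕ) : ℝ) ^ (σ / 6) with hM
  have hM0 : 0 ≤ M := by positivity
  rcases T.eq_empty_or_nonempty with h0 | ⟨r, hr⟩
  · subst h0
    simp only [Finset.card_empty, Nat.cast_zero]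
    positivity
  have hco : ∀ q ∈ T, Nat.Coprime q.1 D ∧ Nat.Coprime q.2 D ∧ Nat.Coprime u D := by
    intro q hq
    obtain ⟨_, _, _, _, h5, h6⟩ := hT q hq
    exact B.cop u v q.1 q.2 n s hs h5 h6
  set un : ℕ → (ZMod D)ˣ := fun x => if h : Nat.Coprime x D then ZMod.unitOfCoprime x h else 1
    with hun
  have hun1 : ∀ x, Nat.Coprime x D → ((un x : (ZMod D)ˣ) : ZMod D) = (x : ZMod D) := by
    intro x hx
    rw [hun]
    simp only [dif_pos hx, ZMod.coe_unitOfCoprime]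
  set cl : ℕ × ℕ → (ZMod D)ˣ := fun q => un q.1 * (un q.2)⁻¹ * (un r.1 * (un r.2)⁻¹)⁻¹ with hcl
  set R : Finset (ZMod D)ˣ := Finset.univ.filter (fun u => u ^ 2 = 1) with hR
  have hRcard : (R.card : ℝ) ≤ C2 * (Z : ℝ) ^ (σ / 2) := by
    have h1 : R.card = Nat.card {u : (ZMod D)ˣ // u ^ 2 = 1} := by
      rw [Nat.card_eq_fintype_card, Fintype.card_subtype]
    have h2 := CdE1.nat_card_tors 2 (by norm_num) D (by omega)
    rw [← h1] at h2
    calc (R.card : ℝ) ≤ (((2 * 2) ^ D.primeFactors.card : ℕ) : ℝ) := by exact_mod_cast h2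
      _ = ((4 : ℕ) : ℝ) ^ D.primeFactors.card := by push_cast; norm_num
      _ ≤ C2 * (D : ℝ) ^ (σ / 2) := hb D (by omega)
      _ ≤ C2 * (Z : ℝ) ^ (σ / 2) := by
          refine mul_le_mul_of_nonneg_left ?_ (by linarith)
          exact Real.rpow_le_rpow (by positivity) (by exact_mod_cast hDZ) (by positivity)
  have hnD : ((n : ℤ) : ZMod D) = 0 := by
    rw [ZMod.intCast_zmod_eq_zero_iff_dvd]
    exact Int.natAbs_dvd.mpr dvd_rfl
  have hsq : ∀ q ∈ T, (un u) * (un q.1) ^ 2 * ((un q.2)⁻¹) ^ 2 =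
      (un u) * (un r.1) ^ 2 * ((un r.2)⁻¹) ^ 2 := by
    have h1 : ∀ q ∈ T, ((un u * (un q.1) ^ 2 * ((un q.2)⁻¹) ^ 2 : (ZMod D)ˣ) : ZMod D) =
        (s : ZMod D) * (v : ZMod D) := by
      intro q hq
      obtain ⟨c1, c2, c3⟩ := hco q hq
      obtain ⟨_, _, _, _, _, h6⟩ := hT q hq
      have h7 : (u : ZMod D) * (q.1 : ZMod D) ^ 2 =
          (s : ZMod D) * ((v : ZMod D) * (q.2 : ZMod D) ^ 2) := by
        have h8 := congrArg (fun z : ℤ => (z : ZMod D)) h6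
        rw [hnD] at h8
        push_cast at h8
        exact sub_eq_zero.mp h8
      have h9 : ((un q.2 : (ZMod D)ˣ) : ZMod D) * (((un q.2)⁻¹ : (ZMod D)ˣ) : ZMod D) = 1 :=
        Units.mul_inv _
      rw [hun1 _ c2] at h9
      push_cast
      rw [hun1 _ c1, hun1 _ c3, h7]
      calc (s : ZMod D) * ((v : ZMod D) * (q.2 : ZMod D) ^ 2) *
            (((un q.2)⁻¹ : (ZMod D)ˣ) : ZMod D) ^ 2
          = (s : ZMod D) * (v : ZMod D) *
            ((q.2 : ZMod D) * (((un q.2)⁻¹ : (ZMod D)ˣ) : ZMod D)) ^ 2 := by ring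
        _ = (s : ZMod D) * (v : ZMod D) := by rw [h9]; ring
    intro q hq
    exact Units.ext ((h1 q hq).trans (h1 r hr).symm)
  have hmem : ∀ q ∈ T, cl q ∈ R := by
    intro q hq
    rw [hR, Finset.mem_filter]
    refine ⟨Finset.mem_univ _, ?_⟩
    have h1 := hsq q hq
    rw [mul_assoc, mul_assoc] at h1
    have h2 := mul_left_cancel h1
    simp only [hcl]
    have h3 : (un q.1 * (un q.2)⁻¹) ^ 2 = (un r.1 * (un r.2)⁻¹) ^ 2 := by
      rw [mul_pow, mul_pow, h2]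
    rw [mul_pow, h3, inv_pow]
    exact mul_inv_cancel _
  have hfib : ∀ c ∈ R, ((T.filter (fun q => cl q = c)).card : ℝ) ≤ M := by
    intro c _
    refine B.one_class C1 (σ / 6) hp Z u v n s _ hZ hu huZ hv hvZ hn hs ?_ ?_
    · intro q hq
      exact hT q (Finset.mem_filter.mp hq).1
    · intro q hq q' hq'
      rw [Finset.mem_filter] at hq hq'
      obtain ⟨a1, a2, _⟩ := hco q hq.1
      obtain ⟨b1, b2, _⟩ := hco q' hq'.1
      have h1 : un q.1 * (un q.2)⁻¹ = un q'.1 * (un q'.2)⁻¹ :=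
        mul_right_cancel (hq.2.trans hq'.2.symm)
      have h2 : un q.1 * un q'.2 = un q'.1 * un q.2 := by
        have h3 := congrArg (fun z => z * (un q.2 * un q'.2)) h1
        calc un q.1 * un q'.2 = un q.1 * (un q.2)⁻¹ * (un q.2 * un q'.2) := by group
          _ = un q'.1 * (un q'.2)⁻¹ * (un q.2 * un q'.2) := h3
          _ = un q'.1 * un q.2 := by
              rw [mul_comm (un q.2) (un q'.2)]
              group
      have h3 := congrArg (fun z : (ZMod D)ˣ => (z : ZMod D)) h2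
      push_cast at h3
      rw [hun1 _ a1, hun1 _ a2, hun1 _ b1, hun1 _ b2] at h3
      have h4 : (((q.1 : ℤ) * q'.2 - q'.1 * q.2 : ℤ) : ZMod D) = 0 := by
        push_cast
        exact sub_eq_zero.mpr h3
      rw [ZMod.intCast_zmod_eq_zero_iff_dvd] at h4
      exact Int.natAbs_dvd.mp h4
  have hsum : (T.card : ℝ) = ∑ c ∈ R, ((T.filter (fun q => cl q = c)).card : ℝ) := by
    rw [Finset.card_eq_sum_card_fiberwise (f := cl) (t := R) hmem]
    push_cast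
    rfl
  rw [hsum]
  have hMZ : M = C1 * 2 ^ (σ / 6) * (Z : ℝ) ^ (σ / 2) := by
    rw [hM]
    push_cast
    rw [Real.mul_rpow (by norm_num) (by positivity), ← Real.rpow_natCast (Z : ℝ) 3,
      ← Real.rpow_mul hZ0.le]
    have : ((3 : ℕ) : ℝ) * (σ / 6) = σ / 2 := by push_cast; ring
    rw [this]
    ring
  have hZσ : (Z : ℝ) ^ (σ / 2) * (Z : ℝ) ^ (σ / 2) = (Z : ℝ) ^ σ := by
    rw [← Real.rpow_add hZ0]
    congr 1
    ring
  calc ∑ c ∈ R, ((T.filter (fun q => cl q = c)).card : ℝ)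
      ≤ ∑ _c ∈ R, M := Finset.sum_le_sum hfib
    _ = R.card * M := by rw [Finset.sum_const, nsmul_eq_mul]
    _ ≤ (C2 * (Z : ℝ) ^ (σ / 2)) * M := mul_le_mul_of_nonneg_right hRcard hM0
    _ = C2 * (C1 * 2 ^ (σ / 6)) * ((Z : ℝ) ^ (σ / 2) * (Z : ℝ) ^ (σ / 2)) := by
        rw [hMZ]; ring
    _ = C2 * (C1 * 2 ^ (σ / 6)) * (Z : ℝ) ^ σ := by rw [hZσ]

end Pool.Agent.Lib.MP_d8bd92_nt.Fh
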