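import Pool.Agent.Lib.MP_d8bd92_nt.Fh.B
import Pool.Agent.Lib.MP_d8bd92_nt.TfM

set_option autoImplicit false

/-! Row C: the number of pairs in the event `EvSq`. -/

namespace Pool.Agent.Lib.MP_d8bd92_nt.Fh

open Finset Pool.Agent.Lib.Szpiro

namespace C

/-- the square root of the square part -/
def sqr (m : ℕ) : ℕ := ∏ p ∈ m.primeFactors, p ^ (m.factorization p / 2)

theorem split (m : ℕ) (hm : m ≠ 0) : oddp m * sqr m ^ 2 = m := by
  unfold oddp sqr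
  rw [Finset.prod_filter, ← Finset.prod_pow, ← Finset.prod_mul_distrib]
  have h1 : ∏ p ∈ m.primeFactors, ((if Odd (m.factorization p) then p else 1) *
      (p ^ (m.factorization p / 2)) ^ 2) = ∏ p ∈ m.primeFactors, p ^ (m.factorization p) := by
    refine Finset.prod_congr rfl fun p _ => ?_
    rcases Nat.even_or_odd (m.factorization p) with h | h
    · rw [if_neg (Nat.not_odd_iff_even.2 h), one_mul, ← pow_mul]
      congr 1
      obtain ⟨r, hr⟩ := h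
      omega
    · rw [if_pos h, ← pow_mul, ← pow_succ']
      congr 1
      obtain ⟨r, hr⟩ := h
      omega
  rw [h1]
  have h2 := Nat.prod_factorization_pow_eq_self hm
  rw [Finsupp.prod, Nat.support_factorization] at h2
  exact h2

theorem oddp_pos (m : ℕ) : 0 < oddp m :=
  Finset.prod_pos fun _ hp => (Nat.prime_of_mem_primeFactors (Finset.mem_filter.1 hp).1).pos

theorem sqr_pos (m : ℕ) : 0 < sqr m :=
  Finset.prod_pos fun _ hp => pow_pos (Nat.prime_of_mem_primeFactors hp).pos _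

theorem oddp_le (m : ℕ) (hm : m ≠ 0) : oddp m ≤ m := by
  have h1 := split m hm
  have h2 : 1 ≤ sqr m ^ 2 := Nat.one_le_pow _ _ (sqr_pos m)
  calc oddp m = oddp m * 1 := (mul_one _).symm
    _ ≤ oddp m * sqr m ^ 2 := Nat.mul_le_mul_left _ h2
    _ = m := h1

theorem sqr_le (m : ℕ) (hm : m ≠ 0) : sqr m ≤ m := by
  have h1 := split m hm
  have h2 : 1 ≤ oddp m := oddp_pos m
  calc sqr m ≤ sqr m ^ 2 := Nat.le_self_pow (by norm_num) _
    _ = 1 * sqr m ^ 2 := (one_mul _).symm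
    _ ≤ oddp m * sqr m ^ 2 := Nat.mul_le_mul_right _ h2
    _ = m := h1

/-- one role -/
theorem role_bound (σ : ℝ) (hσ : 0 < σ) : ∃ C : ℝ, 1 ≤ C ∧ ∀ (Z : ℕ) (Q : ℝ) (s e : ℤ)
    (S : Finset (ℕ × ℕ)), 1 ≤ Z → 0 ≤ Q → (s = 1 ∨ s = -1) →
    (∀ q ∈ S, 1 ≤ q.1 ∧ q.1 ≤ Z ∧ 1 ≤ q.2 ∧ q.2 ≤ Z ∧ Nat.Coprime q.1 q.2 ∧
      ∃ l : ℕ, 1 ≤ l ∧ l ≤ Z ∧ (q.1 : ℤ) - s * (q.2 : ℤ) = e * l ∧ (e = 1 ∨ e = -1) ∧
        (rd l : ℝ) * ((oddp q.1 : ℝ) * oddp q.2) ≤ Q) →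
    (S.card : ℝ) ≤ C * (Z : ℝ) ^ σ * Q := by
  classical
  obtain ⟨C1, hC11, hC1⟩ := conic (σ / 2) (by positivity)
  obtain ⟨C3, hC31, hC3⟩ := TfM.card_triple (σ / 2) (by positivity)
  refine ⟨C3 * C1, one_le_mul_of_one_le_of_one_le hC31 hC11, ?_⟩
  intro Z Q s e S hZ hQ hs hS
  have hZ0 : (0 : ℝ) < Z := by exact_mod_cast hZ
  -- the triple
  set f : ℕ × ℕ → ℕ × ℕ × ℕ := fun q =>
    (((q.1 : ℤ) - s * (q.2 : ℤ)).natAbs, oddp q.1, oddp q.2) with hf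
  set T := (Icc 1 Z ×ˢ Icc 1 Z ×ˢ Icc 1 Z).filter
      (fun q : ℕ × ℕ × ℕ => (rd q.1 : ℝ) * rd q.2.1 * rd q.2.2 ≤ Q) with hT
  have habs : ∀ (l : ℕ), (e = 1 ∨ e = -1) → (e * (l : ℤ)).natAbs = l := by
    intro l he
    rcases he with h | h
    · rw [h, one_mul, Int.natAbs_natCast]
    · rw [h, neg_one_mul, Int.natAbs_neg, Int.natAbs_natCast]
  have hmaps : ∀ q ∈ S, f q ∈ T := by
    intro q hq
    obtain ⟨h1, h2, h3, h4, -, l, h6, h7, h8, h9, h10⟩ := hS q hq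
    rw [hT, Finset.mem_filter, Finset.mem_product, Finset.mem_product, Finset.mem_Icc,
      Finset.mem_Icc, Finset.mem_Icc]
    simp only [hf]
    rw [h8, habs l h9]
    refine ⟨⟨⟨h6, h7⟩, ⟨oddp_pos _, (oddp_le _ (by omega)).trans h2⟩,
      ⟨oddp_pos _, (oddp_le _ (by omega)).trans h4⟩⟩, ?_⟩
    refine le_trans ?_ h10
    rw [mul_assoc]
    have e1 : (rd (oddp q.1) : ℝ) ≤ oddp q.1 := by
      exact_mod_cast rd_le (oddp_pos q.1).ne'
    have e2 : (rd (oddp q.2) : ℝ) ≤ oddp q.2 := by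
      exact_mod_cast rd_le (oddp_pos q.2).ne'
    exact mul_le_mul_of_nonneg_left (mul_le_mul e1 e2 (by positivity) (by positivity))
      (by positivity)
  -- the fibres
  set B : ℝ := C1 * (Z : ℝ) ^ (σ / 2) with hB
  have hfib : ∀ t ∈ T, (((S.filter (fun q => f q = t)).card : ℕ) : ℝ) ≤ B := by
    intro t ht
    rw [hT, Finset.mem_filter, Finset.mem_product, Finset.mem_product, Finset.mem_Icc,
      Finset.mem_Icc, Finset.mem_Icc] at ht
    obtain ⟨⟨⟨t1, t2⟩, ⟨t3, t4⟩, ⟨t5, t6⟩⟩, -⟩ := ht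
    rcases (S.filter (fun q => f q = t)).eq_empty_or_nonempty with h0 | ⟨q0, hq0⟩
    · rw [h0, Finset.card_empty, Nat.cast_zero]
      positivity
    have he : e = 1 ∨ e = -1 := by
      rw [Finset.mem_filter] at hq0
      obtain ⟨-, -, -, -, -, l, -, -, -, h9, -⟩ := hS q0 hq0.1
      exact h9
    set g : ℕ × ℕ → ℕ × ℕ := fun q => (sqr q.1, sqr q.2) with hg
    have hinj : Set.InjOn g (S.filter (fun q => f q = t) : Finset (ℕ × ℕ)) := by
      intro q hq q' hq' hgg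
      rw [Finset.mem_coe, Finset.mem_filter] at hq hq'
      obtain ⟨hqS, hqt⟩ := hq
      obtain ⟨hqS', hqt'⟩ := hq'
      obtain ⟨h1, -, h3, -⟩ := hS q hqS
      obtain ⟨h1', -, h3', -⟩ := hS q' hqS'
      simp only [hf] at hqt hqt'
      simp only [hg, Prod.mk.injEq] at hgg
      rw [← hqt'] at hqt
      have e1 : oddp q.1 = oddp q'.1 := (Prod.mk.inj (Prod.mk.inj hqt).2).1
      have e2 : oddp q.2 = oddp q'.2 := (Prod.mk.inj (Prod.mk.inj hqt).2).2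
      refine Prod.ext ?_ ?_
      · rw [← split q.1 (by omega), ← split q'.1 (by omega), e1, hgg.1]
      · rw [← split q.2 (by omega), ← split q'.2 (by omega), e2, hgg.2]
    rw [← Finset.card_image_of_injOn hinj]
    refine hC1 Z t.2.1 t.2.2 (e * (t.1 : ℤ)) s ((S.filter (fun q => f q = t)).image g) hZ t3 t4 t5
      t6 ?_ ?_ hs ?_
    · have : (t.1 : ℤ) ≠ 0 := by exact_mod_cast (by omega : t.1 ≠ 0)
      refine mul_ne_zero ?_ this
      rcases he with h | h <;> rw [h] <;> norm_num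
    · rw [abs_mul]
      have h1 : |e| = 1 := by rcases he with h | h <;> rw [h] <;> norm_num
      rw [h1, one_mul, Nat.abs_cast]
      exact_mod_cast t2
    · intro w hw
      obtain ⟨q, hq, rfl⟩ := Finset.mem_image.1 hw
      rw [Finset.mem_filter] at hq
      obtain ⟨hqS, hqt⟩ := hq
      obtain ⟨h1, h2, h3, h4, h5, l, h6, h7, h8, h9, -⟩ := hS q hqS
      have hs1 := split q.1 (by omega)
      have hs2 := split q.2 (by omega)
      rw [← hqt]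
      simp only [hf, hg]
      refine ⟨sqr_pos _, (sqr_le _ (by omega)).trans h2, sqr_pos _,
        (sqr_le _ (by omega)).trans h4, ?_, ?_⟩
      · have d1 : oddp q.1 * sqr q.1 ∣ q.1 := by
          refine ⟨sqr q.1, ?_⟩
          rw [mul_assoc, ← sq]
          exact hs1.symm
        have d2 : oddp q.2 * sqr q.2 ∣ q.2 := by
          refine ⟨sqr q.2, ?_⟩
          rw [mul_assoc, ← sq]
          exact hs2.symm
        exact Nat.Coprime.coprime_dvd_left d1 (Nat.Coprime.coprime_dvd_right d2 h5)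
      · have k1 : (oddp q.1 : ℤ) * (sqr q.1 : ℤ) ^ 2 = q.1 := by exact_mod_cast hs1
        have k2 : (oddp q.2 : ℤ) * (sqr q.2 : ℤ) ^ 2 = q.2 := by exact_mod_cast hs2
        rw [k1, k2, h8, habs l h9]
  have hcard : (S.card : ℝ) ≤ T.card * B := by
    rw [Finset.card_eq_sum_card_fiberwise (f := f) (t := T) (fun q hq => hmaps q hq)]
    push_cast
    calc ∑ t ∈ T, (((S.filter (fun q => f q = t)).card : ℕ) : ℝ) ≤ ∑ t ∈ T, B :=
          Finset.sum_le_sum hfib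
      _ = T.card * B := by rw [Finset.sum_const, nsmul_eq_mul]
  have hTc := hC3 Z Q hZ hQ
  have hZσ : (Z : ℝ) ^ (σ / 2) * (Z : ℝ) ^ (σ / 2) = (Z : ℝ) ^ σ := by
    rw [← Real.rpow_add hZ0]
    congr 1
    ring
  calc (S.card : ℝ) ≤ T.card * B := hcard
    _ ≤ (C3 * (Z : ℝ) ^ (σ / 2) * Q) * B := mul_le_mul_of_nonneg_right hTc (by positivity)
    _ = C3 * C1 * ((Z : ℝ) ^ (σ / 2) * (Z : ℝ) ^ (σ / 2)) * Q := by
        rw [hB]
        ring
    _ = C3 * C1 * (Z : ℝ) ^ σ * Q := by rw [hZσ]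

end C

theorem card_evSq (σ : ℝ) (hσ : 0 < σ) : ∃ C : ℝ, 1 ≤ C ∧ ∀ (Z : ℕ) (Q : ℝ)
    (S : Finset (ℕ × ℕ)), 1 ≤ Z → 0 ≤ Q →
    (∀ q ∈ S, 1 ≤ q.1 ∧ 1 ≤ q.2 ∧ q.1 + q.2 ≤ Z ∧ Nat.Coprime q.1 q.2 ∧ EvSq Q q.1 q.2) →
    (S.card : ℝ) ≤ C * (Z : ℝ) ^ σ * Q := by
  classical
  obtain ⟨K, hK1, hK⟩ := C.role_bound σ hσ
  refine ⟨3 * K, by linarith, ?_⟩
  intro Z Q S hZ hQ hS
  set g1 : ℕ × ℕ → ℕ × ℕ := fun q => (q.1, q.2) with hg1
  set g2 : ℕ × ℕ → ℕ × ℕ := fun q => (q.1, q.1 + q.2) with hg2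
  set g3 : ℕ × ℕ → ℕ × ℕ := fun q => (q.2, q.1 + q.2) with hg3
  set S1 := S.filter (fun q => (rd (q.1 + q.2) : ℝ) * ((oddp q.1 : ℝ) * oddp q.2) ≤ Q) with hS1
  set S2 := S.filter (fun q => (rd q.2 : ℝ) * ((oddp q.1 : ℝ) * oddp (q.1 + q.2)) ≤ Q) with hS2
  set S3 := S.filter (fun q => (rd q.1 : ℝ) * ((oddp q.2 : ℝ) * oddp (q.1 + q.2)) ≤ Q) with hS3
  have hsub : S ⊆ S1 ∪ (S2 ∪ S3) := by
    intro q hq
    obtain ⟨-, -, -, -, s, m, n, l, hr, hle⟩ := hS q hq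
    rw [Finset.mem_union, Finset.mem_union, hS1, hS2, hS3, Finset.mem_filter, Finset.mem_filter,
      Finset.mem_filter]
    rcases hr with ⟨-, ⟨rfl, rfl⟩ | ⟨rfl, rfl⟩, rfl⟩ | ⟨-, ⟨rfl, rfl⟩ | ⟨rfl, rfl⟩, rfl⟩ |
      ⟨-, ⟨rfl, rfl⟩ | ⟨rfl, rfl⟩, rfl⟩
    · exact Or.inl ⟨hq, hle⟩
    · refine Or.inl ⟨hq, ?_⟩
      rw [mul_comm (oddp q.1 : ℝ)]
      exact hle
    · exact Or.inr (Or.inl ⟨hq, hle⟩)
    · refine Or.inr (Or.inl ⟨hq, ?_⟩)
      rw [mul_comm (oddp q.1 : ℝ)]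
      exact hle
    · exact Or.inr (Or.inr ⟨hq, hle⟩)
    · refine Or.inr (Or.inr ⟨hq, ?_⟩)
      rw [mul_comm (oddp q.2 : ℝ)]
      exact hle
  have b1 : (S1.card : ℝ) ≤ K * (Z : ℝ) ^ σ * Q := by
    refine hK Z Q (-1) 1 S1 hZ hQ (Or.inr rfl) ?_
    intro q hq
    rw [hS1, Finset.mem_filter] at hq
    obtain ⟨hq1, hq2⟩ := hq
    obtain ⟨h1, h2, h3, h4, -⟩ := hS q hq1
    refine ⟨h1, by omega, h2, by omega, h4, q.1 + q.2, by omega, h3, ?_, Or.inl rfl, hq2⟩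
    push_cast
    ring
  have b2 : (S2.card : ℝ) ≤ K * (Z : ℝ) ^ σ * Q := by
    have hinj : Function.Injective g2 := by
      intro q q' h
      simp only [hg2, Prod.mk.injEq] at h
      exact Prod.ext h.1 (by omega)
    rw [← Finset.card_image_of_injective S2 hinj]
    refine hK Z Q 1 (-1) (S2.image g2) hZ hQ (Or.inl rfl) ?_
    intro w hw
    obtain ⟨q, hq, rfl⟩ := Finset.mem_image.1 hw
    rw [hS2, Finset.mem_filter] at hq
    obtain ⟨hq1, hq2⟩ := hq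
    obtain ⟨h1, h2, h3, h4, -⟩ := hS q hq1
    simp only [hg2]
    refine ⟨h1, by omega, by omega, h3, ?_, q.2, h2, by omega, ?_, by norm_num, hq2⟩
    · rw [Nat.coprime_self_add_right]
      exact h4
    · push_cast
      ring
  have b3 : (S3.card : ℝ) ≤ K * (Z : ℝ) ^ σ * Q := by
    have hinj : Function.Injective g3 := by
      intro q q' h
      simp only [hg3, Prod.mk.injEq] at h
      exact Prod.ext (by omega) h.1
    rw [← Finset.card_image_of_injective S3 hinj]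
    refine hK Z Q 1 (-1) (S3.image g3) hZ hQ (Or.inl rfl) ?_
    intro w hw
    obtain ⟨q, hq, rfl⟩ := Finset.mem_image.1 hw
    rw [hS3, Finset.mem_filter] at hq
    obtain ⟨hq1, hq2⟩ := hq
    obtain ⟨h1, h2, h3, h4, -⟩ := hS q hq1
    simp only [hg3]
    refine ⟨h2, by omega, by omega, h3, ?_, q.1, h1, by omega, ?_, by norm_num, hq2⟩
    · rw [Nat.coprime_add_self_right]
      exact h4.symm
    · push_cast
      ring
  have hc : (S.card : ℝ) ≤ S1.card + (S2.card + S3.card) := by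
    have h1 := (Finset.card_le_card hsub).trans ((Finset.card_union_le _ _).trans
      (Nat.add_le_add_left (Finset.card_union_le _ _) _))
    exact_mod_cast h1
  linarith

end Pool.Agent.Lib.MP_d8bd92_nt.Fh
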