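import Pool.Agent.Lib.MP_d8bd92_nt.Fh.Defs
import Pool.Agent.Lib.MP_d8bd92_nt.TfM
import Pool.Agent.Lib.MP_d8bd92_nt.LgS
import Pool.Agent.Lib.MP_d8bd92_nt.CdI1

set_option autoImplicit false

/-! Row D: the number of pairs in the event `EvLat`. -/

namespace Pool.Agent.Lib.MP_d8bd92_nt.Fh

open Finset Pool.Agent.Lib.Szpiro

namespace D

/-- the value of the logarithm -/
theorem log_bounds (n e : ℕ) (hn : 1 ≤ n) (h : Nat.log 2 n = e) : 2 ^ e ≤ n ∧ n < 2 * 2 ^ e := by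
  refine ⟨?_, ?_⟩
  · rw [← h]
    exact Nat.pow_log_le_self 2 (by omega)
  · rw [← h, ← pow_succ']
    exact Nat.lt_pow_succ_log_self (by norm_num) _

/-- one fibre -/
theorem fibre (D₁ D₂ D₃ α β : ℕ) (Q : ℝ) (S : Finset (ℕ × ℕ)) (hQ : 0 ≤ Q) (h₁ : 1 ≤ D₁)
    (h₂ : 1 ≤ D₂) (h₃ : 1 ≤ D₃)
    (hS : ∀ q ∈ S, 1 ≤ q.1 ∧ 1 ≤ q.2 ∧ Nat.Coprime q.1 q.2 ∧ D₁ ∣ q.1 ∧ D₂ ∣ q.2 ∧
      D₃ ∣ q.1 + q.2 ∧ (rd D₁ : ℝ) * rd D₂ * rd D₃ ≤ Q ∧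
      (rd D₁ : ℝ) * rd D₂ * rd D₃ * ((q.1 : ℝ) * q.2) ≤ Q * ((D₁ : ℝ) * D₂ * D₃) ∧
      Nat.log 2 (q.1 / D₁) = α ∧ Nat.log 2 (q.2 / D₂) = β) :
    (S.card : ℝ) ≤ 9 * (Q * (((rd D₁ : ℝ))⁻¹ * (((rd D₂ : ℝ))⁻¹ * ((rd D₃ : ℝ))⁻¹))) := by
  classical
  rcases S.eq_empty_or_nonempty with rfl | ⟨q0, hq0⟩
  · simp only [Finset.card_empty, Nat.cast_zero]
    positivity
  have r1 : (0 : ℝ) < rd D₁ := by exact_mod_cast rd_pos D₁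
  have r2 : (0 : ℝ) < rd D₂ := by exact_mod_cast rd_pos D₂
  have r3 : (0 : ℝ) < rd D₃ := by exact_mod_cast rd_pos D₃
  have d1 : (0 : ℝ) < D₁ := by exact_mod_cast h₁
  have d2 : (0 : ℝ) < D₂ := by exact_mod_cast h₂
  have d3 : (0 : ℝ) < D₃ := by exact_mod_cast h₃
  obtain ⟨g, hg⟩ : ∃ g : ℕ × ℕ → ℕ × ℕ × ℕ,
      g = fun q => (q.1 / D₁, q.2 / D₂, (q.1 + q.2) / D₃) := ⟨_, rfl⟩
  have hinj : Set.InjOn g (S : Set (ℕ × ℕ)) := by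
    intro q hq q' hq' hgg
    obtain ⟨-, -, -, e1, e2, -⟩ := hS q (Finset.mem_coe.1 hq)
    obtain ⟨-, -, -, e1', e2', -⟩ := hS q' (Finset.mem_coe.1 hq')
    simp only [hg, Prod.mk.injEq] at hgg
    refine Prod.ext ?_ ?_
    · rw [← Nat.mul_div_cancel' e1, ← Nat.mul_div_cancel' e1', hgg.1]
    · rw [← Nat.mul_div_cancel' e2, ← Nat.mul_div_cancel' e2', hgg.2.1]
  have hcopz : ∀ q ∈ S, Nat.Coprime D₁ D₃ := by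
    intro q hq
    obtain ⟨-, -, e0, e1, -, e3, -⟩ := hS q hq
    refine Nat.Coprime.coprime_dvd_left e1 (Nat.Coprime.coprime_dvd_right e3 ?_)
    rw [Nat.coprime_self_add_right]
    exact e0
  have hpos : ∀ q ∈ S, 1 ≤ q.1 / D₁ ∧ 1 ≤ q.2 / D₂ := by
    intro q hq
    obtain ⟨k1, k2, -, e1, e2, -⟩ := hS q hq
    exact ⟨Nat.div_pos (Nat.le_of_dvd (by omega) e1) (by omega),
      Nat.div_pos (Nat.le_of_dvd (by omega) e2) (by omega)⟩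
  have h := lg_lattice D₁ D₂ D₃ (2 ^ α) (2 ^ β) h₁ h₂ h₃ Nat.one_le_two_pow
      Nat.one_le_two_pow (hcopz q0 hq0) (S.image g) (by
    intro v hv
    obtain ⟨q, hq, rfl⟩ := Finset.mem_image.1 hv
    obtain ⟨k1, k2, e0, e1, e2, e3, -, -, l1, l2⟩ := hS q hq
    obtain ⟨p1, p2⟩ := hpos q hq
    simp only [hg]
    refine ⟨(log_bounds _ _ p1 l1).1, (log_bounds _ _ p1 l1).2, (log_bounds _ _ p2 l2).1,
        (log_bounds _ _ p2 l2).2, ?_, ?_⟩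
    · exact Nat.Coprime.coprime_dvd_left (Nat.div_dvd_of_dvd e1)
        (Nat.Coprime.coprime_dvd_right (Nat.div_dvd_of_dvd e2) e0)
    · rw [Nat.mul_div_cancel' e1, Nat.mul_div_cancel' e2, Nat.mul_div_cancel' e3])
  rw [Finset.card_image_of_injOn hinj] at h
  refine h.trans ?_
  obtain ⟨k1, k2, e0, e1, e2, e3, u1, u2, l1, l2⟩ := hS q0 hq0
  obtain ⟨p1, p2⟩ := hpos q0 hq0
  have x1 : ((2 ^ α : ℕ) : ℝ) ≤ ((q0.1 / D₁ : ℕ) : ℝ) := by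
    exact_mod_cast (log_bounds _ _ p1 l1).1
  have x2 : ((2 ^ β : ℕ) : ℝ) ≤ ((q0.2 / D₂ : ℕ) : ℝ) := by
    exact_mod_cast (log_bounds _ _ p2 l2).1
  have y1 : (q0.1 : ℝ) = D₁ * ((q0.1 / D₁ : ℕ) : ℝ) := by
    exact_mod_cast (Nat.mul_div_cancel' e1).symm
  have y2 : (q0.2 : ℝ) = D₂ * ((q0.2 / D₂ : ℕ) : ℝ) := by
    exact_mod_cast (Nat.mul_div_cancel' e2).symm
  obtain ⟨x, hx⟩ : ∃ x : ℝ, x = ((q0.1 / D₁ : ℕ) : ℝ) := ⟨_, rfl⟩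
  obtain ⟨y, hy⟩ : ∃ y : ℝ, y = ((q0.2 / D₂ : ℕ) : ℝ) := ⟨_, rfl⟩
  obtain ⟨ρ, hρ⟩ : ∃ ρ : ℝ, ρ = (rd D₁ : ℝ) * rd D₂ * rd D₃ := ⟨_, rfl⟩
  obtain ⟨P, hP⟩ : ∃ P : ℝ, P = ((2 ^ α : ℕ) : ℝ) * ((2 ^ β : ℕ) : ℝ) := ⟨_, rfl⟩
  have hρ0 : 0 < ρ := by rw [hρ]; positivity
  rw [← hx] at x1 y1
  rw [← hy] at x2 y2
  have hPxy : P ≤ x * y := by
    rw [hP]
    exact mul_le_mul x1 x2 (Nat.cast_nonneg _) (le_trans (Nat.cast_nonneg _) x1)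
  have hmain : ρ * P ≤ Q * D₃ := by
    rw [← hρ, y1, y2] at u2
    have h3 : (D₁ * D₂ : ℝ) * (ρ * (x * y)) ≤ (D₁ * D₂ : ℝ) * (Q * D₃) := by
      calc (D₁ * D₂ : ℝ) * (ρ * (x * y)) = ρ * (D₁ * x * (D₂ * y)) := by ring
        _ ≤ Q * ((D₁ : ℝ) * D₂ * D₃) := u2
        _ = (D₁ * D₂ : ℝ) * (Q * D₃) := by ring
    have h4 := le_of_mul_le_mul_left h3 (by positivity)
    exact (mul_le_mul_of_nonneg_left hPxy hρ0.le).trans h4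
  have hfin : 1 + 8 * ((2 ^ α : ℕ) : ℝ) * ((2 ^ β : ℕ) : ℝ) / D₃ ≤ 9 * (Q / ρ) := by
    have h5 : (1 : ℝ) ≤ Q / ρ := by
      rw [le_div_iff₀ hρ0, one_mul, hρ]
      exact u1
    have h6 : P / D₃ ≤ Q / ρ := by
      rw [div_le_div_iff₀ d3 hρ0]
      linarith
    have h7 : 8 * ((2 ^ α : ℕ) : ℝ) * ((2 ^ β : ℕ) : ℝ) / D₃ = 8 * (P / D₃) := by
      rw [hP]
      ring
    rw [h7]
    linarith
  refine hfin.trans (le_of_eq ?_)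
  rw [hρ]
  field_simp

end D

theorem card_evLat (σ : ℝ) (hσ : 0 < σ) : ∃ C : ℝ, 1 ≤ C ∧ ∀ (Z : ℕ) (Q : ℝ)
    (S : Finset (ℕ × ℕ)), 1 ≤ Z → 0 ≤ Q →
    (∀ q ∈ S, 1 ≤ q.1 ∧ 1 ≤ q.2 ∧ q.1 + q.2 ≤ Z ∧ Nat.Coprime q.1 q.2 ∧ EvLat Q q.1 q.2) →
    (S.card : ℝ) ≤ C * (Z : ℝ) ^ σ * Q := by
  classical
  obtain ⟨C₁, hC₁, h₁⟩ := sum_inv_rd (σ / 5) (by positivity)
  obtain ⟨C₂, hC₂, h₂⟩ := I1_log (σ / 5) (by positivity)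
  refine ⟨9 * (C₂ ^ 2 * C₁ ^ 3), ?_, ?_⟩
  · have := one_le_mul_of_one_le_of_one_le (one_le_pow₀ hC₂ (n := 2)) (one_le_pow₀ hC₁ (n := 3))
    linarith
  intro Z Q S hZ hQ hS
  have hZ0 : (0 : ℝ) < Z := by exact_mod_cast hZ
  have hch : ∀ q ∈ S, ∃ D₁ D₂ D₃ : ℕ, D₁ ∣ q.1 ∧ D₂ ∣ q.2 ∧ D₃ ∣ q.1 + q.2 ∧
      (rd D₁ : ℝ) * rd D₂ * rd D₃ ≤ Q ∧
      (rd D₁ : ℝ) * rd D₂ * rd D₃ * ((q.1 : ℝ) * q.2) ≤ Q * ((D₁ : ℝ) * D₂ * D₃) :=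
    fun q hq => (hS q hq).2.2.2.2
  choose! A B E hA hB hE hR hT' using hch
  obtain ⟨L, hL⟩ : ∃ L : ℕ, L = Nat.log 2 Z := ⟨_, rfl⟩
  obtain ⟨f, hf⟩ : ∃ f : ℕ × ℕ → (ℕ × ℕ × ℕ) × (ℕ × ℕ),
      f = fun q => ((A q, B q, E q), (Nat.log 2 (q.1 / A q), Nat.log 2 (q.2 / B q))) := ⟨_, rfl⟩
  obtain ⟨T₃, hT₃⟩ : ∃ T : Finset (ℕ × ℕ × ℕ), T = Icc 1 Z ×ˢ Icc 1 Z ×ˢ Icc 1 Z := ⟨_, rfl⟩
  obtain ⟨T₂, hT₂⟩ : ∃ T : Finset (ℕ × ℕ), T = Finset.range (L + 1) ×ˢ Finset.range (L + 1) :=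
    ⟨_, rfl⟩
  have hmaps : ∀ q ∈ S, f q ∈ T₃ ×ˢ T₂ := by
    intro q hq
    obtain ⟨k1, k2, k3, -⟩ := hS q hq
    have e1 := Nat.le_of_dvd (by omega) (hA q hq)
    have e2 := Nat.le_of_dvd (by omega) (hB q hq)
    have e3 := Nat.le_of_dvd (by omega) (hE q hq)
    have f1 := Nat.pos_of_dvd_of_pos (hA q hq) (by omega)
    have f2 := Nat.pos_of_dvd_of_pos (hB q hq) (by omega)
    have f3 := Nat.pos_of_dvd_of_pos (hE q hq) (by omega)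
    have g1 : Nat.log 2 (q.1 / A q) ≤ L := by
      rw [hL]
      exact Nat.log_mono_right ((Nat.div_le_self _ _).trans (by omega))
    have g2 : Nat.log 2 (q.2 / B q) ≤ L := by
      rw [hL]
      exact Nat.log_mono_right ((Nat.div_le_self _ _).trans (by omega))
    rw [hT₃, hT₂, hf]
    simp only [Finset.mem_product, Finset.mem_Icc, Finset.mem_range]
    omega
  have hfib : ∀ t ∈ T₃ ×ˢ T₂, (((S.filter (fun q => f q = t)).card : ℕ) : ℝ) ≤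
      9 * (Q * (((rd t.1.1 : ℝ))⁻¹ * (((rd t.1.2.1 : ℝ))⁻¹ * ((rd t.1.2.2 : ℝ))⁻¹))) := by
    intro t ht
    rw [hT₃, hT₂] at ht
    simp only [Finset.mem_product, Finset.mem_Icc, Finset.mem_range] at ht
    refine D.fibre t.1.1 t.1.2.1 t.1.2.2 t.2.1 t.2.2 Q _ hQ (by omega) (by omega) (by omega) ?_
    intro q hq
    rw [Finset.mem_filter] at hq
    obtain ⟨hqS, hqt⟩ := hq
    obtain ⟨k1, k2, k3, k4, -⟩ := hS q hqS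
    rw [hf] at hqt
    rw [← hqt]
    exact ⟨k1, k2, k4, hA q hqS, hB q hqS, hE q hqS, hR q hqS, hT' q hqS, rfl, rfl⟩
  have hcard : (S.card : ℝ) ≤ ∑ t ∈ T₃ ×ˢ T₂,
      9 * (Q * (((rd t.1.1 : ℝ))⁻¹ * (((rd t.1.2.1 : ℝ))⁻¹ * ((rd t.1.2.2 : ℝ))⁻¹))) := by
    rw [Finset.card_eq_sum_card_fiberwise (f := f) (t := T₃ ×ˢ T₂) (fun q hq => hmaps q hq)]
    push_cast
    exact Finset.sum_le_sum hfib
  obtain ⟨s, hs⟩ : ∃ s : ℝ, s = ∑ n ∈ Icc 1 Z, ((rd n : ℝ))⁻¹ := ⟨_, rfl⟩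
  have hs0 : 0 ≤ s := by
    rw [hs]
    exact Finset.sum_nonneg fun n _ => by positivity
  have hs1 : s ≤ C₁ * (Z : ℝ) ^ (σ / 5) := by
    rw [hs]
    exact h₁ Z hZ
  have hsum3 : ∑ q ∈ T₃, 9 * (Q * (((rd q.1 : ℝ))⁻¹ * (((rd q.2.1 : ℝ))⁻¹ * ((rd q.2.2 : ℝ))⁻¹))) =
      9 * (Q * (s * (s * s))) := by
    rw [hT₃, hs]
    simp only [Finset.sum_product, ← Finset.mul_sum, ← Finset.sum_mul]
  have hT2c : ((T₂.card : ℕ) : ℝ) = ((L : ℝ) + 1) ^ 2 := by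
    rw [hT₂, Finset.card_product, Finset.card_range]
    push_cast
    ring
  have hsum : ∑ t ∈ T₃ ×ˢ T₂,
      9 * (Q * (((rd t.1.1 : ℝ))⁻¹ * (((rd t.1.2.1 : ℝ))⁻¹ * ((rd t.1.2.2 : ℝ))⁻¹))) =
      ((L : ℝ) + 1) ^ 2 * (9 * (Q * (s * (s * s)))) := by
    rw [Finset.sum_product]
    simp only [Finset.sum_const, nsmul_eq_mul]
    rw [← Finset.mul_sum, hsum3, hT2c]
  have hL1 : (L : ℝ) + 1 ≤ C₂ * (Z : ℝ) ^ (σ / 5) := by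
    rw [hL]
    exact h₂ Z hZ
  have hL0 : (0 : ℝ) ≤ (L : ℝ) + 1 := by positivity
  have hW0 : (0 : ℝ) ≤ (Z : ℝ) ^ (σ / 5) := by positivity
  have hZσ : ((Z : ℝ) ^ (σ / 5)) ^ 5 = (Z : ℝ) ^ σ := by
    rw [← Real.rpow_natCast, ← Real.rpow_mul hZ0.le]
    congr 1
    push_cast
    ring
  have hC₁0 : 0 ≤ C₁ := by linarith
  have hC₂0 : 0 ≤ C₂ := by linarith
  calc (S.card : ℝ) ≤ ((L : ℝ) + 1) ^ 2 * (9 * (Q * (s * (s * s)))) := hcard.trans hsum.le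
    _ = 9 * Q * (((L : ℝ) + 1) ^ 2 * s ^ 3) := by ring
    _ ≤ 9 * Q * ((C₂ * (Z : ℝ) ^ (σ / 5)) ^ 2 * (C₁ * (Z : ℝ) ^ (σ / 5)) ^ 3) := by
        refine mul_le_mul_of_nonneg_left ?_ (by positivity)
        exact mul_le_mul (pow_le_pow_left₀ hL0 hL1 2) (pow_le_pow_left₀ hs0 hs1 3)
          (by positivity) (by positivity)
    _ = 9 * (C₂ ^ 2 * C₁ ^ 3) * ((Z : ℝ) ^ (σ / 5)) ^ 5 * Q := by ring
    _ = 9 * (C₂ ^ 2 * C₁ ^ 3) * (Z : ℝ) ^ σ * Q := by rw [hZσ]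

end Pool.Agent.Lib.MP_d8bd92_nt.Fh
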