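import Pool.Agent.Lib.MP_d8bd92_nt.LgDefs

set_option autoImplicit false

/-!
Definitions for the law of the Szpiro ratio up to 5/2.
-/

namespace Pool.Agent.Lib.MP_d8bd92_nt.Fh

open Finset Pool.Agent.Lib.Szpiro

/-- the product of the primes of odd exponent in `n` -/
def oddp (n : ℕ) : ℕ := ∏ p ∈ n.primeFactors.filter (fun p => Odd (n.factorization p)), p

/-- event: the radical of one number and the odd parts of the two others have a small product -/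
def EvSq (Q : ℝ) (a b : ℕ) : Prop :=
  ∃ (s : ℤ) (m n l : ℕ), Role a b s m n l ∧ (rd l : ℝ) * ((oddp m : ℝ) * oddp n) ≤ Q

/-- event: divisors with small radicals that are large in comparison with the box -/
def EvLat (Q : ℝ) (a b : ℕ) : Prop :=
  ∃ D₁ D₂ D₃ : ℕ, D₁ ∣ a ∧ D₂ ∣ b ∧ D₃ ∣ a + b ∧ (rd D₁ : ℝ) * rd D₂ * rd D₃ ≤ Q ∧
    (rd D₁ : ℝ) * rd D₂ * rd D₃ * ((a : ℝ) * b) ≤ Q * ((D₁ : ℝ) * D₂ * D₃)

/-- event: two long variables (points on a curve `u y^j - s v z^k = l`) -/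
def EvCur (K : ℕ) (Q : ℝ) (a b : ℕ) : Prop :=
  ∃ (s : ℤ) (m n l j k : ℕ), Role a b s m n l ∧ 1 ≤ j ∧ j < K ∧ 1 ≤ k ∧ k < K ∧
    (rd m : ℝ) * rd n * rd l * (xpart m j : ℝ) ^ (1 / (k : ℝ)) ≤
      Q * ((xpart m j : ℝ) * xpart n k)

/-- all events -/
def Ev (K : ℕ) (Q : ℝ) (a b : ℕ) : Prop :=
  EvOne Q a b ∨ EvModW Q 1 (a + b) a ∨ EvModW Q 1 (a + b) b ∨ EvModW Q (-1) a b ∨
    EvSq Q a b ∨ EvLat Q a b ∨ EvCur K Q a b

/-- the failure of the character bound for a divisor of radical `ρ` and size `D` (logarithms), `P` is the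
logarithm of the product of the two other radicals -/
def XF (θ P ρ D : ℝ) : Prop :=
  θ < ρ + P - D ∨ θ < ρ + P - (1 / 14 * P + 5 / 7 * D) ∨ θ < ρ + P - (13 / 54 * P + 1 / 3 * D) ∨
    θ < ρ + P - (9 / 22 * P + 1 / 11 * D) ∨ θ < ρ + P - 1 / 2 * P

end Pool.Agent.Lib.MP_d8bd92_nt.Fh
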