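import Pool.Agent.Lib.MP_d8bd92_nt.Fh.Defs
import Pool.Agent.Lib.MP_d8bd92_nt.LgM
import Pool.Agent.Lib.MP_d8bd92_nt.CdI1

set_option autoImplicit false

/-! Row E: the number of pairs in the event `EvCur`. -/

namespace Pool.Agent.Lib.MP_d8bd92_nt.Fh

open Finset Pool.Agent.Lib.Szpiro

namespace E

/-- the condition on the triple `(m, n, l)` -/
def Cd (Q : ℝ) (j k : ℕ) (t : ℕ × ℕ × ℕ) : Prop :=
  (rd t.1 : ℝ) * rd t.2.1 * rd t.2.2 * (xpart t.1 j : ℝ) ^ (1 / (k : ℝ)) ≤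
      Q * ((xpart t.1 j : ℝ) * xpart t.2.1 k)

/-- one dyadic class of the variable `x` -/
theorem class_bound (j k : ℕ) (hj : 1 ≤ j) (hk : 1 ≤ k) (τ : ℝ) (hτ : 0 < τ) : ∃ C : ℝ, 1 ≤ C ∧
    ∀ (Z : ℕ) (Q : ℝ) (e₁ e₂ : ℤ) (α : ℕ) (S : Finset (ℕ × ℕ × ℕ)), 1 ≤ Z → 0 ≤ Q →
    (e₁ = 1 ∨ e₁ = -1) → (e₂ = 1 ∨ e₂ = -1) →
    (∀ q ∈ S, 1 ≤ q.1 ∧ q.1 ≤ Z ∧ 1 ≤ q.2.1 ∧ q.2.1 ≤ Z ∧ 1 ≤ q.2.2 ∧ q.2.2 ≤ Z ∧
      (q.1 : ℤ) + e₁ * q.2.2 = e₂ * q.2.1 ∧ Cd Q j k q ∧ Nat.log 2 (xpart q.1 j) = α) →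
    (S.card : ℝ) ≤ C * (Z : ℝ) ^ (2 * τ) * Q := by
  classical
  obtain ⟨C1, hC11, hC1⟩ := tf_curve j k hj hk τ hτ
  obtain ⟨C3, hC31, hC3⟩ := TfM.card_triple τ hτ
  have h2τ : (1 : ℝ) ≤ (2 : ℝ) ^ τ := Real.one_le_rpow (by norm_num) hτ.le
  refine ⟨2 * ((2 : ℝ) ^ τ * C1 * C3), ?_, ?_⟩
  · have h1 := one_le_mul_of_one_le_of_one_le (one_le_mul_of_one_le_of_one_le h2τ hC11) hC31
    linarith
  intro Z Q e₁ e₂ α S hZ hQ he₁ he₂ hS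
  have hZ0 : (0 : ℝ) < Z := by exact_mod_cast hZ
  have hC10 : 0 ≤ C1 := zero_le_one.trans hC11
  have hC30 : 0 ≤ C3 := zero_le_one.trans hC31
  rcases S.eq_empty_or_nonempty with rfl | ⟨q0, hq0⟩
  · simp only [Finset.card_empty, Nat.cast_zero]
    positivity
  have hlog : ∀ q ∈ S, 2 ^ α ≤ xpart q.1 j ∧ xpart q.1 j ≤ 2 ^ (α + 1) := by
    intro q hq
    have he := (hS q hq).2.2.2.2.2.2.2.2
    have hp := xpart_pos q.1 j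
    refine ⟨?_, ?_⟩
    · rw [← he]
      exact Nat.pow_log_le_self 2 hp.ne'
    · rw [← he]
      exact (Nat.lt_pow_succ_log_self (by norm_num) _).le
  have hxle : ∀ n m : ℕ, 1 ≤ n → 1 ≤ m → xpart n m ≤ n := by
    intro n m hn hm
    refine le_trans ?_ (Nat.le_of_dvd hn (xpart_pow_dvd n m))
    exact Nat.le_self_pow (by omega) _
  set P : ℝ := ((2 : ℝ) ^ α) ^ (1 / (k : ℝ)) with hP
  have hP0 : 0 < P := by positivity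
  -- the triple
  set f : ℕ × ℕ × ℕ → ℕ × ℕ × ℕ := fun q =>
    (q.1 / xpart q.1 j ^ j, q.2.1 / xpart q.2.1 k ^ k, q.2.2) with hf
  set T := (Icc 1 Z ×ˢ Icc 1 Z ×ˢ Icc 1 Z).filter
      (fun q : ℕ × ℕ × ℕ => (rd q.1 : ℝ) * rd q.2.1 * rd q.2.2 ≤ Q / P) with hT
  have hmaps : ∀ q ∈ S, f q ∈ T := by
    intro q hq
    obtain ⟨h1, h2, h3, h4, h5, h6, -, h8, -⟩ := hS q hq
    obtain ⟨u1, u2, u3⟩ := TfM.quot q.1 j (by omega) hj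
    obtain ⟨v1, v2, v3⟩ := TfM.quot q.2.1 k (by omega) hk
    have ul : q.1 / xpart q.1 j ^ j ≤ q.1 := Nat.div_le_self _ _
    have vl : q.2.1 / xpart q.2.1 k ^ k ≤ q.2.1 := Nat.div_le_self _ _
    rw [hT, Finset.mem_filter, Finset.mem_product, Finset.mem_product, Finset.mem_Icc,
      Finset.mem_Icc, Finset.mem_Icc]
    simp only [hf]
    refine ⟨⟨⟨Nat.one_le_iff_ne_zero.2 u1, ul.trans h2⟩,
      ⟨Nat.one_le_iff_ne_zero.2 v1, vl.trans h4⟩, ⟨h5, h6⟩⟩, ?_⟩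
    rw [le_div_iff₀ hP0]
    have hx0 : (0 : ℝ) < xpart q.1 j := by exact_mod_cast xpart_pos q.1 j
    have hy0 : (0 : ℝ) < xpart q.2.1 k := by exact_mod_cast xpart_pos q.2.1 k
    have hPx : P ≤ (xpart q.1 j : ℝ) ^ (1 / (k : ℝ)) := by
      rw [hP]
      apply Real.rpow_le_rpow (by positivity) _ (by positivity)
      exact_mod_cast (hlog q hq).1
    have h9 : (rd (q.1 / xpart q.1 j ^ j) : ℝ) * rd (q.2.1 / xpart q.2.1 k ^ k) * rd q.2.2 *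
        (xpart q.1 j : ℝ) ^ (1 / (k : ℝ)) * ((xpart q.1 j : ℝ) * xpart q.2.1 k) ≤
        Q * ((xpart q.1 j : ℝ) * xpart q.2.1 k) := by
      unfold Cd at h8
      rw [u3, v3, Nat.cast_mul, Nat.cast_mul] at h8
      refine le_trans (le_of_eq ?_) h8
      ring
    have h10 := le_of_mul_le_mul_right h9 (mul_pos hx0 hy0)
    exact (mul_le_mul_of_nonneg_left hPx (by positivity)).trans h10
  -- size from the element q0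
  have hαZ : 2 ^ α ≤ Z := by
    obtain ⟨g1, g2, -⟩ := hS q0 hq0
    exact ((hlog q0 hq0).1.trans (hxle q0.1 j g1 hj)).trans g2
  -- the fibres
  set B : ℝ := C1 * ((2 * Z : ℕ) : ℝ) ^ τ * ((2 ^ (α + 1) : ℕ) : ℝ) ^ (1 / (k : ℝ)) with hB
  have hfib : ∀ t ∈ T, (((S.filter (fun q => f q = t)).card : ℕ) : ℝ) ≤ B := by
    intro t ht
    rw [hT, Finset.mem_filter, Finset.mem_product, Finset.mem_product, Finset.mem_Icc,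
      Finset.mem_Icc, Finset.mem_Icc] at ht
    obtain ⟨⟨⟨t1, t2⟩, ⟨t3, t4⟩, ⟨t5, t6⟩⟩, -⟩ := ht
    set g : ℕ × ℕ × ℕ → ℕ × ℕ := fun q => (xpart q.1 j, xpart q.2.1 k) with hg
    have hfe : ∀ q ∈ S, f q = t → q.1 = t.1 * xpart q.1 j ^ j ∧ q.2.1 = t.2.1 * xpart q.2.1 k ^ k ∧
        q.2.2 = t.2.2 := by
      intro q hq hqt
      obtain ⟨h1, h2, h3, -⟩ := hS q hq
      have k1 := (TfM.quot q.1 j (by omega) hj).2.1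
      have k2 := (TfM.quot q.2.1 k (by omega) hk).2.1
      simp only [hf] at hqt
      rw [← hqt]
      exact ⟨k1.symm, k2.symm, rfl⟩
    have hinj : Set.InjOn g (S.filter (fun q => f q = t) : Finset (ℕ × ℕ × ℕ)) := by
      intro q hq q' hq' hgg
      rw [Finset.mem_coe, Finset.mem_filter] at hq hq'
      obtain ⟨a1, a2, a3⟩ := hfe q hq.1 hq.2
      obtain ⟨b1, b2, b3⟩ := hfe q' hq'.1 hq'.2
      simp only [hg, Prod.mk.injEq] at hgg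
      have e1 : q.1 = q'.1 := by rw [a1, b1, hgg.1]
      have e2 : q.2.1 = q'.2.1 := by rw [a2, b2, hgg.2]
      have e3 : q.2.2 = q'.2.2 := by rw [a3, b3]
      exact Prod.ext e1 (Prod.ext e2 e3)
    rw [← Finset.card_image_of_injOn hinj]
    have hpm : ∀ e : ℤ, (e = 1 ∨ e = -1) → ∀ c : ℕ, 1 ≤ c → c ≤ Z →
        e * (c : ℤ) ≠ 0 ∧ |e * (c : ℤ)| ≤ ((2 * Z : ℕ) : ℤ) := by
      intro e he c hc hcZ
      have hc0 : (0 : ℤ) < c := by exact_mod_cast hc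
      refine ⟨mul_ne_zero ?_ hc0.ne', ?_⟩
      · rcases he with h | h <;> rw [h] <;> norm_num
      · rw [abs_mul, abs_of_pos hc0]
        have : |e| = 1 := by rcases he with h | h <;> rw [h] <;> norm_num
        rw [this, one_mul]
        push_cast
        omega
    refine hC1 (2 * Z) t.1 (e₂ * t.2.1) (e₁ * t.2.2) (2 ^ (α + 1)) Z _ (by omega) (by omega)
      (hpm e₂ he₂ _ t3 t4).1 (hpm e₁ he₁ _ t5 t6).1
      (by rw [abs_of_nonneg (by positivity)]; push_cast; omega)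
      (hpm e₂ he₂ _ t3 t4).2 (hpm e₁ he₁ _ t5 t6).2 (Nat.one_le_two_pow)
      (by rw [pow_succ]; omega) hZ (by omega) ?_
    intro w hw
    obtain ⟨q, hq, rfl⟩ := Finset.mem_image.1 hw
    rw [Finset.mem_filter] at hq
    obtain ⟨hqS, hqt⟩ := hq
    obtain ⟨h1, h2, h3, h4, h5, h6, h7, -⟩ := hS q hqS
    obtain ⟨a1, a2, a3⟩ := hfe q hqS hqt
    refine ⟨xpart_pos _ _, (hlog q hqS).2, xpart_pos _ _, (hxle _ _ h3 hk).trans h4, ?_⟩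
    simp only [hg]
    have a1' : (q.1 : ℤ) = (t.1 : ℤ) * (xpart q.1 j : ℤ) ^ j := by exact_mod_cast a1
    have a2' : (q.2.1 : ℤ) = (t.2.1 : ℤ) * (xpart q.2.1 k : ℤ) ^ k := by exact_mod_cast a2
    rw [a3] at h7
    rw [← a1', h7, mul_assoc, ← a2']
  have hcard : (S.card : ℝ) ≤ T.card * B := by
    rw [Finset.card_eq_sum_card_fiberwise (f := f) (t := T) (fun q hq => hmaps q hq)]
    push_cast
    calc ∑ t ∈ T, (((S.filter (fun q => f q = t)).card : ℕ) : ℝ) ≤ ∑ t ∈ T, B :=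
          Finset.sum_le_sum hfib
      _ = T.card * B := by rw [Finset.sum_const, nsmul_eq_mul]
  have hTc := hC3 Z (Q / P) hZ (by positivity)
  have hB0 : 0 ≤ B := by positivity
  have hBle : B ≤ 2 * ((2 : ℝ) ^ τ * C1) * (Z : ℝ) ^ τ * P := by
    have h1 : ((2 * Z : ℕ) : ℝ) ^ τ = (2 : ℝ) ^ τ * (Z : ℝ) ^ τ := by
      push_cast
      exact Real.mul_rpow (by norm_num) hZ0.le
    have h2 : ((2 ^ (α + 1) : ℕ) : ℝ) ^ (1 / (k : ℝ)) = (2 : ℝ) ^ (1 / (k : ℝ)) * P := by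
      rw [hP, ← Real.mul_rpow (by norm_num) (by positivity)]
      congr 1
      push_cast
      ring
    have h3 : (2 : ℝ) ^ (1 / (k : ℝ)) ≤ 2 := by
      have hk1 : (1 : ℝ) ≤ k := by exact_mod_cast hk
      have h4 : 1 / (k : ℝ) ≤ 1 := by
        rw [div_le_one (by linarith)]
        exact hk1
      calc (2 : ℝ) ^ (1 / (k : ℝ)) ≤ (2 : ℝ) ^ (1 : ℝ) :=
            Real.rpow_le_rpow_of_exponent_le (by norm_num) h4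
        _ = 2 := Real.rpow_one 2
    rw [hB, h1, h2]
    calc C1 * ((2 : ℝ) ^ τ * (Z : ℝ) ^ τ) * ((2 : ℝ) ^ (1 / (k : ℝ)) * P)
        ≤ C1 * ((2 : ℝ) ^ τ * (Z : ℝ) ^ τ) * (2 * P) :=
          mul_le_mul_of_nonneg_left (mul_le_mul_of_nonneg_right h3 hP0.le) (by positivity)
      _ = 2 * ((2 : ℝ) ^ τ * C1) * (Z : ℝ) ^ τ * P := by ring
  have hZτ : (Z : ℝ) ^ τ * (Z : ℝ) ^ τ = (Z : ℝ) ^ (2 * τ) := by
    rw [← Real.rpow_add hZ0]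
    congr 1
    ring
  calc (S.card : ℝ) ≤ T.card * B := hcard
    _ ≤ (C3 * (Z : ℝ) ^ τ * (Q / P)) * B := mul_le_mul_of_nonneg_right hTc hB0
    _ ≤ (C3 * (Z : ℝ) ^ τ * (Q / P)) * (2 * ((2 : ℝ) ^ τ * C1) * (Z : ℝ) ^ τ * P) :=
        mul_le_mul_of_nonneg_left hBle (by positivity)
    _ = 2 * ((2 : ℝ) ^ τ * C1 * C3) * ((Z : ℝ) ^ τ * (Z : ℝ) ^ τ) * Q * (P / P) := by ring
    _ = 2 * ((2 : ℝ) ^ τ * C1 * C3) * (Z : ℝ) ^ (2 * τ) * Q := by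
        rw [hZτ, div_self hP0.ne', mul_one]

/-- fixed exponents -/
theorem jk_bound (j k : ℕ) (hj : 1 ≤ j) (hk : 1 ≤ k) (σ : ℝ) (hσ : 0 < σ) : ∃ C : ℝ, 1 ≤ C ∧
    ∀ (Z : ℕ) (Q : ℝ) (e₁ e₂ : ℤ) (S : Finset (ℕ × ℕ × ℕ)), 1 ≤ Z → 0 ≤ Q →
    (e₁ = 1 ∨ e₁ = -1) → (e₂ = 1 ∨ e₂ = -1) →
    (∀ q ∈ S, 1 ≤ q.1 ∧ q.1 ≤ Z ∧ 1 ≤ q.2.1 ∧ q.2.1 ≤ Z ∧ 1 ≤ q.2.2 ∧ q.2.2 ≤ Z ∧
      (q.1 : ℤ) + e₁ * q.2.2 = e₂ * q.2.1 ∧ Cd Q j k q) →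
    (S.card : ℝ) ≤ C * (Z : ℝ) ^ σ * Q := by
  classical
  obtain ⟨C1, hC11, hC1⟩ := class_bound j k hj hk (σ / 3) (by positivity)
  obtain ⟨C2, hC21, hC2⟩ := I1_log (σ / 3) (by positivity)
  refine ⟨C2 * C1, one_le_mul_of_one_le_of_one_le hC21 hC11, ?_⟩
  intro Z Q e₁ e₂ S hZ hQ he₁ he₂ hS
  have hZ0 : (0 : ℝ) < Z := by exact_mod_cast hZ
  have hC10 : 0 ≤ C1 := zero_le_one.trans hC11
  have hxle : ∀ n m : ℕ, 1 ≤ n → 1 ≤ m → xpart n m ≤ n := by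
    intro n m hn hm
    refine le_trans ?_ (Nat.le_of_dvd hn (xpart_pow_dvd n m))
    exact Nat.le_self_pow (by omega) _
  set L := Nat.log 2 Z with hL
  set f : ℕ × ℕ × ℕ → ℕ := fun q => Nat.log 2 (xpart q.1 j) with hf
  set T := Finset.range (L + 1) with hT
  have hmaps : ∀ q ∈ S, f q ∈ T := by
    intro q hq
    obtain ⟨h1, h2, -⟩ := hS q hq
    rw [hT, Finset.mem_range]
    simp only [hf]
    have e1 := hxle q.1 j h1 hj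
    have e3 : Nat.log 2 (xpart q.1 j) ≤ L := Nat.log_mono_right (by omega)
    omega
  have hfib : ∀ t ∈ T, (((S.filter (fun q => f q = t)).card : ℕ) : ℝ) ≤
      C1 * (Z : ℝ) ^ (2 * (σ / 3)) * Q := by
    intro t _
    refine hC1 Z Q e₁ e₂ t _ hZ hQ he₁ he₂ ?_
    intro q hq
    rw [Finset.mem_filter] at hq
    obtain ⟨h1, h2, h3, h4, h5, h6, h7, h8⟩ := hS q hq.1
    exact ⟨h1, h2, h3, h4, h5, h6, h7, h8, hq.2⟩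
  have hTc : ((T.card : ℕ) : ℝ) ≤ C2 * (Z : ℝ) ^ (σ / 3) := by
    rw [hT, Finset.card_range]
    push_cast
    exact hC2 Z hZ
  have hcard : (S.card : ℝ) ≤ T.card * (C1 * (Z : ℝ) ^ (2 * (σ / 3)) * Q) := by
    rw [Finset.card_eq_sum_card_fiberwise (f := f) (t := T) (fun q hq => hmaps q hq)]
    push_cast
    calc ∑ t ∈ T, (((S.filter (fun q => f q = t)).card : ℕ) : ℝ) ≤
          ∑ t ∈ T, (C1 * (Z : ℝ) ^ (2 * (σ / 3)) * Q) := Finset.sum_le_sum hfib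
      _ = T.card * (C1 * (Z : ℝ) ^ (2 * (σ / 3)) * Q) := by rw [Finset.sum_const, nsmul_eq_mul]
  have hZσ : (Z : ℝ) ^ (σ / 3) * (Z : ℝ) ^ (2 * (σ / 3)) = (Z : ℝ) ^ σ := by
    rw [← Real.rpow_add hZ0]
    congr 1
    ring
  calc (S.card : ℝ) ≤ T.card * (C1 * (Z : ℝ) ^ (2 * (σ / 3)) * Q) := hcard
    _ ≤ (C2 * (Z : ℝ) ^ (σ / 3)) * (C1 * (Z : ℝ) ^ (2 * (σ / 3)) * Q) :=
        mul_le_mul_of_nonneg_right hTc (by positivity)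
    _ = C2 * C1 * ((Z : ℝ) ^ (σ / 3) * (Z : ℝ) ^ (2 * (σ / 3))) * Q := by ring
    _ = C2 * C1 * (Z : ℝ) ^ σ * Q := by rw [hZσ]

/-- the six roles -/
def ro : Fin 6 → ℕ × ℕ → ℕ × ℕ × ℕ
  | 0 => fun q => (q.1, q.2, q.1 + q.2)
  | 1 => fun q => (q.2, q.1, q.1 + q.2)
  | 2 => fun q => (q.1, q.1 + q.2, q.2)
  | 3 => fun q => (q.1 + q.2, q.1, q.2)
  | 4 => fun q => (q.2, q.1 + q.2, q.1)
  | 5 => fun q => (q.1 + q.2, q.2, q.1)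

theorem ro_inj (r : Fin 6) : Function.Injective (ro r) := by
  intro q q' h
  fin_cases r <;> simp only [ro, Prod.mk.injEq] at h <;> exact Prod.ext (by omega) (by omega)

theorem ro_le (r : Fin 6) (q : ℕ × ℕ) (Z : ℕ) (h1 : 1 ≤ q.1) (h2 : 1 ≤ q.2) (h3 : q.1 + q.2 ≤ Z) :
    1 ≤ (ro r q).1 ∧ (ro r q).1 ≤ Z ∧ 1 ≤ (ro r q).2.1 ∧ (ro r q).2.1 ≤ Z ∧
      1 ≤ (ro r q).2.2 ∧ (ro r q).2.2 ≤ Z := by
  fin_cases r <;> simp only [ro] <;> omega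

theorem ro_eq (r : Fin 6) : ∃ e₁ e₂ : ℤ, (e₁ = 1 ∨ e₁ = -1) ∧ (e₂ = 1 ∨ e₂ = -1) ∧
    ∀ q : ℕ × ℕ, ((ro r q).1 : ℤ) + e₁ * (ro r q).2.2 = e₂ * (ro r q).2.1 := by
  fin_cases r
  · refine ⟨-1, -1, Or.inr rfl, Or.inr rfl, fun q => ?_⟩
    simp only [ro]
    push_cast
    ring
  · refine ⟨-1, -1, Or.inr rfl, Or.inr rfl, fun q => ?_⟩
    simp only [ro]
    push_cast
    ring
  · refine ⟨1, 1, Or.inl rfl, Or.inl rfl, fun q => ?_⟩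
    simp only [ro]
    push_cast
    ring
  · refine ⟨-1, 1, Or.inr rfl, Or.inl rfl, fun q => ?_⟩
    simp only [ro]
    push_cast
    ring
  · refine ⟨1, 1, Or.inl rfl, Or.inl rfl, fun q => ?_⟩
    simp only [ro]
    push_cast
    ring
  · refine ⟨-1, 1, Or.inr rfl, Or.inl rfl, fun q => ?_⟩
    simp only [ro]
    push_cast
    ring

theorem ro_of_role {a b : ℕ} {s : ℤ} {m n l : ℕ} (h : Role a b s m n l) :
    ∃ r : Fin 6, ro r (a, b) = (m, n, l) := by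
  rcases h with ⟨-, ⟨rfl, rfl⟩ | ⟨rfl, rfl⟩, rfl⟩ | ⟨-, ⟨rfl, rfl⟩ | ⟨rfl, rfl⟩, rfl⟩ |
    ⟨-, ⟨rfl, rfl⟩ | ⟨rfl, rfl⟩, rfl⟩
  · exact ⟨0, rfl⟩
  · exact ⟨1, rfl⟩
  · exact ⟨2, rfl⟩
  · exact ⟨3, rfl⟩
  · exact ⟨4, rfl⟩
  · exact ⟨5, rfl⟩

end E

theorem card_evCur (K : ℕ) (σ : ℝ) (hσ : 0 < σ) : ∃ C : ℝ, 1 ≤ C ∧ ∀ (Z : ℕ) (Q : ℝ)
    (S : Finset (ℕ × ℕ)), 1 ≤ Z → 0 ≤ Q →
    (∀ q ∈ S, 1 ≤ q.1 ∧ 1 ≤ q.2 ∧ q.1 + q.2 ≤ Z ∧ Nat.Coprime q.1 q.2 ∧ EvCur K Q q.1 q.2) →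
    (S.card : ℝ) ≤ C * (Z : ℝ) ^ σ * Q := by
  classical
  have hex : ∀ p : ℕ × ℕ, ∃ C : ℝ, 1 ≤ C ∧ (1 ≤ p.1 → 1 ≤ p.2 →
    ∀ (Z : ℕ) (Q : ℝ) (e₁ e₂ : ℤ) (S : Finset (ℕ × ℕ × ℕ)), 1 ≤ Z → 0 ≤ Q →
    (e₁ = 1 ∨ e₁ = -1) → (e₂ = 1 ∨ e₂ = -1) →
    (∀ q ∈ S, 1 ≤ q.1 ∧ q.1 ≤ Z ∧ 1 ≤ q.2.1 ∧ q.2.1 ≤ Z ∧ 1 ≤ q.2.2 ∧ q.2.2 ≤ Z ∧
      (q.1 : ℤ) + e₁ * q.2.2 = e₂ * q.2.1 ∧ E.Cd Q p.1 p.2 q) →
    (S.card : ℝ) ≤ C * (Z : ℝ) ^ σ * Q) := by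
    intro p
    by_cases h : 1 ≤ p.1 ∧ 1 ≤ p.2
    · obtain ⟨C, hC1, hC⟩ := E.jk_bound p.1 p.2 h.1 h.2 σ hσ
      exact ⟨C, hC1, fun _ _ => hC⟩
    · exact ⟨1, le_rfl, fun h1 h2 => absurd ⟨h1, h2⟩ h⟩
  choose c hc1 hc using hex
  have hc0 : ∀ p, 0 ≤ c p := fun p => zero_le_one.trans (hc1 p)
  set W := (Finset.univ : Finset (Fin 6)) ×ˢ (Finset.range K ×ˢ Finset.range K) with hW
  refine ⟨1 + ∑ p ∈ W, c p.2, by
    have := Finset.sum_nonneg (fun p (_ : p ∈ W) => hc0 p.2)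
    linarith, ?_⟩
  intro Z Q S hZ hQ hS
  have hZ0 : (0 : ℝ) < Z := by exact_mod_cast hZ
  set S' : Fin 6 × (ℕ × ℕ) → Finset (ℕ × ℕ) := fun p => S.filter (fun q => 1 ≤ p.2.1 ∧ 1 ≤ p.2.2 ∧
    E.Cd Q p.2.1 p.2.2 (E.ro p.1 q)) with hS'
  have hsub : S ⊆ W.biUnion S' := by
    intro q hq
    obtain ⟨-, -, -, -, s, m, n, l, j, k, hR, h1, h2, h3, h4, h5⟩ := hS q hq
    obtain ⟨r, hr⟩ := E.ro_of_role hR
    rw [Finset.mem_biUnion]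
    refine ⟨(r, (j, k)), ?_, ?_⟩
    · rw [hW, Finset.mem_product, Finset.mem_product, Finset.mem_range, Finset.mem_range]
      exact ⟨Finset.mem_univ _, h2, h4⟩
    · simp only [hS', Finset.mem_filter]
      refine ⟨hq, h1, h3, ?_⟩
      have hr' : E.ro r q = (m, n, l) := hr
      rw [hr']
      exact h5
  have hp : ∀ p ∈ W, (((S' p).card : ℕ) : ℝ) ≤ c p.2 * (Z : ℝ) ^ σ * Q := by
    intro p _
    by_cases h : 1 ≤ p.2.1 ∧ 1 ≤ p.2.2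
    · obtain ⟨e₁, e₂, he₁, he₂, he⟩ := E.ro_eq p.1
      rw [← Finset.card_image_of_injective (S' p) (E.ro_inj p.1)]
      refine hc p.2 h.1 h.2 Z Q e₁ e₂ _ hZ hQ he₁ he₂ ?_
      intro w hw
      obtain ⟨q, hq, rfl⟩ := Finset.mem_image.1 hw
      simp only [hS', Finset.mem_filter] at hq
      obtain ⟨h1, h2, h3, -⟩ := hS q hq.1
      obtain ⟨g1, g2, g3, g4, g5, g6⟩ := E.ro_le p.1 q Z h1 h2 h3
      exact ⟨g1, g2, g3, g4, g5, g6, he q, hq.2.2.2⟩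
    · have h0 : S' p = ∅ := by
        simp only [hS']
        rw [Finset.filter_eq_empty_iff]
        rintro q _ ⟨h1, h2, -⟩
        exact h ⟨h1, h2⟩
      rw [h0, Finset.card_empty, Nat.cast_zero]
      have := hc0 p.2
      positivity
  have h1 : (S.card : ℝ) ≤ ∑ p ∈ W, (((S' p).card : ℕ) : ℝ) := by
    have h2 := (Finset.card_le_card hsub).trans Finset.card_biUnion_le
    exact_mod_cast h2
  calc (S.card : ℝ) ≤ ∑ p ∈ W, (((S' p).card : ℕ) : ℝ) := h1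
    _ ≤ ∑ p ∈ W, c p.2 * (Z : ℝ) ^ σ * Q := Finset.sum_le_sum hp
    _ = (∑ p ∈ W, c p.2) * (Z : ℝ) ^ σ * Q := by rw [Finset.sum_mul, Finset.sum_mul]
    _ ≤ (1 + ∑ p ∈ W, c p.2) * (Z : ℝ) ^ σ * Q := by
        have h3 : (0 : ℝ) ≤ (Z : ℝ) ^ σ * Q := by positivity
        rw [add_mul, add_mul, one_mul]
        linarith

end Pool.Agent.Lib.MP_d8bd92_nt.Fh
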