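import Pool.Agent.Lib.MP_d8bd92_nt.Fh.GDefs

set_option autoImplicit false

/-! Row G2: the failure of `EvLat`. -/

namespace Pool.Agent.Lib.MP_d8bd92_nt.Fh.G2

open Finset Pool.Agent.Lib.Szpiro

theorem rd_pos (n : ℕ) : (0 : ℝ) < rd n := by
  have h : 0 < rd n := Finset.prod_pos fun p hp => (Nat.prime_of_mem_primeFactors hp).pos
  exact_mod_cast h

end Pool.Agent.Lib.MP_d8bd92_nt.Fh.G2

namespace Pool.Agent.Lib.MP_d8bd92_nt.Fh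

open Finset Pool.Agent.Lib.Szpiro

theorem lat_of_not (Y θ : ℝ) (hY : 1 < Y) (a b : ℕ) (ha : 1 ≤ a) (hb : 1 ≤ b)
    (h : ¬ EvLat (Y ^ θ) a b) (ρ₁ D₁ ρ₂ D₂ ρ₃ D₃ : ℝ) (h₁ : SN Y a ρ₁ D₁) (h₂ : SN Y b ρ₂ D₂)
    (h₃ : SN Y (a + b) ρ₃ D₃) :
    θ < ρ₁ + ρ₂ + ρ₃ ∨ θ < ρ₁ + ρ₂ + ρ₃ + (lh Y a + lh Y b) - (D₁ + D₂ + D₃) := by
  obtain ⟨d₁, hd₁, n₁, rfl, rfl⟩ := h₁
  obtain ⟨d₂, hd₂, n₂, rfl, rfl⟩ := h₂
  obtain ⟨d₃, hd₃, n₃, rfl, rfl⟩ := h₃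
  have hlY : 0 < Real.log Y := Real.log_pos hY
  have hY0 : 0 < Y := by linarith
  have r₁ := G2.rd_pos d₁
  have r₂ := G2.rd_pos d₂
  have r₃ := G2.rd_pos d₃
  have p₁ : (0 : ℝ) < d₁ := by exact_mod_cast Nat.pos_of_ne_zero n₁
  have p₂ : (0 : ℝ) < d₂ := by exact_mod_cast Nat.pos_of_ne_zero n₂
  have p₃ : (0 : ℝ) < d₃ := by exact_mod_cast Nat.pos_of_ne_zero n₃
  have pa : (0 : ℝ) < a := by exact_mod_cast ha
  have pb : (0 : ℝ) < b := by exact_mod_cast hb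
  have hQ : 0 < Y ^ θ := Real.rpow_pos_of_pos hY0 θ
  have hlQ : Real.log (Y ^ θ) = θ * Real.log Y := Real.log_rpow hY0 θ
  have hlr : Real.log ((rd d₁ : ℝ) * rd d₂ * rd d₃) =
      Real.log (rd d₁) + Real.log (rd d₂) + Real.log (rd d₃) := by
    rw [Real.log_mul (mul_pos r₁ r₂).ne' r₃.ne', Real.log_mul r₁.ne' r₂.ne']
  by_cases hA : (rd d₁ : ℝ) * rd d₂ * rd d₃ ≤ Y ^ θ
  · right
    have hB : Y ^ θ * ((d₁ : ℝ) * d₂ * d₃) < (rd d₁ : ℝ) * rd d₂ * rd d₃ * ((a : ℝ) * b) := by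
      by_contra hcon
      exact h ⟨d₁, d₂, d₃, hd₁, hd₂, hd₃, hA, not_lt.mp hcon⟩
    have hl := Real.log_lt_log (mul_pos hQ (mul_pos (mul_pos p₁ p₂) p₃)) hB
    rw [Real.log_mul hQ.ne' (mul_pos (mul_pos p₁ p₂) p₃).ne', hlQ,
      Real.log_mul (mul_pos p₁ p₂).ne' p₃.ne', Real.log_mul p₁.ne' p₂.ne',
      Real.log_mul (mul_pos (mul_pos r₁ r₂) r₃).ne' (mul_pos pa pb).ne', hlr,
      Real.log_mul pa.ne' pb.ne'] at hl
    have he : lr Y d₁ + lr Y d₂ + lr Y d₃ + (lh Y a + lh Y b) - (lh Y d₁ + lh Y d₂ + lh Y d₃) =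
        (Real.log (rd d₁) + Real.log (rd d₂) + Real.log (rd d₃) + (Real.log a + Real.log b)
          - (Real.log d₁ + Real.log d₂ + Real.log d₃)) / Real.log Y := by
      unfold lr lh
      ring
    rw [he, lt_div_iff₀ hlY]
    linarith
  · left
    have hl := Real.log_lt_log hQ (not_le.mp hA)
    rw [hlQ, hlr] at hl
    have he : lr Y d₁ + lr Y d₂ + lr Y d₃ =
        (Real.log (rd d₁) + Real.log (rd d₂) + Real.log (rd d₃)) / Real.log Y := by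
      unfold lr
      ring
    rw [he, lt_div_iff₀ hlY]
    linarith

end Pool.Agent.Lib.MP_d8bd92_nt.Fh
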