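import Pool.Agent.Lib.MP_d8bd92_nt.Fh.GDefs

set_option autoImplicit false

/-! Row G3: the failure of `EvCur`. -/

namespace Pool.Agent.Lib.MP_d8bd92_nt.Fh

open Finset Pool.Agent.Lib.Szpiro

theorem cur_of_not (Y θ : ℝ) (K : ℕ) (hY : 1 < Y) (a b : ℕ) (ha : 1 ≤ a) (hb : 1 ≤ b)
    (h : ¬ EvCur K (Y ^ θ) a b) (s : ℤ) (m n l : ℕ) (hr : Role a b s m n l) (j x k z : ℝ)
    (h₁ : KN Y K m j x) (h₂ : KN Y K n k z) :
    θ < lr Y m + lr Y n + lr Y l - x * (1 - 1 / k) - z := by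
  obtain ⟨hj1, i₁, hi₁, hi₁K, hji, rfl⟩ := h₁
  obtain ⟨hk1, i₂, hi₂, hi₂K, hki, rfl⟩ := h₂
  have hlogY : 0 < Real.log Y := Real.log_pos hY
  have hY0 : 0 < Y := by linarith
  have hlt : Y ^ θ * ((xpart m i₁ : ℝ) * xpart n i₂) <
      (rd m : ℝ) * rd n * rd l * (xpart m i₁ : ℝ) ^ (1 / (i₂ : ℝ)) := by
    by_contra hcon
    exact h ⟨s, m, n, l, i₁, i₂, hr, hi₁, hi₁K, hi₂, hi₂K, not_lt.1 hcon⟩
  have hX : (0 : ℝ) < xpart m i₁ := Nat.cast_pos.2 (xpart_pos m i₁)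
  have hX1 : (1 : ℝ) ≤ xpart m i₁ := Nat.one_le_cast.2 (xpart_pos m i₁)
  have hZ : (0 : ℝ) < xpart n i₂ := Nat.cast_pos.2 (xpart_pos n i₂)
  have hm : (0 : ℝ) < rd m := Nat.cast_pos.2 (TfF.rd_pos m)
  have hn : (0 : ℝ) < rd n := Nat.cast_pos.2 (TfF.rd_pos n)
  have hl : (0 : ℝ) < rd l := Nat.cast_pos.2 (TfF.rd_pos l)
  have hQ : 0 < Y ^ θ := Real.rpow_pos_of_pos hY0 θ
  have hlog := Real.log_lt_log (mul_pos hQ (mul_pos hX hZ)) hlt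
  rw [Real.log_mul hQ.ne' (mul_pos hX hZ).ne', Real.log_mul hX.ne' hZ.ne', Real.log_rpow hY0,
    Real.log_mul (mul_pos (mul_pos hm hn) hl).ne' (Real.rpow_pos_of_pos hX _).ne',
    Real.log_mul (mul_pos hm hn).ne' hl.ne', Real.log_mul hm.ne' hn.ne', Real.log_rpow hX] at hlog
  have hlX : 0 ≤ Real.log (xpart m i₁ : ℝ) := Real.log_nonneg hX1
  have hik : 1 / (i₂ : ℝ) ≤ 1 / k := one_div_le_one_div_of_le (by linarith) hki
  have h3 : 1 / (i₂ : ℝ) * Real.log (xpart m i₁ : ℝ) ≤ 1 / k * Real.log (xpart m i₁ : ℝ) :=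
    mul_le_mul_of_nonneg_right hik hlX
  have h4 : θ * Real.log Y < Real.log (rd m : ℝ) + Real.log (rd n : ℝ) + Real.log (rd l : ℝ) -
      Real.log (xpart m i₁ : ℝ) * (1 - 1 / k) - Real.log (xpart n i₂ : ℝ) := by
    linarith
  have h5 := (lt_div_iff₀ hlogY).2 h4
  have h6 : (Real.log (rd m : ℝ) + Real.log (rd n : ℝ) + Real.log (rd l : ℝ) -
      Real.log (xpart m i₁ : ℝ) * (1 - 1 / k) - Real.log (xpart n i₂ : ℝ)) / Real.log Y =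
      lr Y m + lr Y n + lr Y l - lx Y m i₁ * (1 - 1 / k) - lx Y n i₂ := by
    unfold lr lx
    ring
  rw [h6] at h5
  exact h5

end Pool.Agent.Lib.MP_d8bd92_nt.Fh
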