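import Pool.Agent.Lib.MP_d8bd92_nt.Fh.Defs

set_option autoImplicit false

/-! Row X: the saving by five lines. -/

namespace Pool.Agent.Lib.MP_d8bd92_nt.Fh

open Finset Pool.Agent.Lib.Szpiro

namespace X

/-- The five lines: `w ≤ φ(μ) p + μ δ`, `φ(μ) = (1 - μ) / (2 (1 + μ))`. -/
theorem lines (w p δ : ℝ) (hp : 0 ≤ p) (h0 : w ≤ δ) (h1 : w ≤ 1 / 14 * p + 5 / 7 * δ)
    (h2 : w ≤ 13 / 54 * p + 1 / 3 * δ) (h3 : w ≤ 9 / 22 * p + 1 / 11 * δ) (h4 : w ≤ 1 / 2 * p)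
    (μ : ℝ) (hμ0 : 0 ≤ μ) (hμ1 : μ ≤ 1) : w ≤ (1 - μ) / (2 * (1 + μ)) * p + μ * δ := by
  have hden : 0 < 2 * (1 + μ) := by linarith only [hμ0]
  rcases le_total μ (1 / 11) with ha | ha
  · have hφ : 1 / 2 - μ ≤ (1 - μ) / (2 * (1 + μ)) := by
      rw [le_div_iff₀ hden, ← sub_nonneg]
      have e : (1 - μ) - (1 / 2 - μ) * (2 * (1 + μ)) = 2 * μ ^ 2 := by ring
      rw [e]
      exact mul_nonneg zero_le_two (sq_nonneg μ)
    calc w = (1 - 11 * μ) * w + 11 * μ * w := by ring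
      _ ≤ (1 - 11 * μ) * (1 / 2 * p) + 11 * μ * (9 / 22 * p + 1 / 11 * δ) :=
        add_le_add (mul_le_mul_of_nonneg_left h4 (by linarith only [ha]))
          (mul_le_mul_of_nonneg_left h3 (by linarith only [hμ0]))
      _ = (1 / 2 - μ) * p + μ * δ := by ring
      _ ≤ (1 - μ) / (2 * (1 + μ)) * p + μ * δ :=
        add_le_add (mul_le_mul_of_nonneg_right hφ hp) le_rfl
  rcases le_total μ (1 / 3) with hb | hb
  · have hφ : 1 / 3 - 25 / 36 * (μ - 1 / 5) ≤ (1 - μ) / (2 * (1 + μ)) := by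
      rw [le_div_iff₀ hden, ← sub_nonneg]
      have e : (1 - μ) - (1 / 3 - 25 / 36 * (μ - 1 / 5)) * (2 * (1 + μ)) =
          1 / 18 * (5 * μ - 1) ^ 2 := by ring
      rw [e]
      exact mul_nonneg (by norm_num) (sq_nonneg _)
    calc w = 33 / 8 * (1 / 3 - μ) * w + 33 / 8 * (μ - 1 / 11) * w := by ring
      _ ≤ 33 / 8 * (1 / 3 - μ) * (9 / 22 * p + 1 / 11 * δ) +
          33 / 8 * (μ - 1 / 11) * (13 / 54 * p + 1 / 3 * δ) :=
        add_le_add (mul_le_mul_of_nonneg_left h3 (by linarith only [hb]))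
          (mul_le_mul_of_nonneg_left h2 (by linarith only [ha]))
      _ = (1 / 3 - 25 / 36 * (μ - 1 / 5)) * p + μ * δ := by ring
      _ ≤ (1 - μ) / (2 * (1 + μ)) * p + μ * δ :=
        add_le_add (mul_le_mul_of_nonneg_right hφ hp) le_rfl
  rcases le_total μ (5 / 7) with hc | hc
  · have hφ : 1 / 6 - 4 / 9 * (μ - 1 / 2) ≤ (1 - μ) / (2 * (1 + μ)) := by
      rw [le_div_iff₀ hden, ← sub_nonneg]
      have e : (1 - μ) - (1 / 6 - 4 / 9 * (μ - 1 / 2)) * (2 * (1 + μ)) =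
          2 / 9 * (2 * μ - 1) ^ 2 := by ring
      rw [e]
      exact mul_nonneg (by norm_num) (sq_nonneg _)
    calc w = 21 / 8 * (5 / 7 - μ) * w + 21 / 8 * (μ - 1 / 3) * w := by ring
      _ ≤ 21 / 8 * (5 / 7 - μ) * (13 / 54 * p + 1 / 3 * δ) +
          21 / 8 * (μ - 1 / 3) * (1 / 14 * p + 5 / 7 * δ) :=
        add_le_add (mul_le_mul_of_nonneg_left h2 (by linarith only [hc]))
          (mul_le_mul_of_nonneg_left h1 (by linarith only [hb]))
      _ = (1 / 6 - 4 / 9 * (μ - 1 / 2)) * p + μ * δ := by ring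
      _ ≤ (1 - μ) / (2 * (1 + μ)) * p + μ * δ :=
        add_le_add (mul_le_mul_of_nonneg_right hφ hp) le_rfl
  · have hφ : (1 - μ) / 4 ≤ (1 - μ) / (2 * (1 + μ)) := by
      rw [le_div_iff₀ hden, ← sub_nonneg]
      have e : (1 - μ) - (1 - μ) / 4 * (2 * (1 + μ)) = 1 / 2 * (1 - μ) ^ 2 := by ring
      rw [e]
      exact mul_nonneg (by norm_num) (sq_nonneg _)
    calc w = 7 / 2 * (1 - μ) * w + 7 / 2 * (μ - 5 / 7) * w := by ring
      _ ≤ 7 / 2 * (1 - μ) * (1 / 14 * p + 5 / 7 * δ) + 7 / 2 * (μ - 5 / 7) * δ :=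
        add_le_add (mul_le_mul_of_nonneg_left h1 (by linarith only [hμ1]))
          (mul_le_mul_of_nonneg_left h0 (by linarith only [hc]))
      _ = (1 - μ) / 4 * p + μ * δ := by ring
      _ ≤ (1 - μ) / (2 * (1 + μ)) * p + μ * δ :=
        add_le_add (mul_le_mul_of_nonneg_right hφ hp) le_rfl

/-- The logarithm of `P ^ a * D ^ b`. -/
theorem log_pd (P D a b : ℝ) (hP : 0 < P) (hD : 0 < D) :
    Real.log (P ^ a * D ^ b) = a * Real.log P + b * Real.log D := by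
  rw [Real.log_mul (Real.rpow_pos_of_pos hP a).ne' (Real.rpow_pos_of_pos hD b).ne',
    Real.log_rpow hP, Real.log_rpow hD]

/-- `savOK_lines` in terms of logarithms. -/
theorem savOK_logs (W P D : ℝ) (hP : 1 ≤ P) (hD : 0 < D) (hW : 0 < W)
    (h0 : Real.log W ≤ Real.log D) (h1 : Real.log W ≤ 1 / 14 * Real.log P + 5 / 7 * Real.log D)
    (h2 : Real.log W ≤ 13 / 54 * Real.log P + 1 / 3 * Real.log D)
    (h3 : Real.log W ≤ 9 / 22 * Real.log P + 1 / 11 * Real.log D)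
    (h4 : Real.log W ≤ 1 / 2 * Real.log P) : SavOK W P D := by
  have hP0 : 0 < P := lt_of_lt_of_le one_pos hP
  refine ⟨hW, fun μ hμ0 hμ1 => ?_⟩
  have h := lines (Real.log W) (Real.log P) (Real.log D) (Real.log_nonneg hP) h0 h1 h2 h3 h4 μ hμ0 hμ1
  rw [← log_pd P D _ _ hP0 hD] at h
  exact (Real.log_le_log_iff hW (mul_pos (Real.rpow_pos_of_pos hP0 _) (Real.rpow_pos_of_pos hD _))).mp h

end X

theorem savOK_lines (W P D : ℝ) (hP : 1 ≤ P) (hD : 0 < D) (hW : 0 < W) (h0 : W ≤ D)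
    (h1 : W ≤ P ^ (1 / 14 : ℝ) * D ^ (5 / 7 : ℝ)) (h2 : W ≤ P ^ (13 / 54 : ℝ) * D ^ (1 / 3 : ℝ))
    (h3 : W ≤ P ^ (9 / 22 : ℝ) * D ^ (1 / 11 : ℝ)) (h4 : W ≤ P ^ (1 / 2 : ℝ)) :
    SavOK W P D := by
  have hP0 : 0 < P := lt_of_lt_of_le one_pos hP
  have g1 := Real.log_le_log hW h1
  have g2 := Real.log_le_log hW h2
  have g3 := Real.log_le_log hW h3
  have g4 := Real.log_le_log hW h4
  rw [X.log_pd P D _ _ hP0 hD] at g1 g2 g3
  rw [Real.log_rpow hP0] at g4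
  exact X.savOK_logs W P D hP hD hW (Real.log_le_log hW h0) g1 g2 g3 g4

/-- if the event does not hold for a divisor of `l`, then `XF` -/
theorem xf_of_not (Y θ : ℝ) (hY : 1 < Y) (s : ℤ) (m n D : ℕ) (hD : 1 ≤ D)
    (hc : Nat.Coprime D (m * n)) (hd : (D : ℤ) ∣ (m : ℤ) - s * n)
    (h : ¬ EvModW (Y ^ θ) s m n) :
    XF θ ((Real.log (rd m) + Real.log (rd n)) / Real.log Y) (Real.log (rd D) / Real.log Y)
      (Real.log D / Real.log Y) := by
  by_contra hX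
  apply h
  unfold XF at hX
  push Not at hX
  obtain ⟨x0, x1, x2, x3, x4⟩ := hX
  have hL : 0 < Real.log Y := Real.log_pos hY
  have hY0 : 0 < Y := lt_trans one_pos hY
  have hrd : ∀ k : ℕ, (1 : ℝ) ≤ (rd k : ℝ) := by
    intro k
    exact_mod_cast rd_pos k
  have hm := hrd m
  have hn := hrd n
  have hDD := hrd D
  have hm0 : (0 : ℝ) < rd m := lt_of_lt_of_le one_pos hm
  have hn0 : (0 : ℝ) < rd n := lt_of_lt_of_le one_pos hn
  have hD0 : (0 : ℝ) < rd D := lt_of_lt_of_le one_pos hDD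
  have hDr : (0 : ℝ) < (D : ℝ) := by exact_mod_cast hD
  have hYθ : 0 < Y ^ θ := Real.rpow_pos_of_pos hY0 θ
  have hP : 1 ≤ (rd m : ℝ) * rd n := one_le_mul_of_one_le_of_one_le hm hn
  obtain ⟨P', hP'⟩ : ∃ x, x = (Real.log (rd m) + Real.log (rd n)) / Real.log Y := ⟨_, rfl⟩
  obtain ⟨ρ', hρ'⟩ : ∃ x, x = Real.log (rd D) / Real.log Y := ⟨_, rfl⟩
  obtain ⟨D', hD'⟩ : ∃ x, x = Real.log D / Real.log Y := ⟨_, rfl⟩
  rw [← hP', ← hρ'] at x0 x1 x2 x3 x4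
  rw [← hD'] at x0 x1 x2 x3
  have eP : Real.log ((rd m : ℝ) * rd n) = P' * Real.log Y := by
    rw [Real.log_mul hm0.ne' hn0.ne', hP', div_mul_cancel₀ _ hL.ne']
  have eρ : Real.log (rd D) = ρ' * Real.log Y := by
    rw [hρ', div_mul_cancel₀ _ hL.ne']
  have eD : Real.log D = D' * Real.log Y := by
    rw [hD', div_mul_cancel₀ _ hL.ne']
  have hW : 0 < (rd D : ℝ) * ((rd m : ℝ) * rd n) / Y ^ θ := by positivity
  have eW : Real.log ((rd D : ℝ) * ((rd m : ℝ) * rd n) / Y ^ θ) = (ρ' + P' - θ) * Real.log Y := by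
    rw [Real.log_div (by positivity) hYθ.ne', Real.log_mul hD0.ne' (by positivity), eP, eρ,
      Real.log_rpow hY0]
    ring
  refine ⟨D, (rd D : ℝ) * ((rd m : ℝ) * rd n) / Y ^ θ, hD, hc, hd, ?_, ?_⟩
  · refine X.savOK_logs _ _ _ hP hDr hW ?_ ?_ ?_ ?_ ?_
    · rw [eW, eD]
      exact mul_le_mul_of_nonneg_right (by linarith only [x0]) hL.le
    · rw [eW, eD, eP]
      exact (mul_le_mul_of_nonneg_right (show ρ' + P' - θ ≤ 1 / 14 * P' + 5 / 7 * D' by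
        linarith only [x1]) hL.le).trans_eq (by ring)
    · rw [eW, eD, eP]
      exact (mul_le_mul_of_nonneg_right (show ρ' + P' - θ ≤ 13 / 54 * P' + 1 / 3 * D' by
        linarith only [x2]) hL.le).trans_eq (by ring)
    · rw [eW, eD, eP]
      exact (mul_le_mul_of_nonneg_right (show ρ' + P' - θ ≤ 9 / 22 * P' + 1 / 11 * D' by
        linarith only [x3]) hL.le).trans_eq (by ring)
    · rw [eW, eP]
      exact (mul_le_mul_of_nonneg_right (show ρ' + P' - θ ≤ 1 / 2 * P' by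
        linarith only [x4]) hL.le).trans_eq (by ring)
  · rw [mul_div_cancel₀ _ hYθ.ne']

end Pool.Agent.Lib.MP_d8bd92_nt.Fh
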