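import Pool.Agent.Lib.MP_d8bd92_nt.Fh.GDefs
import Pool.Agent.Lib.MP_d8bd92_nt.Fh.X

set_option autoImplicit false

/-! Row G4: the failure of the three events `EvModW`. -/

namespace Pool.Agent.Lib.MP_d8bd92_nt.Fh

open Finset Pool.Agent.Lib.Szpiro

theorem mod_of_not (Y θ : ℝ) (hY : 1 < Y) (a b : ℕ) (ha : 1 ≤ a) (hb : 1 ≤ b)
    (hc : Nat.Coprime a b) (h₁ : ¬ EvModW (Y ^ θ) 1 (a + b) a)
    (h₂ : ¬ EvModW (Y ^ θ) 1 (a + b) b) (h₃ : ¬ EvModW (Y ^ θ) (-1) a b) :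
    (∀ ρ D, SN Y a ρ D → XF θ (lr Y b + lr Y (a + b)) ρ D) ∧
    (∀ ρ D, SN Y b ρ D → XF θ (lr Y a + lr Y (a + b)) ρ D) ∧
    (∀ ρ D, SN Y (a + b) ρ D → XF θ (lr Y a + lr Y b) ρ D) := by
  refine ⟨?_, ?_, ?_⟩
  · rintro ρ D ⟨d, hd, hd0, rfl, rfl⟩
    have hcop : Nat.Coprime d ((a + b) * b) := by
      apply Nat.Coprime.coprime_dvd_left hd
      apply Nat.Coprime.mul_right _ hc
      rw [Nat.add_comm]
      exact Nat.coprime_add_self_right.2 hc
    have hdiv : (d : ℤ) ∣ ((a + b : ℕ) : ℤ) - 1 * (b : ℤ) := by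
      have e : ((a + b : ℕ) : ℤ) - 1 * (b : ℤ) = (a : ℤ) := by push_cast; ring
      rw [e]
      exact Int.natCast_dvd_natCast.2 hd
    have h := xf_of_not Y θ hY 1 (a + b) b d (Nat.one_le_iff_ne_zero.2 hd0) hcop hdiv h₂
    have e : lr Y b + lr Y (a + b) =
        (Real.log (rd (a + b)) + Real.log (rd b)) / Real.log Y := by
      unfold lr
      ring
    rw [e]
    exact h
  · rintro ρ D ⟨d, hd, hd0, rfl, rfl⟩
    have hcop : Nat.Coprime d ((a + b) * a) := by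
      apply Nat.Coprime.coprime_dvd_left hd
      apply Nat.Coprime.mul_right _ hc.symm
      exact Nat.coprime_add_self_right.2 hc.symm
    have hdiv : (d : ℤ) ∣ ((a + b : ℕ) : ℤ) - 1 * (a : ℤ) := by
      have e : ((a + b : ℕ) : ℤ) - 1 * (a : ℤ) = (b : ℤ) := by push_cast; ring
      rw [e]
      exact Int.natCast_dvd_natCast.2 hd
    have h := xf_of_not Y θ hY 1 (a + b) a d (Nat.one_le_iff_ne_zero.2 hd0) hcop hdiv h₁
    have e : lr Y a + lr Y (a + b) =
        (Real.log (rd (a + b)) + Real.log (rd a)) / Real.log Y := by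
      unfold lr
      ring
    rw [e]
    exact h
  · rintro ρ D ⟨d, hd, hd0, rfl, rfl⟩
    have hcop : Nat.Coprime d (a * b) := by
      apply Nat.Coprime.coprime_dvd_left hd
      apply Nat.Coprime.mul_right
      · rw [Nat.add_comm]
        exact (Nat.coprime_add_self_left).2 hc.symm
      · exact (Nat.coprime_add_self_left).2 hc
    have hdiv : (d : ℤ) ∣ (a : ℤ) - (-1) * (b : ℤ) := by
      have e : (a : ℤ) - (-1) * (b : ℤ) = ((a + b : ℕ) : ℤ) := by push_cast; ring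
      rw [e]
      exact Int.natCast_dvd_natCast.2 hd
    have h := xf_of_not Y θ hY (-1) a b d (Nat.one_le_iff_ne_zero.2 hd0) hcop hdiv h₃
    have e : lr Y a + lr Y b = (Real.log (rd a) + Real.log (rd b)) / Real.log Y := by
      unfold lr
      ring
    rw [e]
    exact h

end Pool.Agent.Lib.MP_d8bd92_nt.Fh
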