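import Pool.Agent.Lib.MP_d8bd92_nt.Fh.Defs

set_option autoImplicit false

/-! Row S: the part with large exponents: at most one main block. -/

namespace Pool.Agent.Lib.MP_d8bd92_nt.Fh

open Finset

/-- a sum of small weights is small -/
theorem S.small {ι : Type} [DecidableEq ι] (d P : ℝ) (w : ι → ℝ) (I : Finset ι) (hd2 : 2 * d ≤ P)
    (hno : ∀ S ⊆ I, ∑ i ∈ S, w i < d ∨ P < ∑ i ∈ S, w i) (h0 : 0 < d)
    (S : Finset ι) (hS : S ⊆ I) (hs : ∀ i ∈ S, w i < d) : ∑ i ∈ S, w i < d := by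
  induction S using Finset.induction_on with
  | empty => simpa using h0
  | insert a S ha ih =>
    have h1 := ih (fun i hi => hS (Finset.mem_insert_of_mem hi))
      (fun i hi => hs i (Finset.mem_insert_of_mem hi))
    have h2 := hs a (Finset.mem_insert_self _ _)
    rcases hno _ hS with h | h
    · exact h
    · rw [Finset.sum_insert ha] at h
      linarith

theorem tail {ι : Type} [DecidableEq ι] (I : Finset ι) (J P d : ℝ) (w t : ι → ℝ) (hJ : 0 < J)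
    (hd : 0 ≤ d) (hd2 : 2 * d ≤ P) (ht : ∀ i ∈ I, 0 ≤ t i) (hw : ∀ i ∈ I, J * t i ≤ w i)
    (hr : ∑ i ∈ I, t i + P ≤ 1)
    (h0 : ∀ D, d ≤ D → D ≤ P → D / J ≤ D + 7 / 12 - P)
    (h1 : ∀ D, d ≤ D → D ≤ P → D / J ≤ 1 / 14 * P + 5 / 7 * D + 7 / 12 - P)
    (h2 : ∀ D, d ≤ D → D ≤ P → D / J ≤ 13 / 54 * P + 1 / 3 * D + 7 / 12 - P)
    (h3 : ∀ D, d ≤ D → D ≤ P → D / J ≤ 9 / 22 * P + 1 / 11 * D + 7 / 12 - P)
    (h4 : ∀ D, d ≤ D → D ≤ P → D / J ≤ 1 / 2 * P + 7 / 12 - P)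
    (hX : ∀ S ⊆ I, XF (7 / 12) P (∑ i ∈ S, t i) (∑ i ∈ S, w i)) :
    ∑ i ∈ I, w i ≤ d ∨
      ∃ i ∈ I, P ≤ w i ∧ 7 / 12 - P / 2 ≤ t i ∧ ∑ j ∈ I.erase i, w j ≤ d := by
  have hP : 0 ≤ P := by linarith
  have hno : ∀ S ⊆ I, ∑ i ∈ S, w i < d ∨ P < ∑ i ∈ S, w i := by
    intro S hS
    by_contra hc
    rw [not_or, not_lt, not_lt] at hc
    obtain ⟨hc1, hc2⟩ := hc
    have hT : ∑ i ∈ S, t i ≤ (∑ i ∈ S, w i) / J := by
      rw [le_div_iff₀ hJ, mul_comm, Finset.mul_sum]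
      exact Finset.sum_le_sum fun i hi => hw i (hS hi)
    have e0 := h0 _ hc1 hc2
    have e1 := h1 _ hc1 hc2
    have e2 := h2 _ hc1 hc2
    have e3 := h3 _ hc1 hc2
    have e4 := h4 _ hc1 hc2
    rcases hX S hS with h | h | h | h | h <;> linarith
  have hd0 : 0 < d := by
    rcases hno ∅ (Finset.empty_subset _) with h | h
    · simpa using h
    · rw [Finset.sum_empty] at h
      linarith
  have hone : ∀ i ∈ I, w i < d ∨ P < w i := by
    intro i hi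
    have h := hno {i} (Finset.singleton_subset_iff.2 hi)
    rwa [Finset.sum_singleton] at h
  have hbig : ∀ i ∈ I, P < w i → 7 / 12 - P / 2 < t i := by
    intro i hi hwi
    have h := hX {i} (Finset.singleton_subset_iff.2 hi)
    rw [Finset.sum_singleton, Finset.sum_singleton] at h
    rcases h with h | h | h | h | h <;> linarith
  by_cases hb : ∃ i ∈ I, P < w i
  · obtain ⟨i, hi, hwi⟩ := hb
    refine Or.inr ⟨i, hi, hwi.le, (hbig i hi hwi).le, ?_⟩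
    refine (S.small d P w I hd2 hno hd0 _ (Finset.erase_subset _ _) fun j hj => ?_).le
    have hj1 := Finset.mem_of_mem_erase hj
    have hj2 := Finset.ne_of_mem_erase hj
    rcases hone j hj1 with h | h
    · exact h
    · exfalso
      have e1 := hbig i hi hwi
      have e2 := hbig j hj1 h
      have e3 : t j ≤ ∑ l ∈ I.erase i, t l :=
        Finset.single_le_sum (fun l hl => ht l (Finset.mem_of_mem_erase hl)) hj
      have e4 := Finset.add_sum_erase I t hi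
      linarith
  · push Not at hb
    refine Or.inl (S.small d P w I hd2 hno hd0 _ (Finset.Subset.refl _) fun j hj => ?_).le
    rcases hone j hj with h | h
    · exact h
    · exact absurd h (not_lt.2 (hb j hj))

theorem tail4 {ι : Type} [DecidableEq ι] (I : Finset ι) (P : ℝ) (w t : ι → ℝ)
    (hP : 7 / 12 ≤ P) (hP' : P ≤ 7 / 9) (ht : ∀ i ∈ I, 0 ≤ t i) (hw : ∀ i ∈ I, 4 * t i ≤ w i)
    (hr : ∑ i ∈ I, t i + P ≤ 1)
    (hX : ∀ S ⊆ I, XF (7 / 12) P (∑ i ∈ S, t i) (∑ i ∈ S, w i)) :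
    ∑ i ∈ I, w i ≤ 20 / 13 * (P - 7 / 12) ∨
      ∃ i ∈ I, P ≤ w i ∧ 7 / 12 - P / 2 ≤ t i ∧
        ∑ j ∈ I.erase i, w j ≤ 20 / 13 * (P - 7 / 12) := by
  refine tail I 4 P (20 / 13 * (P - 7 / 12)) w t (by norm_num) (by linarith) (by linarith) ht hw hr
    ?_ ?_ ?_ ?_ ?_ hX <;> intro D hD1 hD2 <;> linarith

theorem tail5 {ι : Type} [DecidableEq ι] (I : Finset ι) (P : ℝ) (w t : ι → ℝ)
    (hP : 7 / 9 ≤ P) (hP' : P ≤ 5 / 6) (ht : ∀ i ∈ I, 0 ≤ t i) (hw : ∀ i ∈ I, 5 * t i ≤ w i)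
    (hr : ∑ i ∈ I, t i + P ≤ 1)
    (hX : ∀ S ⊆ I, XF (7 / 12) P (∑ i ∈ S, t i) (∑ i ∈ S, w i)) :
    ∑ i ∈ I, w i ≤ 65 / 36 * P - 245 / 216 ∨
      ∃ i ∈ I, P ≤ w i ∧ 7 / 12 - P / 2 ≤ t i ∧
        ∑ j ∈ I.erase i, w j ≤ 65 / 36 * P - 245 / 216 := by
  refine tail I 5 P (65 / 36 * P - 245 / 216) w t (by norm_num) (by linarith) (by linarith) ht hw hr
    ?_ ?_ ?_ ?_ ?_ hX <;> intro D hD1 hD2 <;> linarith

end Pool.Agent.Lib.MP_d8bd92_nt.Fh
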