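import Pool.Agent.Lib.MP_d8bd92_nt.Fh.Defs
import Pool.Agent.Lib.MP_d8bd92_nt.TwRad
import Pool.Agent.Lib.MP_d8bd92_nt.CdB
import Pool.Agent.Lib.MP_d8bd92_nt.TfM

set_option autoImplicit false

/-! Row U: a number as the product of its parts of exact exponent `i < K` and the rest. -/

namespace Pool.Agent.Lib.MP_d8bd92_nt.Fh

open Finset Pool.Agent.Lib.Szpiro

namespace U

theorem fac_pos {n p : ℕ} (hp : p ∈ n.primeFactors) : 1 ≤ n.factorization p := by
  have h1 := Nat.mem_primeFactors.1 hp
  exact h1.1.factorization_pos_of_dvd h1.2.2 h1.2.1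

/-- products over the fibres of `c` -/
theorem prod_fib (s : Finset ℕ) (c g : ℕ → ℕ) (S : Finset ℕ) :
    ∏ i ∈ S, ∏ p ∈ s.filter (fun p => c p = i), g p = ∏ p ∈ s.filter (fun p => c p ∈ S), g p := by
  classical
  rw [← Finset.prod_fiberwise_of_maps_to (s := s.filter (fun p => c p ∈ S)) (t := S)
    (g := fun p => c p) (fun p hp => (Finset.mem_filter.1 hp).2)]
  refine Finset.prod_congr rfl (fun i hi => Finset.prod_congr ?_ (fun _ _ => rfl))
  ext p
  simp only [Finset.mem_filter]
  constructor
  · rintro ⟨h1, h2⟩
    exact ⟨⟨h1, by rw [h2]; exact hi⟩, h2⟩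
  · rintro ⟨⟨h1, -⟩, h2⟩
    exact ⟨h1, h2⟩

end U

theorem parts (n K : ℕ) (hn : n ≠ 0) (hK : 2 ≤ K) : ∃ y : ℕ → ℕ, (∀ i, 1 ≤ y i) ∧
    (∀ i, 1 ≤ i → i < K → y i = xpart n i ^ i ∧ rd (y i) = xpart n i) ∧
    (∀ i ∈ Icc 1 K, rd (y i) ^ i ≤ y i) ∧
    (∀ S ⊆ Icc 1 K, (∏ i ∈ S, y i) ∣ n ∧ rd (∏ i ∈ S, y i) = ∏ i ∈ S, rd (y i)) ∧
    ∏ i ∈ Icc 1 K, y i = n := by
  classical
  have hprime : ∀ p ∈ n.primeFactors, p.Prime := fun p hp => Nat.prime_of_mem_primeFactors hp
  have hpr : ∀ (Q : ℕ → Prop) [DecidablePred Q], ∀ p ∈ n.primeFactors.filter Q, p.Prime :=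
    fun Q _ p hp => hprime p (Finset.mem_filter.1 hp).1
  have hf0 : ∀ (Q : ℕ → Prop) [DecidablePred Q], ∀ p ∈ n.primeFactors.filter Q,
      n.factorization p ≠ 0 := fun Q _ p hp => by
    have := U.fac_pos (Finset.mem_filter.1 hp).1
    omega
  have hrd : ∀ (Q : ℕ → Prop) [DecidablePred Q],
      rd (∏ p ∈ n.primeFactors.filter Q, p ^ n.factorization p) =
        ∏ p ∈ n.primeFactors.filter Q, p :=
    fun Q _ => CdB_rd_prod _ _ (hpr Q) (hf0 Q)
  refine ⟨fun i => ∏ p ∈ n.primeFactors.filter (fun p => min (n.factorization p) K = i),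
    p ^ n.factorization p, ?_, ?_, ?_, ?_, ?_⟩
  · intro i
    exact Nat.one_le_iff_ne_zero.2 (Finset.prod_ne_zero_iff.2 fun p hp =>
      pow_ne_zero _ (hpr _ p hp).ne_zero)
  · intro i h1 hiK
    have h2 : n.primeFactors.filter (fun p => min (n.factorization p) K = i) =
        n.primeFactors.filter (fun p => n.factorization p = i) := by
      refine Finset.filter_congr fun p _ => ?_
      omega
    constructor
    · show ∏ p ∈ n.primeFactors.filter (fun p => min (n.factorization p) K = i),
        p ^ n.factorization p = xpart n i ^ i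
      rw [h2]
      unfold xpart
      rw [← Finset.prod_pow]
      exact Finset.prod_congr rfl fun p hp => by rw [(Finset.mem_filter.1 hp).2]
    · show rd (∏ p ∈ n.primeFactors.filter (fun p => min (n.factorization p) K = i),
        p ^ n.factorization p) = xpart n i
      rw [hrd, h2]
      rfl
  · intro i _
    show rd (∏ p ∈ n.primeFactors.filter (fun p => min (n.factorization p) K = i),
        p ^ n.factorization p) ^ i ≤ ∏ p ∈ n.primeFactors.filter
          (fun p => min (n.factorization p) K = i), p ^ n.factorization p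
    rw [hrd, ← Finset.prod_pow]
    refine Finset.prod_le_prod' fun p hp => ?_
    have h1 := (Finset.mem_filter.1 hp).2
    exact Nat.pow_le_pow_right (hpr _ p hp).pos (by omega)
  · intro S _
    have h1 : ∏ i ∈ S, ∏ p ∈ n.primeFactors.filter (fun p => min (n.factorization p) K = i),
        p ^ n.factorization p =
        ∏ p ∈ n.primeFactors.filter (fun p => min (n.factorization p) K ∈ S),
          p ^ n.factorization p :=
      U.prod_fib n.primeFactors (fun p => min (n.factorization p) K)
        (fun p => p ^ n.factorization p) S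
    constructor
    · show (∏ i ∈ S, ∏ p ∈ n.primeFactors.filter (fun p => min (n.factorization p) K = i),
        p ^ n.factorization p) ∣ n
      rw [h1]
      have h2 : (∏ p ∈ n.primeFactors.filter (fun p => min (n.factorization p) K ∈ S),
          p ^ n.factorization p) ∣ ∏ p ∈ n.primeFactors, p ^ n.factorization p :=
        Finset.prod_dvd_prod_of_subset _ _ _ (Finset.filter_subset _ _)
      rwa [CdB_prod_pow n hn] at h2
    · show rd (∏ i ∈ S, ∏ p ∈ n.primeFactors.filter (fun p => min (n.factorization p) K = i),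
        p ^ n.factorization p) = ∏ i ∈ S, rd (∏ p ∈ n.primeFactors.filter
          (fun p => min (n.factorization p) K = i), p ^ n.factorization p)
      rw [h1, hrd, ← U.prod_fib n.primeFactors (fun p => min (n.factorization p) K) (fun p => p) S]
      exact Finset.prod_congr rfl fun i _ => (hrd _).symm
  · have h1 : ∏ i ∈ Icc 1 K, ∏ p ∈ n.primeFactors.filter
        (fun p => min (n.factorization p) K = i), p ^ n.factorization p =
        ∏ p ∈ n.primeFactors.filter (fun p => min (n.factorization p) K ∈ Icc 1 K),
          p ^ n.factorization p :=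
      U.prod_fib n.primeFactors (fun p => min (n.factorization p) K)
        (fun p => p ^ n.factorization p) (Icc 1 K)
    show ∏ i ∈ Icc 1 K, ∏ p ∈ n.primeFactors.filter
        (fun p => min (n.factorization p) K = i), p ^ n.factorization p = n
    rw [h1, Finset.filter_true_of_mem, CdB_prod_pow n hn]
    intro p hp
    have h2 := U.fac_pos hp
    rw [Finset.mem_Icc]
    omega

/-- the odd part is at most the radical without the parts of exponent 2 and 4 -/
theorem oddp_le (n : ℕ) (hn : n ≠ 0) : oddp n * (xpart n 2 * xpart n 4) ≤ rd n := by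
  classical
  unfold oddp xpart rd
  have h1 : Disjoint (n.primeFactors.filter (fun p => n.factorization p = 2))
      (n.primeFactors.filter (fun p => n.factorization p = 4)) := by
    rw [Finset.disjoint_left]
    intro p h2 h3
    have h4 := (Finset.mem_filter.1 h2).2
    have h5 := (Finset.mem_filter.1 h3).2
    omega
  have h2 : Disjoint (n.primeFactors.filter (fun p => Odd (n.factorization p)))
      (n.primeFactors.filter (fun p => n.factorization p = 2) ∪
        n.primeFactors.filter (fun p => n.factorization p = 4)) := by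
    rw [Finset.disjoint_left]
    intro p h2 h3
    have h4 := (Finset.mem_filter.1 h2).2
    rcases Finset.mem_union.1 h3 with h5 | h5
    · rw [(Finset.mem_filter.1 h5).2] at h4
      exact absurd h4 (by decide)
    · rw [(Finset.mem_filter.1 h5).2] at h4
      exact absurd h4 (by decide)
  rw [← Finset.prod_union h1, ← Finset.prod_union h2]
  refine Finset.prod_le_prod_of_subset_of_one_le' ?_ fun p hp _ =>
    (Nat.prime_of_mem_primeFactors hp).one_le
  exact Finset.union_subset (Finset.filter_subset _ _)
    (Finset.union_subset (Finset.filter_subset _ _) (Finset.filter_subset _ _))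

end Pool.Agent.Lib.MP_d8bd92_nt.Fh
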