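import Pool.Agent.Lib.MP_d8bd92_nt.Fh.GDefs
import Pool.Agent.Lib.MP_d8bd92_nt.Fh.S
import Pool.Agent.Lib.MP_d8bd92_nt.Fh.U

set_option autoImplicit false

/-! Row G5: the structure of one number. -/

namespace Pool.Agent.Lib.MP_d8bd92_nt.Fh

open Finset Pool.Agent.Lib.Szpiro

namespace G5

theorem erase_left (a K : ℕ) : (Icc a K).erase a = Icc (a + 1) K := by
  ext x
  simp only [Finset.mem_erase, Finset.mem_Icc]
  omega

theorem split (f : ℕ → ℝ) (a K : ℕ) (h : a ≤ K) :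
    ∑ i ∈ Icc a K, f i = f a + ∑ i ∈ Icc (a + 1) K, f i := by
  rw [← erase_left]
  exact (Finset.add_sum_erase _ _ (Finset.left_mem_Icc.mpr h)).symm

/-- one part is used or not -/
theorem step (Y : ℝ) (n : ℕ) (Z W : ℕ → ℝ) (R : Finset ℕ) (ρ D : ℝ) (a : ℕ) (ha : a ∈ R)
    (h : ∀ S ⊆ R, SN Y n (ρ + ∑ i ∈ S, Z i) (D + ∑ i ∈ S, W i)) (e : ℝ) (he : Opt.B01 e) :
    ∀ S ⊆ R.erase a, SN Y n (ρ + e * Z a + ∑ i ∈ S, Z i) (D + e * W a + ∑ i ∈ S, W i) := by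
  classical
  intro S hS
  rcases he with rfl | rfl
  · have h1 := h S (hS.trans (Finset.erase_subset _ _))
    simpa using h1
  · have haS : a ∉ S := fun h1 => Finset.notMem_erase a R (hS h1)
    have h1 := h (insert a S) (Finset.insert_subset ha (hS.trans (Finset.erase_subset _ _)))
    rw [Finset.sum_insert haS, Finset.sum_insert haS, ← add_assoc, ← add_assoc] at h1
    simpa using h1

/-- the end of the proof in all cases -/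
theorem block (Y κ P J d A B z1 z2 z3 z4 : ℝ) (K n : ℕ) (Z W : ℕ → ℝ) (R : Finset ℕ)
    (hJ : 1 ≤ J) (hK : 6 ≤ K) (hKκ : 12 * κ ≤ K) (hP' : P < 5 / 6)
    (hZ0 : ∀ i, 0 ≤ Z i) (hW0 : ∀ i, 0 ≤ W i) (hRK : ∀ i ∈ R, 1 ≤ i ∧ i ≤ K ∧ J ≤ (i : ℝ))
    (hiZ : ∀ i ∈ R, (i : ℝ) * Z i ≤ W i) (hx : ∀ i, 1 ≤ i → i < K → Z i = lx Y n i)
    (hA : A = z1 + z2 + z3 + z4 + ∑ i ∈ R, Z i)
    (hB : B = z1 + 2 * z2 + 3 * z3 + 4 * z4 + ∑ i ∈ R, W i)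
    (hz : 0 ≤ z1 ∧ 0 ≤ z2 ∧ 0 ≤ z3 ∧ 0 ≤ z4) (hBκ : B ≤ κ)
    (hS : ∀ e1 e2 e3 e4 : ℝ, Opt.B01 e1 → Opt.B01 e2 → Opt.B01 e3 → Opt.B01 e4 → ∀ S ⊆ R,
      SN Y n (e1 * z1 + e2 * z2 + e3 * z3 + e4 * z4 + ∑ i ∈ S, Z i)
        (e1 * z1 + 2 * (e2 * z2) + 3 * (e3 * z3) + 4 * (e4 * z4) + ∑ i ∈ S, W i))
    (htail : ∑ i ∈ R, W i ≤ d ∨
      ∃ i ∈ R, P ≤ W i ∧ 7 / 12 - P / 2 ≤ Z i ∧ ∑ j ∈ R.erase i, W j ≤ d) :
    ∃ t w m v : ℝ, (0 ≤ t ∧ 0 ≤ w ∧ 0 ≤ m ∧ 0 ≤ v) ∧ A = z1 + z2 + z3 + z4 + t + m ∧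
      B = z1 + 2 * z2 + 3 * z3 + 4 * z4 + w + v ∧ (J * t ≤ w ∧ w ≤ d ∧
      ((m = 0 ∧ v = 0) ∨ (J * m ≤ v ∧ P ≤ v ∧ 7 / 12 - P / 2 ≤ m ∧ KN Y K n J m))) ∧
      ∀ e1 e2 e3 e4 e5 e6 : ℝ, Opt.B01 e1 → Opt.B01 e2 → Opt.B01 e3 → Opt.B01 e4 → Opt.B01 e5 →
        Opt.B01 e6 → SN Y n (e1 * z1 + e2 * z2 + e3 * z3 + e4 * z4 + e5 * t + e6 * m)
          (e1 * z1 + 2 * (e2 * z2) + 3 * (e3 * z3) + 4 * (e4 * z4) + e5 * w + e6 * v) := by
  classical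
  have hJZ : ∀ i ∈ R, J * Z i ≤ W i := by
    intro i hi
    exact (mul_le_mul_of_nonneg_right (hRK i hi).2.2 (hZ0 i)).trans (hiZ i hi)
  obtain ⟨hz1, hz2, hz3, hz4⟩ := hz
  rcases htail with h | ⟨i, hi, h1, h2, h3⟩
  · refine ⟨∑ i ∈ R, Z i, ∑ i ∈ R, W i, 0, 0,
      ⟨Finset.sum_nonneg fun i _ => hZ0 i, Finset.sum_nonneg fun i _ => hW0 i, le_rfl, le_rfl⟩,
      by rw [hA]; ring, by rw [hB]; ring, ⟨?_, h, Or.inl ⟨rfl, rfl⟩⟩, ?_⟩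
    · rw [Finset.mul_sum]
      exact Finset.sum_le_sum hJZ
    · intro e1 e2 e3 e4 e5 e6 g1 g2 g3 g4 g5 _
      rcases g5 with rfl | rfl
      · have h4 := hS e1 e2 e3 e4 g1 g2 g3 g4 ∅ (Finset.empty_subset _)
        simpa using h4
      · have h4 := hS e1 e2 e3 e4 g1 g2 g3 g4 R (Finset.Subset.refl _)
        simpa using h4
  · have hiK : i < K := by
      by_contra hc
      have h4 := hRK i hi
      have h5 : i = K := by omega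
      have h6 := hiZ i hi
      rw [h5] at h2 h6
      have h7 : W K ≤ B := by
        have h8 : W i ≤ ∑ j ∈ R, W j := Finset.single_le_sum (fun j _ => hW0 j) hi
        rw [h5] at h8
        rw [hB]
        linarith
      have hK0 : (0 : ℝ) < K := by
        have : 0 < K := by omega
        exact_mod_cast this
      have h9 : (K : ℝ) * (1 / 12) < K * Z K := by
        refine mul_lt_mul_of_pos_left ?_ hK0
        linarith
      linarith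
    have hZi := Finset.add_sum_erase R Z hi
    have hWi := Finset.add_sum_erase R W hi
    refine ⟨∑ j ∈ R.erase i, Z j, ∑ j ∈ R.erase i, W j, Z i, W i,
      ⟨Finset.sum_nonneg fun i _ => hZ0 i, Finset.sum_nonneg fun i _ => hW0 i, hZ0 i, hW0 i⟩,
      by rw [hA, ← hZi]; ring, by rw [hB, ← hWi]; ring,
      ⟨?_, h3, Or.inr ⟨hJZ i hi, h1, h2, hJ, i, (hRK i hi).1, hiK, (hRK i hi).2.2,
        hx i (hRK i hi).1 hiK⟩⟩, ?_⟩
    · rw [Finset.mul_sum]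
      exact Finset.sum_le_sum fun j hj => hJZ j (Finset.mem_of_mem_erase hj)
    · intro e1 e2 e3 e4 e5 e6 g1 g2 g3 g4 g5 g6
      have h4 := step Y n Z W R _ _ i hi (hS e1 e2 e3 e4 g1 g2 g3 g4) e6 g6
      rcases g5 with rfl | rfl
      · have h5 := h4 ∅ (Finset.empty_subset _)
        simpa using h5
      · have h5 := h4 (R.erase i) (Finset.Subset.refl _)
        rw [one_mul, one_mul]
        convert h5 using 1 <;> ring

end G5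

theorem side (Y κ θ P : ℝ) (K n : ℕ) (hY : 1 < Y) (hK : 6 ≤ K) (hKκ : 12 * κ ≤ K)
    (hn : n ≠ 0) (hnY : (n : ℝ) ≤ Y ^ κ) (hP : 7 / 12 ≤ P) (hP' : P < 5 / 6)
    (hr : lr Y n + P ≤ 1) (hθ : 7 / 12 ≤ θ) (hX : ∀ ρ D, SN Y n ρ D → XF θ P ρ D) :
    ∃ z1 z2 z3 z4 t w m v : ℝ, (0 ≤ z1 ∧ 0 ≤ z2 ∧ 0 ≤ z3 ∧ 0 ≤ z4 ∧ 0 ≤ t ∧ 0 ≤ w ∧ 0 ≤ m ∧ 0 ≤ v) ∧
      lr Y n = z1 + z2 + z3 + z4 + t + m ∧ lh Y n = z1 + 2 * z2 + 3 * z3 + 4 * z4 + w + v ∧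
      (z1 = lx Y n 1 ∧ z2 = lx Y n 2 ∧ z3 = lx Y n 3 ∧ z4 ≤ lx Y n 4) ∧
      Opt.SideCase P z4 t w m v (KN Y K n) ∧
      ∀ e1 e2 e3 e4 e5 e6 : ℝ, Opt.B01 e1 → Opt.B01 e2 → Opt.B01 e3 → Opt.B01 e4 → Opt.B01 e5 →
        Opt.B01 e6 → SN Y n (e1 * z1 + e2 * z2 + e3 * z3 + e4 * z4 + e5 * t + e6 * m)
          (e1 * z1 + 2 * (e2 * z2) + 3 * (e3 * z3) + 4 * (e4 * z4) + e5 * w + e6 * v) := by
  classical
  obtain ⟨y, hy1, hy2, hy3, hy4, hy5⟩ := parts n K hn (by omega)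
  have hL : 0 < Real.log Y := Real.log_pos hY
  have hrd1 : ∀ i, (1 : ℝ) ≤ (rd (y i) : ℝ) := by
    intro i
    have h := Pool.Agent.Lib.Szpiro.rd_pos (y i)
    exact_mod_cast h
  have hy1' : ∀ i, (1 : ℝ) ≤ (y i : ℝ) := fun i => by exact_mod_cast hy1 i
  obtain ⟨Z, hZ⟩ : ∃ Z : ℕ → ℝ, ∀ i, Z i = lr Y (y i) := ⟨_, fun _ => rfl⟩
  obtain ⟨W, hW⟩ : ∃ W : ℕ → ℝ, ∀ i, W i = lh Y (y i) := ⟨_, fun _ => rfl⟩
  have hZ0 : ∀ i, 0 ≤ Z i := fun i => by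
    rw [hZ]
    exact div_nonneg (Real.log_nonneg (hrd1 i)) hL.le
  have hW0 : ∀ i, 0 ≤ W i := fun i => by
    rw [hW]
    exact div_nonneg (Real.log_nonneg (hy1' i)) hL.le
  have hlrS : ∀ S ⊆ Icc 1 K, lr Y (∏ i ∈ S, y i) = ∑ i ∈ S, Z i := by
    intro S hS
    unfold lr
    rw [(hy4 S hS).2]
    push_cast
    rw [Real.log_prod (fun i _ => by have := hrd1 i; positivity), Finset.sum_div]
    exact Finset.sum_congr rfl fun i _ => (hZ i).symm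
  have hlhS : ∀ S ⊆ Icc 1 K, lh Y (∏ i ∈ S, y i) = ∑ i ∈ S, W i := by
    intro S _
    unfold lh
    push_cast
    rw [Real.log_prod (fun i _ => by have := hy1' i; positivity), Finset.sum_div]
    exact Finset.sum_congr rfl fun i _ => (hW i).symm
  have hSN : ∀ S ⊆ Icc 1 K, SN Y n (∑ i ∈ S, Z i) (∑ i ∈ S, W i) := by
    intro S hS
    refine ⟨∏ i ∈ S, y i, (hy4 S hS).1, ?_, (hlrS S hS).symm, (hlhS S hS).symm⟩
    exact Finset.prod_ne_zero_iff.mpr fun i _ => by have := hy1 i; omega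
  have hlr : lr Y n = ∑ i ∈ Icc 1 K, Z i := by
    rw [← hlrS _ (Finset.Subset.refl _), hy5]
  have hlh : lh Y n = ∑ i ∈ Icc 1 K, W i := by
    rw [← hlhS _ (Finset.Subset.refl _), hy5]
  have hx : ∀ i, 1 ≤ i → i < K → Z i = lx Y n i := by
    intro i h1 h2
    rw [hZ]
    unfold lr lx
    rw [(hy2 i h1 h2).2]
  have hxW : ∀ i, 1 ≤ i → i < K → W i = i * Z i := by
    intro i h1 h2
    rw [hx i h1 h2, hW]
    unfold lh lx
    rw [(hy2 i h1 h2).1]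
    push_cast
    rw [Real.log_pow, mul_div_assoc]
  have hiZ : ∀ i ∈ Icc 1 K, (i : ℝ) * Z i ≤ W i := by
    intro i hi
    rw [hZ, hW]
    unfold lr lh
    rw [← mul_div_assoc, ← Real.log_pow]
    refine div_le_div_of_nonneg_right (Real.log_le_log ?_ ?_) hL.le
    · have := hrd1 i
      positivity
    · exact_mod_cast hy3 i hi
  have hκ : lh Y n ≤ κ := by
    unfold lh
    rw [div_le_iff₀ hL, ← Real.log_rpow (by linarith)]
    refine Real.log_le_log ?_ hnY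
    have : 0 < n := Nat.pos_of_ne_zero hn
    exact_mod_cast this
  have hsub4 : Icc 4 K ⊆ Icc 1 K := Finset.Icc_subset_Icc (by norm_num) le_rfl
  have hsub5 : Icc 5 K ⊆ Icc 1 K := Finset.Icc_subset_Icc (by norm_num) le_rfl
  have hW1 : W 1 = Z 1 := by rw [hxW 1 (by norm_num) (by omega)]; norm_num
  have hW2 : W 2 = 2 * Z 2 := by rw [hxW 2 (by norm_num) (by omega)]; norm_num
  have hW3 : W 3 = 3 * Z 3 := by rw [hxW 3 (by norm_num) (by omega)]; norm_num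
  have hW4 : W 4 = 4 * Z 4 := by rw [hxW 4 (by norm_num) (by omega)]; norm_num
  have hdec : ∀ f : ℕ → ℝ, ∑ i ∈ Icc 1 K, f i = f 1 + f 2 + f 3 + ∑ i ∈ Icc 4 K, f i := by
    intro f
    rw [G5.split f 1 K (by omega), G5.split f (1 + 1) K (by omega),
      G5.split f (1 + 1 + 1) K (by omega)]
    ring
  have hSe : ∀ e1 e2 e3 : ℝ, Opt.B01 e1 → Opt.B01 e2 → Opt.B01 e3 → ∀ S ⊆ Icc 4 K,
      SN Y n (e1 * Z 1 + e2 * Z 2 + e3 * Z 3 + ∑ i ∈ S, Z i)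
        (e1 * Z 1 + 2 * (e2 * Z 2) + 3 * (e3 * Z 3) + ∑ i ∈ S, W i) := by
    intro e1 e2 e3 g1 g2 g3 S hS
    have s0 : ∀ S ⊆ Icc 1 K, SN Y n (0 + ∑ i ∈ S, Z i) (0 + ∑ i ∈ S, W i) := by
      intro S hS
      rw [zero_add, zero_add]
      exact hSN S hS
    have s1 := G5.step Y n Z W _ _ _ 1 (Finset.mem_Icc.mpr ⟨le_rfl, by omega⟩) s0 e1 g1
    rw [G5.erase_left] at s1
    have s2 := G5.step Y n Z W _ _ _ 2 (Finset.mem_Icc.mpr ⟨le_rfl, by omega⟩) s1 e2 g2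
    rw [G5.erase_left] at s2
    have s3 := G5.step Y n Z W _ _ _ 3 (Finset.mem_Icc.mpr ⟨le_rfl, by omega⟩) s2 e3 g3
    rw [G5.erase_left] at s3
    have s4 := s3 S hS
    rw [hW1, hW2, hW3] at s4
    convert s4 using 1 <;> ring
  have hXF : ∀ S ⊆ Icc 1 K, XF (7 / 12) P (∑ i ∈ S, Z i) (∑ i ∈ S, W i) := by
    intro S hS
    rcases hX _ _ (hSN S hS) with h | h | h | h | h
    · exact Or.inl (by linarith)
    · exact Or.inr (Or.inl (by linarith))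
    · exact Or.inr (Or.inr (Or.inl (by linarith)))
    · exact Or.inr (Or.inr (Or.inr (Or.inl (by linarith))))
    · exact Or.inr (Or.inr (Or.inr (Or.inr (by linarith))))
  have hrS : ∀ S ⊆ Icc 1 K, ∑ i ∈ S, Z i + P ≤ 1 := by
    intro S hS
    have h1 : ∑ i ∈ S, Z i ≤ ∑ i ∈ Icc 1 K, Z i :=
      Finset.sum_le_sum_of_subset_of_nonneg hS fun i _ _ => hZ0 i
    rw [hlr] at hr
    linarith
  have hx4 : Z 4 = lx Y n 4 := hx 4 (by norm_num) (by omega)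
  rcases le_total P (7 / 9) with hc | hc
  · have ht := tail4 (Icc 4 K) P W Z hP hc (fun i _ => hZ0 i) (by
      intro i hi
      have h1 := hiZ i (hsub4 hi)
      have h2 : (4 : ℝ) ≤ i := by exact_mod_cast (Finset.mem_Icc.mp hi).1
      have h3 := mul_le_mul_of_nonneg_right h2 (hZ0 i)
      linarith) (hrS _ hsub4) (fun S hS => hXF S (hS.trans hsub4))
    obtain ⟨t, w, m, v, ⟨n1, n2, n3, n4⟩, eA, eB, ⟨k1, k2, k3⟩, hfin⟩ :=
      G5.block Y κ P 4 (20 / 13 * (P - 7 / 12)) (lr Y n) (lh Y n) (Z 1) (Z 2) (Z 3) 0 K n Z W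
        (Icc 4 K) (by norm_num) hK hKκ hP' hZ0 hW0 (by
          intro i hi
          have h1 := Finset.mem_Icc.mp hi
          exact ⟨by omega, h1.2, by exact_mod_cast h1.1⟩) (fun i hi => hiZ i (hsub4 hi)) hx
        (by rw [hlr, hdec Z]; ring) (by rw [hlh, hdec W, hW1, hW2, hW3]; ring)
        ⟨hZ0 1, hZ0 2, hZ0 3, le_rfl⟩ hκ (by
          intro e1 e2 e3 e4 g1 g2 g3 _ S hS
          have h1 := hSe e1 e2 e3 g1 g2 g3 S hS
          simpa using h1) ht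
    refine ⟨Z 1, Z 2, Z 3, 0, t, w, m, v, ⟨hZ0 1, hZ0 2, hZ0 3, le_rfl, n1, n2, n3, n4⟩, eA, eB,
      ⟨hx 1 (by norm_num) (by omega), hx 2 (by norm_num) (by omega),
        hx 3 (by norm_num) (by omega), ?_⟩, Or.inl ⟨hc, rfl, k1, k2, k3⟩, hfin⟩
    rw [← hx4]
    exact hZ0 4
  · have ht := tail5 (Icc 5 K) P W Z hc hP'.le (fun i _ => hZ0 i) (by
      intro i hi
      have h1 := hiZ i (hsub5 hi)
      have h2 : (5 : ℝ) ≤ i := by exact_mod_cast (Finset.mem_Icc.mp hi).1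
      have h3 := mul_le_mul_of_nonneg_right h2 (hZ0 i)
      linarith) (hrS _ hsub5) (fun S hS => hXF S (hS.trans hsub5))
    have hdec5 : ∀ f : ℕ → ℝ, ∑ i ∈ Icc 1 K, f i =
        f 1 + f 2 + f 3 + f 4 + ∑ i ∈ Icc 5 K, f i := by
      intro f
      rw [hdec f, G5.split f 4 K (by omega)]
      ring
    obtain ⟨t, w, m, v, ⟨n1, n2, n3, n4⟩, eA, eB, ⟨k1, k2, k3⟩, hfin⟩ :=
      G5.block Y κ P 5 (65 / 36 * P - 245 / 216) (lr Y n) (lh Y n) (Z 1) (Z 2) (Z 3) (Z 4) K n Z W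
        (Icc 5 K) (by norm_num) hK hKκ hP' hZ0 hW0 (by
          intro i hi
          have h1 := Finset.mem_Icc.mp hi
          exact ⟨by omega, h1.2, by exact_mod_cast h1.1⟩) (fun i hi => hiZ i (hsub5 hi)) hx
        (by rw [hlr, hdec5 Z]) (by rw [hlh, hdec5 W, hW1, hW2, hW3, hW4])
        ⟨hZ0 1, hZ0 2, hZ0 3, hZ0 4⟩ hκ (by
          intro e1 e2 e3 e4 g1 g2 g3 g4 S hS
          have h1 := G5.step Y n Z W (Icc 4 K) _ _ 4 (Finset.mem_Icc.mpr ⟨le_rfl, by omega⟩)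
            (hSe e1 e2 e3 g1 g2 g3) e4 g4
          rw [G5.erase_left] at h1
          have h2 := h1 S hS
          rw [hW4] at h2
          convert h2 using 1
          ring) ht
    exact ⟨Z 1, Z 2, Z 3, Z 4, t, w, m, v, ⟨hZ0 1, hZ0 2, hZ0 3, hZ0 4, n1, n2, n3, n4⟩, eA, eB,
      ⟨hx 1 (by norm_num) (by omega), hx 2 (by norm_num) (by omega),
        hx 3 (by norm_num) (by omega), hx4.le⟩,
      Or.inr ⟨hc, ⟨by norm_num, 4, by norm_num, by omega, by norm_num, hx4⟩, k1, k2, k3⟩, hfin⟩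

end Pool.Agent.Lib.MP_d8bd92_nt.Fh
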