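import Pool.Agent.Lib.MP_d8bd92_nt.Fh.G1
import Pool.Agent.Lib.MP_d8bd92_nt.Fh.G2
import Pool.Agent.Lib.MP_d8bd92_nt.Fh.G3
import Pool.Agent.Lib.MP_d8bd92_nt.Fh.G4
import Pool.Agent.Lib.MP_d8bd92_nt.Fh.G5
import Pool.Agent.Lib.MP_d8bd92_nt.Fh.Opt.Main
import Pool.Agent.Lib.MP_d8bd92_nt.LgP

set_option autoImplicit false

/-! The pointwise statement: every pair is in one of the events. -/

namespace Pool.Agent.Lib.MP_d8bd92_nt.Fh

open Finset Pool.Agent.Lib.Szpiro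

theorem lx_nonneg (Y : ℝ) (hY : 1 < Y) (n i : ℕ) : 0 ≤ lx Y n i := by
  have h : (1 : ℝ) ≤ (xpart n i : ℝ) := by exact_mod_cast xpart_pos n i
  exact div_nonneg (Real.log_nonneg h) (Real.log_pos hY).le

/-- the total radical -/
theorem tot_le (Y : ℝ) (hY : 1 < Y) (a b : ℕ) (ha : 1 ≤ a) (hb : 1 ≤ b) (hc : Nat.Coprime a b)
    (h : (rd (a * b * (a + b)) : ℝ) ≤ Y) : lr Y a + lr Y b + lr Y (a + b) ≤ 1 := by
  have hL : 0 < Real.log Y := Real.log_pos hY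
  rw [LgP.rd_triple a b ha hb hc] at h
  have h1 : (0 : ℝ) < (rd a : ℝ) := by exact_mod_cast rd_pos a
  have h2 : (0 : ℝ) < (rd b : ℝ) := by exact_mod_cast rd_pos b
  have h3 : (0 : ℝ) < (rd (a + b) : ℝ) := by exact_mod_cast rd_pos (a + b)
  have h4 := Real.log_le_log (by positivity) h
  rw [Real.log_mul (by positivity) h3.ne', Real.log_mul h1.ne' h2.ne'] at h4
  unfold lr
  rw [← add_div, ← add_div, div_le_one hL]
  exact h4

theorem cases (κ η : ℝ) (hκ : 1 ≤ κ) (hη : 0 < η) : ∃ (K : ℕ) (Y₀ : ℝ), 2 ≤ K ∧ 1 ≤ Y₀ ∧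
    ∀ (Y : ℝ) (a b : ℕ), Y₀ ≤ Y → 1 ≤ a → 1 ≤ b → a ≤ b → Nat.Coprime a b →
    ((a + b : ℕ) : ℝ) ≤ Y ^ κ → (rd (a * b * (a + b)) : ℝ) ≤ Y →
    Y ^ (1 / 2 - 1 / 10000 : ℝ) ≤ ((a + b : ℕ) : ℝ) → Ev K (Y ^ (7 / 12 + η)) a b := by
  set e : ℝ := min (η / 10) (1 / 1000) with he
  have he0 : 0 < e := lt_min (by positivity) (by norm_num)
  have he1 : e ≤ 1 / 1000 := min_le_right _ _
  have he2 : 10 * e ≤ η := by
    have := min_le_left (η / 10) (1 / 1000)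
    linarith
  have hY₀ : (1 : ℝ) < (2 : ℝ) ^ (1 / e) := Real.one_lt_rpow (by norm_num) (by positivity)
  refine ⟨⌈12 * κ⌉₊ + 6, (2 : ℝ) ^ (1 / e), by omega, hY₀.le, ?_⟩
  set K : ℕ := ⌈12 * κ⌉₊ + 6 with hK
  have hK6 : 6 ≤ K := by omega
  have hKκ : 12 * κ ≤ K := by
    have := Nat.le_ceil (12 * κ)
    rw [hK]
    push_cast
    linarith
  intro Y a b hYY ha hb hab hc hκ' hrd hbig
  have hY : 1 < Y := hY₀.trans_le hYY
  have hY0 : 0 < Y := by linarith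
  have hL : 0 < Real.log Y := Real.log_pos hY
  -- log 2 / log Y ≤ e
  have hlog2 : Real.log 2 ≤ e * Real.log Y := by
    have h1 := Real.log_le_log (by positivity) hYY
    rw [Real.log_rpow (by norm_num)] at h1
    have h2 : e * (1 / e * Real.log 2) ≤ e * Real.log Y := mul_le_mul_of_nonneg_left h1 he0.le
    have h3 : e * (1 / e * Real.log 2) = Real.log 2 := by field_simp
    linarith
  have ha0 : (0 : ℝ) < a := by exact_mod_cast (by omega : 0 < a)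
  have hb0 : (0 : ℝ) < b := by exact_mod_cast (by omega : 0 < b)
  have hc0 : (0 : ℝ) < ((a + b : ℕ) : ℝ) := by exact_mod_cast (by omega : 0 < a + b)
  by_contra hno
  unfold Ev at hno
  push Not at hno
  obtain ⟨n1, n2, n3, n4, n5, n6, n7⟩ := hno
  set θ : ℝ := 7 / 12 + η with hθ
  obtain ⟨hTab, hTac, hTbc⟩ := one_of_not Y θ hY a b n1
  obtain ⟨xa, xb, xc⟩ := mod_of_not Y θ hY a b ha hb hc n2 n3 n4
  have htot := tot_le Y hY a b ha hb hc hrd
  have hle : ∀ m n : ℕ, 1 ≤ m → m ≤ n → lh Y m ≤ lh Y n := by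
    intro m n hm hmn
    unfold lh
    apply div_le_div_of_nonneg_right _ hL.le
    exact Real.log_le_log (by exact_mod_cast hm) (by exact_mod_cast hmn)
  have haκ : (a : ℝ) ≤ Y ^ κ := le_trans (by exact_mod_cast (by omega : a ≤ a + b)) hκ'
  have hbκ : (b : ℝ) ≤ Y ^ κ := le_trans (by exact_mod_cast (by omega : b ≤ a + b)) hκ'
  obtain ⟨a1, a2, a3, a4, a5, aw, am, av, ⟨na1, na2, na3, na4, na5, naw, nam, nav⟩, era, eha,
    ⟨la1, la2, la3, la4⟩, sa, da⟩ := side Y κ θ (lr Y b + lr Y (a + b)) K a hY hK6 hKκ (by omega)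
      haκ (by linarith) (by linarith) (by linarith) (by linarith) xa
  obtain ⟨b1, b2, b3, b4, b5, bw, bm, bv, ⟨nb1, nb2, nb3, nb4, nb5, nbw, nbm, nbv⟩, erb, ehb,
    ⟨lb1, lb2, lb3, lb4⟩, sb, db⟩ := side Y κ θ (lr Y a + lr Y (a + b)) K b hY hK6 hKκ (by omega)
      hbκ (by linarith) (by linarith) (by linarith) (by linarith) xb
  obtain ⟨c1, c2, c3, c4, c5, cw, cm, cv, ⟨nc1, nc2, nc3, nc4, nc5, ncw, ncm, ncv⟩, erc, ehc,
    ⟨lc1, lc2, lc3, lc4⟩, sc, dc⟩ := side Y κ θ (lr Y a + lr Y b) K (a + b) hY hK6 hKκ (by omega)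
      hκ' (by linarith) (by linarith) (by linarith) (by linarith) xc
  -- roles
  have rab : Role a b (-1) a b (a + b) := Or.inl ⟨rfl, Or.inl ⟨rfl, rfl⟩, rfl⟩
  have rba : Role a b (-1) b a (a + b) := Or.inl ⟨rfl, Or.inr ⟨rfl, rfl⟩, rfl⟩
  have rac : Role a b 1 a (a + b) b := Or.inr (Or.inl ⟨rfl, Or.inl ⟨rfl, rfl⟩, rfl⟩)
  have rca : Role a b 1 (a + b) a b := Or.inr (Or.inl ⟨rfl, Or.inr ⟨rfl, rfl⟩, rfl⟩)
  have rbc : Role a b 1 b (a + b) a := Or.inr (Or.inr ⟨rfl, Or.inl ⟨rfl, rfl⟩, rfl⟩)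
  have rcb : Role a b 1 (a + b) b a := Or.inr (Or.inr ⟨rfl, Or.inr ⟨rfl, rfl⟩, rfl⟩)
  have sq := fun s m n l => sq_of_not Y θ hY a b ha hb n5 s m n l
  have cu := fun s m n l => cur_of_not Y θ K hY a b ha hb n7 s m n l
  have k1 : ∀ n : ℕ, KN Y K n 1 (lx Y n 1) := fun n =>
    ⟨le_rfl, 1, le_rfl, by omega, by norm_num, rfl⟩
  have k2 : ∀ n : ℕ, KN Y K n 2 (lx Y n 2) := fun n =>
    ⟨by norm_num, 2, by norm_num, by omega, by norm_num, rfl⟩
  have k3 : ∀ n : ℕ, KN Y K n 3 (lx Y n 3) := fun n =>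
    ⟨by norm_num, 3, by norm_num, by omega, by norm_num, rfl⟩
  refine Opt.opt (θ := θ) (e := e) (ra := lr Y a) (rb := lr Y b) (rc := lr Y (a + b))
    (ha := lh Y a) (hb := lh Y b) (hc := lh Y (a + b)) (KA := KN Y K a) (KB := KN Y K b)
    (KC := KN Y K (a + b)) (SA := SN Y a) (SB := SN Y b) (SC := SN Y (a + b))
    { era := era, erb := erb, erc := erc, eha := eha, ehb := ehb, ehc := ehc
      na1 := na1, na2 := na2, na3 := na3, na4 := na4, na5 := na5, naw := naw, nam := nam,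
      nav := nav
      nb1 := nb1, nb2 := nb2, nb3 := nb3, nb4 := nb4, nb5 := nb5, nbw := nbw, nbm := nbm,
      nbv := nbv
      nc1 := nc1, nc2 := nc2, nc3 := nc3, nc4 := nc4, nc5 := nc5, ncw := ncw, ncm := ncm,
      ncv := ncv
      he := he0.le, he1 := he1, hθ := by rw [hθ]; linarith
      htot := htot
      hbc := hle b (a + b) hb (by omega)
      hcb := ?_
      hab := hle a b ha hab
      hlo := ?_
      hTab := hTab, hTac := hTac, hTbc := hTbc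
      hNa := ?_, hNb := ?_, hNc := ?_
      hBab := ?_, hBac := ?_, hBba := ?_, hBbc := ?_, hBca := ?_, hBcb := ?_
      hXa := xa, hXb := xb, hXc := xc
      hL := fun ρ₁ D₁ ρ₂ D₂ ρ₃ D₃ => lat_of_not Y θ hY a b ha hb n6 ρ₁ D₁ ρ₂ D₂ ρ₃ D₃
      hSa := da, hSb := db, hSc := dc
      ka1 := la1 ▸ k1 a, ka2 := la2 ▸ k2 a, ka3 := la3 ▸ k3 a
      kb1 := lb1 ▸ k1 b, kb2 := lb2 ▸ k2 b, kb3 := lb3 ▸ k3 b
      kc1 := lc1 ▸ k1 (a + b), kc2 := lc2 ▸ k2 (a + b), kc3 := lc3 ▸ k3 (a + b) } sa sb sc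
  · have h1 : Real.log ((a + b : ℕ) : ℝ) ≤ Real.log 2 + Real.log b := by
      rw [← Real.log_mul (by norm_num) hb0.ne']
      apply Real.log_le_log hc0
      push_cast
      have : (a : ℝ) ≤ b := by exact_mod_cast hab
      linarith
    unfold lh
    rw [div_le_iff₀ hL, add_mul, div_mul_cancel₀ _ hL.ne']
    linarith
  · have h1 : Real.log ((a + b : ℕ) : ℝ) ≤ Real.log 2 + Real.log b := by
      rw [← Real.log_mul (by norm_num) hb0.ne']
      apply Real.log_le_log hc0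
      push_cast
      have : (a : ℝ) ≤ b := by exact_mod_cast hab
      linarith
    have h2 := Real.log_le_log (Real.rpow_pos_of_pos hY0 _) hbig
    rw [Real.log_rpow hY0] at h2
    unfold lh
    rw [le_div_iff₀ hL]
    have h3 : e * Real.log Y ≤ 1 / 1000 * Real.log Y := mul_le_mul_of_nonneg_right he1 hL.le
    linarith
  · have h := sq 1 b (a + b) a rbc
    rw [← lb2, ← lc2] at h
    linarith
  · have h := sq 1 a (a + b) b rac
    rw [← la2, ← lc2] at h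
    linarith
  · have h := sq (-1) a b (a + b) rab
    rw [← la2, ← lb2] at h
    linarith
  · intro j x k z h₁ h₂
    exact cu (-1) a b (a + b) rab j x k z h₁ h₂
  · intro j x k z h₁ h₂
    have h := cu 1 a (a + b) b rac j x k z h₁ h₂
    linarith
  · intro j x k z h₁ h₂
    have h := cu (-1) b a (a + b) rba j x k z h₁ h₂
    linarith
  · intro j x k z h₁ h₂
    have h := cu 1 b (a + b) a rbc j x k z h₁ h₂
    linarith
  · intro j x k z h₁ h₂
    have h := cu 1 (a + b) a b rca j x k z h₁ h₂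
    linarith
  · intro j x k z h₁ h₂
    have h := cu 1 (a + b) b a rcb j x k z h₁ h₂
    linarith

end Pool.Agent.Lib.MP_d8bd92_nt.Fh
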