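import Pool.Agent.Lib.MP_d8bd92_nt.Fh.GDefs
import Pool.Agent.Lib.MP_d8bd92_nt.Fh.U

set_option autoImplicit false

/-! Row G1: the failure of `EvOne` and of `EvSq`. -/

namespace Pool.Agent.Lib.MP_d8bd92_nt.Fh

open Finset Pool.Agent.Lib.Szpiro

namespace G1

theorem oddp_pos (m : ℕ) : 0 < oddp m :=
  Finset.prod_pos fun _ hp => (Nat.prime_of_mem_primeFactors (Finset.mem_filter.1 hp).1).pos

theorem xpos (n k : ℕ) : 0 < xpart n k :=
  Finset.prod_pos fun _ hp => (Nat.prime_of_mem_primeFactors (Finset.mem_filter.1 hp).1).pos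

theorem rpos (n : ℕ) : (0 : ℝ) < (rd n : ℝ) := by
  have h : 0 < rd n := Finset.prod_pos fun _ hp => (Nat.prime_of_mem_primeFactors hp).pos
  exact_mod_cast h

/-- the failure of an inequality `x * y ≤ Y ^ θ` in logarithms -/
theorem key (Y θ : ℝ) (hY : 1 < Y) (x y : ℝ) (hx : 0 < x) (hy : 0 < y)
    (h : ¬ x * y ≤ Y ^ θ) : θ < Real.log x / Real.log Y + Real.log y / Real.log Y := by
  have hl : 0 < Real.log Y := Real.log_pos hY
  have h1 : Y ^ θ < x * y := not_le.1 h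
  have h2 : Real.log (Y ^ θ) < Real.log (x * y) :=
    Real.log_lt_log (Real.rpow_pos_of_pos (by linarith) θ) h1
  rw [Real.log_rpow (by linarith), Real.log_mul hx.ne' hy.ne'] at h2
  rw [← add_div, lt_div_iff₀ hl]
  exact h2

/-- the odd part in logarithms -/
theorem odd_log (Y : ℝ) (hY : 1 < Y) (m : ℕ) (hm : m ≠ 0) :
    Real.log (oddp m) / Real.log Y ≤ lr Y m - lx Y m 2 - lx Y m 4 := by
  have hl : 0 < Real.log Y := Real.log_pos hY
  have h1 := oddp_le m hm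
  have ho : (0 : ℝ) < (oddp m : ℝ) := by exact_mod_cast oddp_pos m
  have h2 : (0 : ℝ) < (xpart m 2 : ℝ) := by exact_mod_cast xpos m 2
  have h4 : (0 : ℝ) < (xpart m 4 : ℝ) := by exact_mod_cast xpos m 4
  have h5 : (oddp m : ℝ) * ((xpart m 2 : ℝ) * (xpart m 4 : ℝ)) ≤ (rd m : ℝ) := by
    exact_mod_cast h1
  have h6 := Real.log_le_log (by positivity) h5
  rw [Real.log_mul ho.ne' (by positivity), Real.log_mul h2.ne' h4.ne'] at h6
  unfold lr lx
  rw [← sub_div, ← sub_div]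
  exact div_le_div_of_nonneg_right (by linarith) hl.le

end G1

theorem one_of_not (Y θ : ℝ) (hY : 1 < Y) (a b : ℕ) (h : ¬ EvOne (Y ^ θ) a b) :
    θ < lr Y a + lr Y b ∧ θ < lr Y a + lr Y (a + b) ∧ θ < lr Y b + lr Y (a + b) := by
  unfold EvOne at h
  refine ⟨?_, ?_, ?_⟩
  · exact G1.key Y θ hY _ _ (G1.rpos a) (G1.rpos b) fun h1 => h (Or.inl h1)
  · exact G1.key Y θ hY _ _ (G1.rpos a) (G1.rpos (a + b)) fun h1 => h (Or.inr (Or.inl h1))
  · exact G1.key Y θ hY _ _ (G1.rpos b) (G1.rpos (a + b)) fun h1 => h (Or.inr (Or.inr h1))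

theorem sq_of_not (Y θ : ℝ) (hY : 1 < Y) (a b : ℕ) (ha : 1 ≤ a) (hb : 1 ≤ b)
    (h : ¬ EvSq (Y ^ θ) a b) (s : ℤ) (m n l : ℕ) (hr : Role a b s m n l) :
    θ < lr Y l + (lr Y m - lx Y m 2 - lx Y m 4) + (lr Y n - lx Y n 2 - lx Y n 4) := by
  have hmn : m ≠ 0 ∧ n ≠ 0 := by
    unfold Role at hr
    rcases hr with ⟨-, h1, -⟩ | ⟨-, h1, -⟩ | ⟨-, h1, -⟩ <;> rcases h1 with h1 | h1 <;>
      exact ⟨by omega, by omega⟩
  have hl : 0 < Real.log Y := Real.log_pos hY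
  have hom : (0 : ℝ) < (oddp m : ℝ) := by exact_mod_cast G1.oddp_pos m
  have hon : (0 : ℝ) < (oddp n : ℝ) := by exact_mod_cast G1.oddp_pos n
  have h1 := G1.key Y θ hY (rd l : ℝ) ((oddp m : ℝ) * (oddp n : ℝ)) (G1.rpos l)
    (mul_pos hom hon) fun h2 => h ⟨s, m, n, l, hr, h2⟩
  rw [Real.log_mul hom.ne' hon.ne', add_div] at h1
  have h3 := G1.odd_log Y hY m hmn.1
  have h4 := G1.odd_log Y hY n hmn.2
  have h5 : Real.log (rd l : ℝ) / Real.log Y = lr Y l := rfl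
  rw [h5] at h1
  linarith

end Pool.Agent.Lib.MP_d8bd92_nt.Fh
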