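import Pool.Agent.Lib.MP_d8bd92_nt.Fh.Defs
import Pool.Agent.Lib.MP_d8bd92_nt.Fh.Opt.Defs
import Pool.Agent.Lib.MP_d8bd92_nt.CdB
import Pool.Agent.Lib.MP_d8bd92_nt.TfF

set_option autoImplicit false

/-! Logarithms to the base `Y` of the radical and of the size; blocks and divisors. -/

namespace Pool.Agent.Lib.MP_d8bd92_nt.Fh

open Finset Pool.Agent.Lib.Szpiro

/-- the radical -/
noncomputable def lr (Y : ℝ) (n : ℕ) : ℝ := Real.log (rd n) / Real.log Y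

/-- the size -/
noncomputable def lh (Y : ℝ) (n : ℕ) : ℝ := Real.log n / Real.log Y

/-- the part of exact exponent `i` -/
noncomputable def lx (Y : ℝ) (n i : ℕ) : ℝ := Real.log (xpart n i) / Real.log Y

/-- `n` has a block of exponent at least `k` and radical `x` -/
def KN (Y : ℝ) (K n : ℕ) (k x : ℝ) : Prop :=
  1 ≤ k ∧ ∃ i : ℕ, 1 ≤ i ∧ i < K ∧ k ≤ i ∧ x = lx Y n i

/-- `n` has a divisor of radical `ρ` and size `D` -/
def SN (Y : ℝ) (n : ℕ) (ρ D : ℝ) : Prop :=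
  ∃ d : ℕ, d ∣ n ∧ d ≠ 0 ∧ ρ = lr Y d ∧ D = lh Y d

end Pool.Agent.Lib.MP_d8bd92_nt.Fh
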