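import Pool.Agent.Lib.MP_d8bd92_nt.Fh.Q
import Pool.Agent.Lib.MP_d8bd92_nt.Fr.E

set_option autoImplicit false

/-! Row H: the upper bound for the curves, by discriminant or height. -/

namespace Pool.Agent.Lib.MP_d8bd92_nt.Fh

open Finset Pool.Agent.Lib.Szpiro Fr

theorem upH (s ε κ : ℝ) (hs : 2 ≤ s) (hs' : s ≤ 5 / 2) (hε : 0 < ε) : ∃ C : ℝ, 1 ≤ C ∧
    ∀ Y : ℝ, 1 ≤ Y →
    (FullH (fun N D H => (N : ℝ) ≤ Y ∧ (N : ℝ) ^ s ≤ (H : ℝ) ∧ (D : ℝ) ≤ Y ^ κ)).Finite ∧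
    ((FullH (fun N D H => (N : ℝ) ≤ Y ∧ (N : ℝ) ^ s ≤ (H : ℝ) ∧ (D : ℝ) ≤ Y ^ κ)).ncard : ℝ) ≤
      C * Y ^ (1 - s / 6 + ε) := by
  classical
  set κ1 : ℝ := max κ 1 with hκ1
  set κ' : ℝ := κ1 / 4 + 3 with hκ'
  have hκ1' : 1 ≤ κ1 := le_max_right _ _
  have hκ'1 : 1 ≤ κ' := by rw [hκ']; linarith
  set t : ℝ := max (1 / 3) (s / 6 - ε / 2) with htdef
  have ht : 1 / 3 ≤ t := le_max_left _ _
  have ht' : t ≤ 5 / 12 := max_le (by norm_num) (by linarith)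
  have hor : t = 1 / 3 ∨ t = s / 6 - ε / 2 := max_choice _ _
  have htge : s / 6 - ε / 2 ≤ t := le_max_right _ _
  obtain ⟨K0, hK0⟩ := H1_key s ε t hε ht (by linarith) hor
  obtain ⟨C, hC, hmain⟩ := upper t (ε / 2) κ' ht ht' (by linarith) hκ'1
  set K : ℕ := ⌊K0⌋₊ with hK
  set P2 : ℝ := (2 : ℝ) ^ (1 - t + ε / 2) with hP2
  have hP21 : 1 ≤ P2 := Real.one_le_rpow (by norm_num) (by linarith)
  refine ⟨4 * (C * P2 + (K : ℝ) * K), ?_, ?_⟩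
  · have : 0 ≤ (K : ℝ) * K := by positivity
    nlinarith
  intro Y hY
  have hY0 : 0 < Y := by linarith
  have h2Y : 1 ≤ 2 * Y := by linarith
  set M : ℕ := ⌊(2 * Y) ^ κ'⌋₊ with hM
  set S1 : Finset (ℕ × ℕ) := (Icc 1 M ×ˢ Icc 1 M).filter (fun q : ℕ × ℕ =>
    1 ≤ q.1 ∧ 1 ≤ q.2 ∧ Nat.Coprime q.1 q.2 ∧ ((q.1 + q.2 : ℕ) : ℝ) ≤ (2 * Y) ^ κ' ∧
      (rd (q.1 * q.2 * (q.1 + q.2)) : ℝ) ≤ 2 * Y ∧
      (rd (q.1 * q.2 * (q.1 + q.2)) : ℝ) ^ t ≤ ((q.1 + q.2 : ℕ) : ℝ)) with hS1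
  have hcov := cover_ht (fun N D H => (N : ℝ) ≤ Y ∧ (N : ℝ) ^ s ≤ (H : ℝ) ∧ (D : ℝ) ≤ Y ^ κ)
    (S1 ∪ Icc 1 K ×ˢ Icc 1 K) ?_
  · refine ⟨hcov.1, ?_⟩
    have hexp : 0 ≤ 1 - t + ε / 2 := by linarith
    have h1 : (S1.card : ℝ) ≤ C * (2 * Y) ^ (1 - t + ε / 2) := by
      apply hmain (2 * Y) S1 h2Y
      intro q hq
      exact (Finset.mem_filter.1 hq).2
    have h2 : (2 * Y) ^ (1 - t + ε / 2) = P2 * Y ^ (1 - t + ε / 2) := by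
      rw [Real.mul_rpow (by norm_num) hY0.le]
    have h3 : ((S1 ∪ Icc 1 K ×ˢ Icc 1 K).card : ℝ) ≤ S1.card + (K : ℝ) * K := by
      have h4 : (S1 ∪ Icc 1 K ×ˢ Icc 1 K).card ≤ S1.card + K * K := by
        refine (Finset.card_union_le _ _).trans ?_
        rw [Finset.card_product, Nat.card_Icc, Nat.add_sub_cancel]
      exact_mod_cast h4
    have h5 : (1 : ℝ) ≤ Y ^ (1 - t + ε / 2) := Real.one_le_rpow hY hexp
    have h6 : Y ^ (1 - t + ε / 2) ≤ Y ^ (1 - s / 6 + ε) :=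
      Real.rpow_le_rpow_of_exponent_le hY (by linarith)
    have h7 : 0 ≤ (K : ℝ) * K := by positivity
    calc ((FullH (fun N D H => (N : ℝ) ≤ Y ∧ (N : ℝ) ^ s ≤ (H : ℝ) ∧ (D : ℝ) ≤ Y ^ κ)).ncard : ℝ)
        ≤ ((4 * (S1 ∪ Icc 1 K ×ˢ Icc 1 K).card : ℕ) : ℝ) := by exact_mod_cast hcov.2
      _ = 4 * ((S1 ∪ Icc 1 K ×ˢ Icc 1 K).card : ℝ) := by push_cast; ring
      _ ≤ 4 * (S1.card + (K : ℝ) * K) := by linarith
      _ ≤ 4 * (C * (P2 * Y ^ (1 - t + ε / 2)) + (K : ℝ) * K * Y ^ (1 - t + ε / 2)) := by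
          rw [h2] at h1
          have h8 : (K : ℝ) * K ≤ (K : ℝ) * K * Y ^ (1 - t + ε / 2) := le_mul_of_one_le_right h7 h5
          linarith
      _ = 4 * (C * P2 + (K : ℝ) * K) * Y ^ (1 - t + ε / 2) := by ring
      _ ≤ 4 * (C * P2 + (K : ℝ) * K) * Y ^ (1 - s / 6 + ε) := by
          apply mul_le_mul_of_nonneg_left h6
          have : 0 ≤ C * P2 := by positivity
          linarith
  · intro a b N D H ha hb hab hP hN hrd h4 hH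
    obtain ⟨hP1, hP2', hP3⟩ := hP
    have hN1 : (1 : ℝ) ≤ (N : ℝ) := by exact_mod_cast hN
    have hD : (D : ℝ) ≤ Y ^ κ1 :=
      hP3.trans (Real.rpow_le_rpow_of_exponent_le hY (le_max_left _ _))
    have hsize := H1_size κ1 κ' Y hκ1' hκ' hY a b D h4 hD
    have hrdR : (rd (a * b * (a + b)) : ℝ) ≤ 2 * N := by exact_mod_cast hrd
    rw [Finset.mem_union]
    rcases hK0 a b N H ha hb hN hrd hP2' hH with h | h
    · left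
      rw [hS1, Finset.mem_filter, Finset.mem_product, Finset.mem_Icc, Finset.mem_Icc]
      have hM' : a + b ≤ M := Nat.le_floor hsize
      exact ⟨⟨⟨ha, by omega⟩, ⟨hb, by omega⟩⟩, ha, hb, hab, hsize, by linarith, h⟩
    · right
      have hK' : a + b ≤ K := Nat.le_floor h.le
      rw [Finset.mem_product, Finset.mem_Icc, Finset.mem_Icc]
      exact ⟨⟨ha, by omega⟩, ⟨hb, by omega⟩⟩

end Pool.Agent.Lib.MP_d8bd92_nt.Fh
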