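import Pool.Agent.Lib.MP_d8bd92_nt.Fh.C
import Pool.Agent.Lib.MP_d8bd92_nt.Fh.D
import Pool.Agent.Lib.MP_d8bd92_nt.Fh.E
import Pool.Agent.Lib.MP_d8bd92_nt.Fh.F
import Pool.Agent.Lib.MP_d8bd92_nt.CdI1
import Pool.Agent.Lib.MP_d8bd92_nt.LgF

set_option autoImplicit false

/-! Row P: the bound at one scale. -/

namespace Pool.Agent.Lib.MP_d8bd92_nt.Fh

open Finset Pool.Agent.Lib.Szpiro

namespace P

/-- The bound for large `Y` and pairs with `a ≤ b`. -/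
theorem half (κ ε : ℝ) (hκ : 1 ≤ κ) (hε : 0 < ε) : ∃ C Y₀ : ℝ, 1 ≤ C ∧ 1 ≤ Y₀ ∧
    ∀ (Y : ℝ) (S : Finset (ℕ × ℕ)), Y₀ ≤ Y →
    (∀ q ∈ S, q.1 ≤ q.2 ∧ 1 ≤ q.1 ∧ 1 ≤ q.2 ∧ Nat.Coprime q.1 q.2 ∧
      ((q.1 + q.2 : ℕ) : ℝ) ≤ Y ^ κ ∧
      (rd (q.1 * q.2 * (q.1 + q.2)) : ℝ) ≤ Y ∧
      Y ^ (1 / 2 - 1 / 10000 : ℝ) ≤ ((q.1 + q.2 : ℕ) : ℝ)) →
    (S.card : ℝ) ≤ C * Y ^ (7 / 12 + ε : ℝ) := by
  classical
  have hη : 0 < ε / 2 := by linarith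
  obtain ⟨K, Y₀, hK2, hY₀, hK⟩ := Fh.cases κ (ε / 2) hκ hη
  have hκ0 : 0 < κ := by linarith
  set σ : ℝ := ε / (2 * κ) with hσ
  have hσ0 : 0 < σ := by positivity
  obtain ⟨C₁, hC₁, h₁⟩ := card_evOne σ hσ0
  obtain ⟨C₂, hC₂, h₂⟩ := card_evModW σ hσ0
  obtain ⟨C₅, hC₅, h₅⟩ := card_evSq σ hσ0
  obtain ⟨C₆, hC₆, h₆⟩ := card_evLat σ hσ0
  obtain ⟨C₇, hC₇, h₇⟩ := card_evCur K σ hσ0
  refine ⟨C₁ + C₂ + C₂ + C₂ + C₅ + C₆ + C₇, Y₀, by linarith, hY₀, ?_⟩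
  intro Y S hY hS
  have hY1 : 1 ≤ Y := hY₀.trans hY
  have hY0 : 0 < Y := lt_of_lt_of_le one_pos hY1
  set Q := Y ^ (7 / 12 + ε / 2 : ℝ) with hQ
  have hQ0 : 0 < Q := Real.rpow_pos_of_pos hY0 _
  set Z := ⌊Y ^ κ⌋₊ with hZ
  have hYκ : 1 ≤ Y ^ κ := Real.one_le_rpow hY1 hκ0.le
  have hZ1 : 1 ≤ Z := Nat.le_floor (by simpa using hYκ)
  have hZσ : (Z : ℝ) ^ σ ≤ Y ^ (ε / 2 : ℝ) := by
    calc (Z : ℝ) ^ σ ≤ (Y ^ κ) ^ σ :=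
          Real.rpow_le_rpow (by positivity) (Nat.floor_le (by positivity)) hσ0.le
      _ = Y ^ (κ * σ) := (Real.rpow_mul hY0.le _ _).symm
      _ = Y ^ (ε / 2 : ℝ) := by
          congr 1
          rw [hσ]; field_simp
  have hSZ : ∀ q ∈ S, q.1 + q.2 ≤ Z := fun q hq => Nat.le_floor (hS q hq).2.2.2.2.1
  set S₁ := S.filter (fun q => EvOne Q q.1 q.2)
  set S₂ := S.filter (fun q => EvModW Q 1 (q.1 + q.2) q.1)
  set S₃ := S.filter (fun q => EvModW Q 1 (q.1 + q.2) q.2)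
  set S₄ := S.filter (fun q => EvModW Q (-1) q.1 q.2)
  set S₅ := S.filter (fun q => EvSq Q q.1 q.2)
  set S₆ := S.filter (fun q => EvLat Q q.1 q.2)
  set S₇ := S.filter (fun q => EvCur K Q q.1 q.2)
  have hcov : S ⊆ S₁ ∪ S₂ ∪ S₃ ∪ S₄ ∪ S₅ ∪ S₆ ∪ S₇ := by
    intro q hq
    obtain ⟨hq0, hq1, hq2, hq3, hq4, hq5, hq6⟩ := hS q hq
    have h := hK Y q.1 q.2 hY hq1 hq2 hq0 hq3 hq4 hq5 hq6
    simp only [Finset.mem_union, S₁, S₂, S₃, S₄, S₅, S₆, S₇, Finset.mem_filter]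
    unfold Ev at h
    tauto
  have b₁ : (S₁.card : ℝ) ≤ C₁ * (Z : ℝ) ^ σ * Q := by
    refine h₁ Z Q S₁ hZ1 hQ0.le ?_
    intro q hq
    obtain ⟨hqS, hq'⟩ := Finset.mem_filter.1 hq
    obtain ⟨hq0, hq1, hq2, hq3, hq4, hq5, hq6⟩ := hS q hqS
    exact ⟨hq1, hq2, hSZ q hqS, hq'⟩
  have b₂ : (S₂.card : ℝ) ≤ C₂ * (Z : ℝ) ^ σ * Q := by
    have hinj : Function.Injective (fun q : ℕ × ℕ => (q.1 + q.2, q.1)) := by
      intro p q h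
      simp only [Prod.mk.injEq] at h
      exact Prod.ext h.2 (by omega)
    rw [← Finset.card_image_of_injective S₂ hinj]
    refine h₂ Z 1 Q _ hZ1 hQ0.le (Or.inl rfl) ?_
    intro q hq
    obtain ⟨p, hp, rfl⟩ := Finset.mem_image.1 hq
    obtain ⟨hqS, hq'⟩ := Finset.mem_filter.1 hp
    obtain ⟨hq0, hq1, hq2, hq3, hq4, hq5, hq6⟩ := hS p hqS
    have := hSZ p hqS
    refine ⟨by simp only; omega, by simpa using this, hq1, by simp only; omega, ?_, hq'⟩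
    simp only
    push_cast
    omega
  have b₃ : (S₃.card : ℝ) ≤ C₂ * (Z : ℝ) ^ σ * Q := by
    have hinj : Function.Injective (fun q : ℕ × ℕ => (q.1 + q.2, q.2)) := by
      intro p q h
      simp only [Prod.mk.injEq] at h
      exact Prod.ext (by omega) h.2
    rw [← Finset.card_image_of_injective S₃ hinj]
    refine h₂ Z 1 Q _ hZ1 hQ0.le (Or.inl rfl) ?_
    intro q hq
    obtain ⟨p, hp, rfl⟩ := Finset.mem_image.1 hq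
    obtain ⟨hqS, hq'⟩ := Finset.mem_filter.1 hp
    obtain ⟨hq0, hq1, hq2, hq3, hq4, hq5, hq6⟩ := hS p hqS
    have := hSZ p hqS
    refine ⟨by simp only; omega, by simpa using this, hq2, by simp only; omega, ?_, hq'⟩
    simp only
    push_cast
    omega
  have b₄ : (S₄.card : ℝ) ≤ C₂ * (Z : ℝ) ^ σ * Q := by
    refine h₂ Z (-1) Q _ hZ1 hQ0.le (Or.inr rfl) ?_
    intro q hq
    obtain ⟨hqS, hq'⟩ := Finset.mem_filter.1 hq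
    obtain ⟨hq0, hq1, hq2, hq3, hq4, hq5, hq6⟩ := hS q hqS
    have := hSZ q hqS
    refine ⟨hq1, by omega, hq2, by omega, by omega, hq'⟩
  have b₅ : (S₅.card : ℝ) ≤ C₅ * (Z : ℝ) ^ σ * Q := by
    refine h₅ Z Q S₅ hZ1 hQ0.le ?_
    intro q hq
    obtain ⟨hqS, hq'⟩ := Finset.mem_filter.1 hq
    obtain ⟨hq0, hq1, hq2, hq3, hq4, hq5, hq6⟩ := hS q hqS
    exact ⟨hq1, hq2, hSZ q hqS, hq3, hq'⟩
  have b₆ : (S₆.card : ℝ) ≤ C₆ * (Z : ℝ) ^ σ * Q := by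
    refine h₆ Z Q S₆ hZ1 hQ0.le ?_
    intro q hq
    obtain ⟨hqS, hq'⟩ := Finset.mem_filter.1 hq
    obtain ⟨hq0, hq1, hq2, hq3, hq4, hq5, hq6⟩ := hS q hqS
    exact ⟨hq1, hq2, hSZ q hqS, hq3, hq'⟩
  have b₇ : (S₇.card : ℝ) ≤ C₇ * (Z : ℝ) ^ σ * Q := by
    refine h₇ Z Q S₇ hZ1 hQ0.le ?_
    intro q hq
    obtain ⟨hqS, hq'⟩ := Finset.mem_filter.1 hq
    obtain ⟨hq0, hq1, hq2, hq3, hq4, hq5, hq6⟩ := hS q hqS
    exact ⟨hq1, hq2, hSZ q hqS, hq3, hq'⟩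
  have hcard : (S.card : ℝ) ≤
      S₁.card + S₂.card + S₃.card + S₄.card + S₅.card + S₆.card + S₇.card := by
    have u1 := Finset.card_le_card hcov
    have u2 := Finset.card_union_le (S₁ ∪ S₂ ∪ S₃ ∪ S₄ ∪ S₅ ∪ S₆) S₇
    have u3 := Finset.card_union_le (S₁ ∪ S₂ ∪ S₃ ∪ S₄ ∪ S₅) S₆
    have u4 := Finset.card_union_le (S₁ ∪ S₂ ∪ S₃ ∪ S₄) S₅
    have u5 := Finset.card_union_le (S₁ ∪ S₂ ∪ S₃) S₄
    have u6 := Finset.card_union_le (S₁ ∪ S₂) S₃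
    have u7 := Finset.card_union_le S₁ S₂
    have h5 : S.card ≤
        S₁.card + S₂.card + S₃.card + S₄.card + S₅.card + S₆.card + S₇.card := by omega
    exact_mod_cast h5
  have hfin : Y ^ (ε / 2 : ℝ) * Q = Y ^ (7 / 12 + ε : ℝ) := by
    rw [hQ, ← Real.rpow_add hY0]
    congr 1
    ring
  calc (S.card : ℝ) ≤
        S₁.card + S₂.card + S₃.card + S₄.card + S₅.card + S₆.card + S₇.card := hcard
    _ ≤ C₁ * (Z : ℝ) ^ σ * Q + C₂ * (Z : ℝ) ^ σ * Q + C₂ * (Z : ℝ) ^ σ * Q +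
          C₂ * (Z : ℝ) ^ σ * Q + C₅ * (Z : ℝ) ^ σ * Q + C₆ * (Z : ℝ) ^ σ * Q +
          C₇ * (Z : ℝ) ^ σ * Q := by linarith
    _ = (C₁ + C₂ + C₂ + C₂ + C₅ + C₆ + C₇) * ((Z : ℝ) ^ σ * Q) := by ring
    _ ≤ (C₁ + C₂ + C₂ + C₂ + C₅ + C₆ + C₇) * (Y ^ (ε / 2 : ℝ) * Q) := by
        refine mul_le_mul_of_nonneg_left ?_ (by linarith)
        exact mul_le_mul_of_nonneg_right hZσ hQ0.le
    _ = _ := by rw [hfin]

end P

theorem scale (κ ε : ℝ) (hκ : 1 ≤ κ) (hε : 0 < ε) : ∃ C : ℝ, 1 ≤ C ∧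
    ∀ (Y : ℝ) (S : Finset (ℕ × ℕ)), 1 ≤ Y →
    (∀ q ∈ S, 1 ≤ q.1 ∧ 1 ≤ q.2 ∧ Nat.Coprime q.1 q.2 ∧ ((q.1 + q.2 : ℕ) : ℝ) ≤ Y ^ κ ∧
      (rd (q.1 * q.2 * (q.1 + q.2)) : ℝ) ≤ Y ∧
      Y ^ (1 / 2 - 1 / 10000 : ℝ) ≤ ((q.1 + q.2 : ℕ) : ℝ)) →
    (S.card : ℝ) ≤ C * Y ^ (7 / 12 + ε : ℝ) := by
  classical
  obtain ⟨C, Y₀, hC1, hY₀, hC⟩ := P.half κ ε hκ hε
  have hκ0 : 0 < κ := by linarith
  set M : ℝ := Y₀ ^ κ with hM
  have hM1 : 1 ≤ M := Real.one_le_rpow hY₀ hκ0.le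
  have hMM : 0 ≤ M * M := mul_self_nonneg M
  refine ⟨C + C + M * M, by linarith, ?_⟩
  intro Y S hY hS
  have hY0 : 0 < Y := by linarith
  have hYp : 1 ≤ Y ^ (7 / 12 + ε : ℝ) := Real.one_le_rpow hY (by linarith)
  by_cases hbig : Y₀ ≤ Y
  · set S₁ := S.filter (fun q => q.1 ≤ q.2)
    set S₂ := S.filter (fun q => ¬ q.1 ≤ q.2)
    have hcard : S.card = S₁.card + S₂.card :=
      (Finset.card_filter_add_card_filter_not (s := S) (fun q : ℕ × ℕ => q.1 ≤ q.2)).symm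
    have b₁ : (S₁.card : ℝ) ≤ C * Y ^ (7 / 12 + ε : ℝ) := by
      refine hC Y S₁ hbig ?_
      intro q hq
      obtain ⟨hqS, hq'⟩ := Finset.mem_filter.1 hq
      exact ⟨hq', hS q hqS⟩
    have b₂ : (S₂.card : ℝ) ≤ C * Y ^ (7 / 12 + ε : ℝ) := by
      rw [← Finset.card_image_of_injective S₂ Prod.swap_injective]
      refine hC Y _ hbig ?_
      intro q hq
      obtain ⟨p, hp, rfl⟩ := Finset.mem_image.1 hq
      obtain ⟨hqS, hq'⟩ := Finset.mem_filter.1 hp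
      obtain ⟨h1, h2, h3, h4, h5, h6⟩ := hS p hqS
      have e1 : p.2 + p.1 = p.1 + p.2 := by ring
      have e2 : p.2 * p.1 = p.1 * p.2 := by ring
      simp only [Prod.fst_swap, Prod.snd_swap]
      rw [e1, e2]
      exact ⟨by omega, h2, h1, h3.symm, h4, h5, h6⟩
    rw [hcard]
    push_cast
    have h7 : 0 ≤ M * M * Y ^ (7 / 12 + ε : ℝ) := mul_nonneg hMM (by linarith)
    linarith
  · push Not at hbig
    set N := ⌊M⌋₊ with hN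
    have hsub : S ⊆ Finset.Icc 1 N ×ˢ Finset.Icc 1 N := by
      intro q hq
      obtain ⟨h1, h2, h3, h4, h5, h6⟩ := hS q hq
      have h7 : Y ^ κ ≤ M := Real.rpow_le_rpow hY0.le hbig.le hκ0.le
      have h8 : q.1 + q.2 ≤ N := Nat.le_floor (h4.trans h7)
      simp only [Finset.mem_product, Finset.mem_Icc]
      omega
    have hc : (S.card : ℝ) ≤ M * M := by
      have h1 : S.card ≤ N * N := by
        refine (Finset.card_le_card hsub).trans ?_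
        rw [Finset.card_product, Nat.card_Icc]
        simp
      have h2 : (N : ℝ) ≤ M := Nat.floor_le (by linarith)
      calc (S.card : ℝ) ≤ (N : ℝ) * N := by exact_mod_cast h1
        _ ≤ M * M := mul_le_mul h2 h2 (by positivity) (by linarith)
    calc (S.card : ℝ) ≤ M * M := hc
      _ ≤ (C + C + M * M) * 1 := by linarith
      _ ≤ _ := mul_le_mul_of_nonneg_left hYp (by linarith)

end Pool.Agent.Lib.MP_d8bd92_nt.Fh
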