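import Pool.Agent.Lib.MP_d8bd92_nt.Fh.P
import Pool.Agent.Lib.MP_d8bd92_nt.LgQ

set_option autoImplicit false

/-! Row Q: the upper bound for the number of sums. -/

namespace Pool.Agent.Lib.MP_d8bd92_nt.Fh

open Finset Pool.Agent.Lib.Szpiro

theorem upper (t ε κ : ℝ) (ht : 1 / 3 ≤ t) (ht' : t ≤ 5 / 12) (hε : 0 < ε) (hκ : 1 ≤ κ) :
    ∃ C : ℝ, 1 ≤ C ∧ ∀ (Y : ℝ) (S : Finset (ℕ × ℕ)), 1 ≤ Y →
    (∀ q ∈ S, 1 ≤ q.1 ∧ 1 ≤ q.2 ∧ Nat.Coprime q.1 q.2 ∧ ((q.1 + q.2 : ℕ) : ℝ) ≤ Y ^ κ ∧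
      (rd (q.1 * q.2 * (q.1 + q.2)) : ℝ) ≤ Y ∧
      (rd (q.1 * q.2 * (q.1 + q.2)) : ℝ) ^ t ≤ ((q.1 + q.2 : ℕ) : ℝ)) →
    (S.card : ℝ) ≤ C * Y ^ (1 - t + ε) := by
  classical
  have hκ0 : 0 < κ := by linarith
  set σ : ℝ := min (ε / 4) 1 with hσdef
  have hσ : 0 < σ := lt_min (by positivity) one_pos
  have hσ1 : σ ≤ 1 := min_le_right _ _
  have hσ4 : σ ≤ ε / 4 := min_le_left _ _
  obtain ⟨C1, hC11, hC1⟩ := card_evOne (1 / (10 * κ)) (by positivity)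
  obtain ⟨C2, hC21, hC2⟩ := scale (2 * κ) ε (by linarith) hε
  obtain ⟨C3, hC31, hC3⟩ := LgQ.small σ hσ hσ1
  set n : ℕ := ⌈5 / ε⌉₊ + 1 with hn
  have hn1 : 1 ≤ n := by omega
  have hnR : (1 : ℝ) ≤ n := by exact_mod_cast hn1
  have hn0 : (0 : ℝ) < n := by linarith
  have hn5 : 5 / (2 * (n : ℝ)) ≤ ε / 2 := by
    have h1 : 5 / ε ≤ n := by
      have := Nat.le_ceil (5 / ε)
      rw [hn]
      push_cast
      linarith
    rw [div_le_iff₀ hε] at h1
    rw [div_le_iff₀ (by positivity)]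
    nlinarith
  refine ⟨C1 + n * (C2 + C3), by nlinarith, ?_⟩
  intro Y S hY hS
  have hY0 : 0 < Y := by linarith
  set r : ℕ × ℕ → ℝ := fun q => (rd (q.1 * q.2 * (q.1 + q.2)) : ℝ) with hr
  set f : ℕ → ℝ := fun i => Y ^ (1 - (i : ℝ) / (2 * n)) with hf
  set S0 := S.filter (fun q => r q ≤ f n) with hS0
  set Sb : ℕ → Finset (ℕ × ℕ) := fun i => S.filter (fun q => (f (i + 1) < r q ∧ r q ≤ f i) ∧
    (f i) ^ (1 / 2 : ℝ) ≤ ((q.1 + q.2 : ℕ) : ℝ)) with hSb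
  set Ss : ℕ → Finset (ℕ × ℕ) := fun i => S.filter (fun q => (f (i + 1) < r q ∧ r q ≤ f i) ∧
    ((q.1 + q.2 : ℕ) : ℝ) < (f i) ^ (1 / 2 : ℝ)) with hSs
  -- covering
  have hsub : S ⊆ S0 ∪ (range n).biUnion (fun i => Sb i ∪ Ss i) := by
    intro q hq
    rw [Finset.mem_union]
    rcases le_or_gt (r q) (f n) with h | h
    · exact Or.inl (Finset.mem_filter.2 ⟨hq, h⟩)
    · right
      have h0 : r q ≤ f 0 := by
        have h1 : f 0 = Y := by
          simp only [hf, Nat.cast_zero, zero_div, sub_zero, Real.rpow_one]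
        rw [h1]
        exact (hS q hq).2.2.2.2.1
      obtain ⟨i, hi1, hi2, hi3⟩ := LgQ.part f (r q) n h0 h
      rw [Finset.mem_biUnion]
      refine ⟨i, Finset.mem_range.2 hi1, ?_⟩
      rw [Finset.mem_union]
      rcases le_or_gt ((f i) ^ (1 / 2 : ℝ)) ((q.1 + q.2 : ℕ) : ℝ) with h' | h'
      · exact Or.inl (Finset.mem_filter.2 ⟨hq, ⟨hi2, hi3⟩, h'⟩)
      · exact Or.inr (Finset.mem_filter.2 ⟨hq, ⟨hi2, hi3⟩, h'⟩)
  -- part 0
  have hA : (S0.card : ℝ) ≤ C1 * Y ^ (1 - t + ε) := by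
    have hYκ : (1 : ℝ) ≤ Y ^ κ := Real.one_le_rpow hY hκ0.le
    have hZ1 : 1 ≤ ⌊Y ^ κ⌋₊ := (Nat.one_le_floor_iff _).2 hYκ
    have h := hC1 ⌊Y ^ κ⌋₊ (Y ^ (1 / 3 : ℝ)) S0 hZ1 (by positivity) (by
      intro q hq
      obtain ⟨hq1, hq2⟩ := Finset.mem_filter.1 hq
      obtain ⟨a1, a2, a3, a4, a5, a6⟩ := hS q hq1
      refine ⟨a1, a2, Nat.le_floor a4, ?_⟩
      unfold EvOne
      apply LgQ.three _ _ _ _ (by positivity)
      rw [← LgQ.rd_three q.1 q.2 a1 a2 a3]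
      have hq3 : (rd (q.1 * q.2 * (q.1 + q.2)) : ℝ) ≤ Y ^ (1 / 2 : ℝ) := by
        have : f n = Y ^ (1 / 2 : ℝ) := by
          simp only [hf]
          congr 1
          field_simp
          norm_num
        rw [← this]
        exact hq2
      calc (rd (q.1 * q.2 * (q.1 + q.2)) : ℝ) ^ 2 ≤ (Y ^ (1 / 2 : ℝ)) ^ 2 := by gcongr
        _ = (Y ^ (1 / 3 : ℝ)) ^ 3 := by
          rw [← Real.rpow_natCast, ← Real.rpow_mul hY0.le, ← Real.rpow_natCast,
            ← Real.rpow_mul hY0.le]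
          congr 1
          norm_num)
    refine h.trans ?_
    rw [mul_assoc]
    apply mul_le_mul_of_nonneg_left _ (by linarith)
    calc ((⌊Y ^ κ⌋₊ : ℕ) : ℝ) ^ (1 / (10 * κ)) * Y ^ (1 / 3 : ℝ)
        ≤ (Y ^ κ) ^ (1 / (10 * κ)) * Y ^ (1 / 3 : ℝ) := by
          apply mul_le_mul_of_nonneg_right _ (by positivity)
          exact Real.rpow_le_rpow (Nat.cast_nonneg _) (Nat.floor_le (by positivity)) (by positivity)
      _ = Y ^ (1 / 10 + 1 / 3 : ℝ) := by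
          rw [← Real.rpow_mul hY0.le, ← Real.rpow_add hY0]
          congr 1
          field_simp
      _ ≤ Y ^ (1 - t + ε) := Real.rpow_le_rpow_of_exponent_le hY (by linarith)
  -- the other parts
  have hfi1 : ∀ i, i < n → (i : ℝ) / (2 * n) ≤ 1 / 2 := by
    intro i hi
    have : (i : ℝ) ≤ n := by exact_mod_cast hi.le
    rw [div_le_iff₀ (by positivity)]
    linarith
  have hB : ∀ i ∈ range n, ((Sb i).card : ℝ) ≤ C2 * Y ^ (1 - t + ε) := by
    intro i hi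
    have hi' := hfi1 i (Finset.mem_range.1 hi)
    have hi0 : (0 : ℝ) ≤ (i : ℝ) / (2 * n) := by positivity
    have hfi : (1 : ℝ) ≤ f i := Real.one_le_rpow hY (by linarith)
    have h := hC2 (f i) (Sb i) hfi (by
      intro q hq
      obtain ⟨hq1, ⟨hq2, hq3⟩, hq4⟩ := Finset.mem_filter.1 hq
      obtain ⟨a1, a2, a3, a4, a5, a6⟩ := hS q hq1
      refine ⟨a1, a2, a3, ?_, hq3, ?_⟩
      · refine a4.trans ?_
        simp only [hf]
        rw [← Real.rpow_mul hY0.le]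
        apply Real.rpow_le_rpow_of_exponent_le hY
        nlinarith
      · exact (Real.rpow_le_rpow_of_exponent_le hfi (by norm_num)).trans hq4)
    refine h.trans ?_
    apply mul_le_mul_of_nonneg_left _ (by linarith)
    calc (f i) ^ (7 / 12 + ε : ℝ) ≤ Y ^ (7 / 12 + ε : ℝ) := by
          apply Real.rpow_le_rpow (by linarith) _ (by positivity)
          calc f i ≤ Y ^ (1 : ℝ) := Real.rpow_le_rpow_of_exponent_le hY (by linarith)
            _ = Y := Real.rpow_one Y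
      _ ≤ Y ^ (1 - t + ε) := Real.rpow_le_rpow_of_exponent_le hY (by linarith)
  have hD : ∀ i ∈ range n, ((Ss i).card : ℝ) ≤ C3 * Y ^ (1 - t + ε) := by
    intro i hi
    have h := hC3 Y t n i (Ss i) hY (by linarith) (by linarith) hn1 (Finset.mem_range.1 hi) (by
      intro q hq
      obtain ⟨hq1, ⟨hq2, hq3⟩, hq4⟩ := Finset.mem_filter.1 hq
      obtain ⟨a1, a2, a3, a4, a5, a6⟩ := hS q hq1
      exact ⟨a1, a2, a3, hq4, hq3, hq2, a6⟩)
    refine h.trans ?_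
    apply mul_le_mul_of_nonneg_left _ (by linarith)
    apply Real.rpow_le_rpow_of_exponent_le hY
    linarith
  -- conclusion
  have hcard : (S.card : ℝ) ≤ (S0.card : ℝ) + ∑ i ∈ range n, (((Sb i).card : ℝ) + (Ss i).card) := by
    have e1 := Finset.card_le_card hsub
    have e2 := Finset.card_union_le S0 ((range n).biUnion (fun i => Sb i ∪ Ss i))
    have e3 := Finset.card_biUnion_le (s := range n) (t := fun i => Sb i ∪ Ss i)
    have e4 : ∑ i ∈ range n, (Sb i ∪ Ss i).card ≤ ∑ i ∈ range n, ((Sb i).card + (Ss i).card) :=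
      Finset.sum_le_sum (fun i _ => Finset.card_union_le _ _)
    exact_mod_cast (by omega : S.card ≤ S0.card + ∑ i ∈ range n, ((Sb i).card + (Ss i).card))
  have hsum : ∑ i ∈ range n, (((Sb i).card : ℝ) + (Ss i).card) ≤
      n * ((C2 + C3) * Y ^ (1 - t + ε)) := by
    refine (Finset.sum_le_sum (fun i hi => add_le_add (hB i hi) (hD i hi))).trans (le_of_eq ?_)
    rw [Finset.sum_const, Finset.card_range, nsmul_eq_mul]
    ring
  calc (S.card : ℝ) ≤ C1 * Y ^ (1 - t + ε) + n * ((C2 + C3) * Y ^ (1 - t + ε)) := by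
        linarith
    _ = _ := by ring

end Pool.Agent.Lib.MP_d8bd92_nt.Fh
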